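import Mathlib

/-!
Library R512.Q (helper512): from the relations of cubes to a relation with two terms, over `ZMod q`, `q`
prime (after `Pool.Agent.Y578.U.Alg` and `Pool.Agent.Y960.E.Alg2`, the case `q = 2`).
-/

set_option autoImplicit false

open Finset

namespace Pool.Agent.R512.Q

/-- Laurent polynomials over the field with `q` elements -/
abbrev LP (q : ℕ) : Type := LaurentPolynomial (ZMod q)

/-- the monomial -/
noncomputable abbrev TT (q : ℕ) (t : ℤ) : LP q := LaurentPolynomial.T t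

theorem frobq (q : ℕ) [hq : Fact q.Prime] (u : LP q) (d : ℕ) : (1 - u) ^ q ^ d = 1 - u ^ q ^ d := by
  haveI : CharP (LP q) q := charP_of_injective_algebraMap (algebraMap (ZMod q) (LP q)).injective q
  rw [sub_pow_char_pow, one_pow]

theorem geoq {q : ℕ} (u : LP q) (m : ℕ) : (1 - u) * ∑ l ∈ range m, u ^ l = 1 - u ^ m := by
  have h := mul_neg_geom_sum u m
  exact h

section H
variable {q : ℕ} {A : ℕ} {H : LP q → ℕ → Prop}
  (hadd : ∀ g g' a a', H g a → H g' a' → H (g + g') (a + a'))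
  (hneg : ∀ g a, H g a → H (-g) a)
  (hT : ∀ g a (t : ℤ), (A : ℤ) ∣ t → H g a → H (TT q t * g) a)
  (hmono : ∀ g a a', a ≤ a' → H g a → H g a')

include hadd in
theorem hsum {ι : Type} [DecidableEq ι] (s : Finset ι) (hs : s.Nonempty) (f : ι → LP q) (a : ℕ)
    (h : ∀ i ∈ s, H (f i) a) : H (∑ i ∈ s, f i) (s.card * a) := by
  induction hs using Finset.Nonempty.cons_induction with
  | singleton i => simpa using h i (by simp)
  | cons i s hi hs ih =>
    rw [Finset.sum_cons, Finset.card_cons]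
    have h1 := h i (by simp)
    have h2 := ih (fun k hk => h k (by simp [hk]))
    have := hadd _ _ _ _ h1 h2
    have e : (s.card + 1) * a = a + s.card * a := by ring
    rw [e]
    exact this

/-- multiplication by `c` costs a factor `m` -/
def Mu (H : LP q → ℕ → Prop) (c : LP q) (m : ℕ) : Prop := ∀ g a, H g a → H (c * g) (m * a)

include hT in
theorem mu_T {t : ℤ} (ht : (A : ℤ) ∣ t) : Mu H (TT q t) 1 := by
  intro g a h
  rw [one_mul]
  exact hT g a t ht h

include hneg in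
theorem mu_neg {c : LP q} {m : ℕ} (h : Mu H c m) : Mu H (-c) m := by
  intro g a hg
  rw [neg_mul]
  exact hneg _ _ (h g a hg)

include hadd in
theorem mu_sum {ι : Type} [DecidableEq ι] (s : Finset ι) (hs : s.Nonempty) (f : ι → LP q)
    (h : ∀ i ∈ s, Mu H (f i) 1) : Mu H (∑ i ∈ s, f i) s.card := by
  intro g a hg
  rw [Finset.sum_mul]
  refine hsum hadd s hs _ a fun i hi => ?_
  have := h i hi g a hg
  rwa [one_mul] at this

theorem mu_mul {c c' : LP q} {m m' : ℕ} (h : Mu H c m) (h' : Mu H c' m') :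
    Mu H (c * c') (m * m') := by
  intro g a hg
  rw [mul_assoc, mul_assoc]
  exact h _ _ (h' _ _ hg)

theorem mu_one : Mu H 1 1 := by
  intro g a hg
  rw [one_mul, one_mul]; exact hg

theorem mu_prod {ι : Type} [DecidableEq ι] (s : Finset ι) (c : ι → LP q) (m : ι → ℕ)
    (h : ∀ i ∈ s, Mu H (c i) (m i)) : Mu H (∏ i ∈ s, c i) (∏ i ∈ s, m i) := by
  induction s using Finset.induction_on with
  | empty => simpa using mu_one
  | insert a s ha ih =>
    rw [Finset.prod_insert ha, Finset.prod_insert ha]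
    exact mu_mul (h a (by simp)) (ih fun i hi => h i (by simp [hi]))

theorem mu_pow {c : LP q} {m : ℕ} (h : Mu H c m) (k : ℕ) : Mu H (c ^ k) (m ^ k) := by
  induction k with
  | zero => simpa using mu_one
  | succ k ih => rw [pow_succ, pow_succ]; exact mu_mul ih h

end H

/-- the cofactors -/
def Gf {d : ℕ} (x : Fin (d + 1) → ℤ) (i : Fin d) : ℕ :=
  ∏ l ∈ univ.erase i, (x 0 - x l.succ).natAbs

/-- the product of all the differences -/
def Xf {d : ℕ} (x : Fin (d + 1) → ℤ) : ℕ := ∏ l : Fin d, (x 0 - x l.succ).natAbs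

theorem Gf_mul {d : ℕ} (x : Fin (d + 1) → ℤ) (i : Fin d) :
    (x 0 - x i.succ).natAbs * Gf x i = Xf x := by
  unfold Gf Xf
  exact Finset.mul_prod_erase univ (fun l : Fin d => (x 0 - x l.succ).natAbs) (Finset.mem_univ i)

/-- from the relations of the cubes to a relation with two terms -/
theorem algq (q : ℕ) [hq : Fact q.Prime] : ∀ d L : ℕ, ∃ Mc : ℕ, ∀ A : ℕ, 1 ≤ A → ∀ x : Fin (d + 1) → ℤ,
  Function.Injective x → ∃ R : ℕ, 1 ≤ R ∧ A ∣ R ∧ ∃ G : Fin d → ℕ, (∀ i, 1 ≤ G i) ∧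
    ∀ (r : Fin d → ℤ) (j : Fin d → ℕ), (∀ i, 1 ≤ j i ∧ j i ≤ L) →
    ∀ (n : Finset (Fin d) → ℤ) (H : LP q → ℕ → Prop),
      (∀ g g' a a', H g a → H g' a' → H (g + g') (a + a')) →
      (∀ g a, H g a → H (-g) a) →
      (∀ g a (t : ℤ), (A : ℤ) ∣ t → H g a → H (LaurentPolynomial.T t * g) a) →
      (∀ g a a', a ≤ a' → H g a → H g a') →
      (∀ ω : Finset (Fin d), H (LaurentPolynomial.T ((1 + A * n ω) * x 0) * ∏ i, (1 - LaurentPolynomial.T
        ((A : ℤ) * ((r i + if i ∈ ω then (j i : ℤ) * G i else 0) * (x 0 - x i.succ))))) (2 ^ d)) →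
      H (LaurentPolynomial.T (x 0) * (1 - LaurentPolynomial.T (R : ℤ))) Mc := by
  intro d L
  obtain ⟨J, hJ⟩ : ∃ J, J = L.factorial := ⟨_, rfl⟩
  have hJ0 : 1 ≤ J := by rw [hJ]; exact Nat.factorial_pos L
  have hq2 := hq.out.two_le
  refine ⟨2 ^ (q ^ d) * (J ^ d * (2 ^ d * 2 ^ d)), ?_⟩
  intro A hA x hx
  have hX : ∀ i : Fin d, 1 ≤ (x 0 - x i.succ).natAbs := by
    intro i
    rw [Nat.one_le_iff_ne_zero, Int.natAbs_ne_zero, sub_ne_zero]
    intro h
    have := hx h
    exact absurd this.symm (Fin.succ_ne_zero i)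
  have hXf : 1 ≤ Xf x := Nat.one_le_iff_ne_zero.2 (Finset.prod_ne_zero_iff.2 fun i _ => by
    have := hX i; omega)
  have hqd : 0 < q ^ d := pow_pos (by omega) d
  refine ⟨A * Xf x * J * q ^ d, ?_, ?_, Gf x, ?_, ?_⟩
  · have : 0 < A * Xf x * J * q ^ d := by positivity
    exact this
  · exact ⟨Xf x * J * q ^ d, by ring⟩
  · intro i
    exact Nat.one_le_iff_ne_zero.2 (Finset.prod_ne_zero_iff.2 fun l _ => by
      have := hX l; omega)
  intro r j hj n H hadd hneg hT hmono hrel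
  -- step 1
  have s1 : ∀ ω : Finset (Fin d), H (TT q (x 0) * ∏ i, (1 - TT q ((A : ℤ) *
      ((r i + if i ∈ ω then (j i : ℤ) * Gf x i else 0) * (x 0 - x i.succ))))) (2 ^ d) := by
    intro ω
    have h1 := hrel ω
    have h2 := hT _ _ (-((A : ℤ) * (n ω * x 0))) (Dvd.dvd.neg_right ⟨_, rfl⟩) h1
    rw [← mul_assoc, ← LaurentPolynomial.T_add] at h2
    have e : -((A : ℤ) * (n ω * x 0)) + (1 + A * n ω) * x 0 = x 0 := by ring
    rw [e] at h2
    exact h2
  -- step 2
  have s2 : H (TT q (x 0) * ∏ i, (TT q ((A : ℤ) * (r i * (x 0 - x i.succ))) *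
      (1 - TT q ((A : ℤ) * ((j i : ℤ) * Gf x i * (x 0 - x i.succ)))))) (2 ^ d * 2 ^ d) := by
    have h1 := hsum hadd (univ : Finset (Finset (Fin d))) ⟨∅, Finset.mem_univ _⟩
      (fun ω => (-1) ^ (ωᶜ).card * (TT q (x 0) * ∏ i, (1 - TT q ((A : ℤ) *
      ((r i + if i ∈ ω then (j i : ℤ) * Gf x i else 0) * (x 0 - x i.succ)))))) (2 ^ d)
      (fun ω _ => by
        rcases neg_one_pow_eq_or (LP q) (ωᶜ).card with h | h
        · rw [h, one_mul]; exact s1 ω
        · rw [h, neg_one_mul]; exact hneg _ _ (s1 ω))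
    rw [Finset.card_univ, Fintype.card_finset, Fintype.card_fin] at h1
    have h2 : ∑ ω : Finset (Fin d), (-1) ^ (ωᶜ).card * (TT q (x 0) * ∏ i, (1 - TT q ((A : ℤ) *
        ((r i + if i ∈ ω then (j i : ℤ) * Gf x i else 0) * (x 0 - x i.succ))))) =
        TT q (x 0) * ∏ i, (TT q ((A : ℤ) * (r i * (x 0 - x i.succ))) *
          (1 - TT q ((A : ℤ) * ((j i : ℤ) * Gf x i * (x 0 - x i.succ))))) := by
      have h3 : ∀ i : Fin d, TT q ((A : ℤ) * (r i * (x 0 - x i.succ))) *
          (1 - TT q ((A : ℤ) * ((j i : ℤ) * Gf x i * (x 0 - x i.succ)))) =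
          (1 - TT q ((A : ℤ) * ((r i + (j i : ℤ) * Gf x i) * (x 0 - x i.succ)))) +
            (-(1 - TT q ((A : ℤ) * (r i * (x 0 - x i.succ))))) := by
        intro i
        rw [mul_sub, mul_one, ← LaurentPolynomial.T_add]
        have e : (A : ℤ) * (r i * (x 0 - x i.succ)) + A * ((j i : ℤ) * Gf x i * (x 0 - x i.succ)) =
            A * ((r i + (j i : ℤ) * Gf x i) * (x 0 - x i.succ)) := by ring
        rw [e]
        ring
      rw [Finset.prod_congr rfl fun i _ => h3 i, Finset.prod_add, Finset.powerset_univ, Finset.mul_sum]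
      refine Finset.sum_congr rfl fun ω _ => ?_
      rw [← Finset.prod_mul_prod_compl ω, ← Finset.compl_eq_univ_sdiff, Finset.prod_neg]
      have h5 : ∏ i ∈ ω, (1 - TT q ((A : ℤ) * ((r i + if i ∈ ω then (j i : ℤ) * Gf x i else 0) *
          (x 0 - x i.succ)))) = ∏ i ∈ ω, (1 - TT q ((A : ℤ) * ((r i + (j i : ℤ) * Gf x i) *
          (x 0 - x i.succ)))) := Finset.prod_congr rfl fun i hi => by rw [if_pos hi]
      have h6 : ∏ i ∈ ωᶜ, (1 - TT q ((A : ℤ) * ((r i + if i ∈ ω then (j i : ℤ) * Gf x i else 0) *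
          (x 0 - x i.succ)))) = ∏ i ∈ ωᶜ, (1 - TT q ((A : ℤ) * (r i * (x 0 - x i.succ)))) :=
        Finset.prod_congr rfl fun i hi => by rw [if_neg (Finset.mem_compl.1 hi), add_zero]
      rw [h5, h6]
      ring
    rw [h2] at h1
    exact h1
  -- translations to normal form
  have s3 : H (TT q (x 0) * ∏ i : Fin d, (1 - TT q ((A : ℤ) * Xf x * j i))) (2 ^ d * 2 ^ d) := by
    have h1 : Mu H (∏ i : Fin d, if 0 ≤ x 0 - x i.succ then TT q (-((A : ℤ) * (r i * (x 0 - x i.succ)))) else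
        -TT q (-((A : ℤ) * (r i * (x 0 - x i.succ))) + (A : ℤ) * Xf x * j i)) (∏ _i : Fin d, 1) := by
      refine mu_prod _ _ _ fun i _ => ?_
      split_ifs
      · exact mu_T hT (Dvd.dvd.neg_right ⟨_, rfl⟩)
      · exact mu_neg hneg (mu_T hT (Dvd.dvd.add (Dvd.dvd.neg_right ⟨_, rfl⟩) ⟨Xf x * j i, by ring⟩))
    have h2 := h1 _ _ s2
    rw [Finset.prod_const_one, one_mul, mul_left_comm, ← Finset.prod_mul_distrib] at h2
    refine (congrArg (fun g => H (TT q (x 0) * g) (2 ^ d * 2 ^ d)) ?_).mp h2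
    refine Finset.prod_congr rfl fun i _ => ?_
    have hG : ((x 0 - x i.succ).natAbs : ℤ) * Gf x i = Xf x := by exact_mod_cast Gf_mul x i
    split_ifs with h0
    · have hab : ((x 0 - x i.succ).natAbs : ℤ) = x 0 - x i.succ := Int.natAbs_of_nonneg h0
      rw [hab] at hG
      rw [← mul_assoc, ← LaurentPolynomial.T_add]
      have e1 : -((A : ℤ) * (r i * (x 0 - x i.succ))) + A * (r i * (x 0 - x i.succ)) = 0 := by
        ring
      have e2 : (A : ℤ) * ((j i : ℤ) * Gf x i * (x 0 - x i.succ)) = A * Xf x * j i := by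
        rw [← hG]; ring
      rw [e1, LaurentPolynomial.T_zero, one_mul, e2]
    · have hab : ((x 0 - x i.succ).natAbs : ℤ) = -(x 0 - x i.succ) := by omega
      rw [hab] at hG
      rw [neg_mul, ← mul_assoc, ← LaurentPolynomial.T_add, mul_sub, mul_one, ← LaurentPolynomial.T_add]
      have e1 : -((A : ℤ) * (r i * (x 0 - x i.succ))) + A * Xf x * j i +
          A * (r i * (x 0 - x i.succ)) = A * Xf x * j i := by ring
      have e2 : (A : ℤ) * Xf x * j i + A * ((j i : ℤ) * Gf x i * (x 0 - x i.succ)) = 0 := by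
        rw [← hG]; ring
      rw [e1, e2, LaurentPolynomial.T_zero]
      ring
  -- step 3
  have s4 : H (TT q (x 0) * (1 - TT q ((A : ℤ) * Xf x * J)) ^ d) (J ^ d * (2 ^ d * 2 ^ d)) := by
    have h1 : Mu H (∏ i : Fin d, ∑ l ∈ range (J / j i), TT q ((A : ℤ) * Xf x * j i) ^ l)
        (∏ i : Fin d, (J / j i)) := by
      refine mu_prod _ _ _ fun i _ => ?_
      have hji := hj i
      have hpos : 0 < J / j i := Nat.div_pos (by
        rw [hJ]; exact le_trans hji.2 (Nat.self_le_factorial L)) hji.1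
      have h2 := mu_sum hadd (range (J / j i)) ⟨0, Finset.mem_range.2 hpos⟩
        (fun l => TT q ((A : ℤ) * Xf x * j i) ^ l) (fun l _ => by
          have h3 : TT q ((A : ℤ) * Xf x * j i) ^ l = TT q (l * ((A : ℤ) * Xf x * j i)) :=
            LaurentPolynomial.T_pow _ _
          rw [h3]
          exact mu_T hT ⟨l * (Xf x * j i), by ring⟩)
      rwa [Finset.card_range] at h2
    have h2 := h1 _ _ s3
    have h3 : (∏ i : Fin d, (J / j i)) ≤ J ^ d := by
      calc (∏ i : Fin d, (J / j i)) ≤ ∏ _i : Fin d, J :=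
            Finset.prod_le_prod' fun i _ => Nat.div_le_self _ _
        _ = J ^ d := by simp
    have h4 := hmono _ _ _ (Nat.mul_le_mul_right (2 ^ d * 2 ^ d) h3) h2
    rw [mul_left_comm, ← Finset.prod_mul_distrib] at h4
    refine (congrArg (fun g => H (TT q (x 0) * g) (J ^ d * (2 ^ d * 2 ^ d))) ?_).mp h4
    have h5 : ∀ i : Fin d, (∑ l ∈ range (J / j i), TT q ((A : ℤ) * Xf x * j i) ^ l) *
        (1 - TT q ((A : ℤ) * Xf x * j i)) = 1 - TT q ((A : ℤ) * Xf x * J) := by
      intro i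
      have hji := hj i
      rw [mul_comm, geoq]
      congr 1
      have h6 : TT q ((A : ℤ) * Xf x * j i) ^ (J / j i) =
          TT q (((J / j i : ℕ) : ℤ) * ((A : ℤ) * Xf x * j i)) := LaurentPolynomial.T_pow _ _
      rw [h6]
      congr 1
      have h7 : j i ∣ J := by
        rw [hJ]; exact Nat.dvd_factorial hji.1 hji.2
      have h8 : ((J / j i : ℕ) : ℤ) * j i = J := by exact_mod_cast Nat.div_mul_cancel h7
      rw [← h8]; ring
    rw [Finset.prod_congr rfl fun i _ => h5 i]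
    simp
  -- step 4
  have h1 : Mu H (1 - TT q ((A : ℤ) * Xf x * J)) 2 := by
    intro g a hg
    rw [sub_mul, one_mul, two_mul, sub_eq_add_neg]
    exact hadd _ _ _ _ hg (hneg _ _ (hT _ _ _ ⟨Xf x * J, by ring⟩ hg))
  have h2 := mu_pow h1 (q ^ d - d) _ _ s4
  have hd : q ^ d - d + d = q ^ d := Nat.sub_add_cancel (Nat.lt_pow_self (by omega)).le
  rw [mul_left_comm, ← pow_add, hd, frobq] at h2
  have h3 : TT q ((A : ℤ) * Xf x * J) ^ q ^ d = TT q ((A * Xf x * J * q ^ d : ℕ) : ℤ) := by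
    have h4 : TT q ((A : ℤ) * Xf x * J) ^ q ^ d = TT q (((q ^ d : ℕ) : ℤ) * ((A : ℤ) * Xf x * J)) :=
      LaurentPolynomial.T_pow _ _
    rw [h4]
    congr 1
    push_cast; ring
  rw [h3] at h2
  refine hmono _ _ _ ?_ h2
  exact Nat.mul_le_mul_right _ (Nat.pow_le_pow_right (by norm_num) (Nat.sub_le _ _))

end Pool.Agent.R512.Q
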