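import Pool.Agent.R512.Q.Pol
import Pool.Agent.Y815.EC.Cr

/-!
Library R512.Q (helper512): relations at the vertices of a cube give a relation for `φ` alone, functions with
values in the roots of unity of order `q` (after `Pool.Agent.Y815.EC.Cr`, the case `q = 2`).
-/

set_option autoImplicit false

namespace Pool.Agent.R512.Q

open Finset
open Pool.Agent.Y958.TC (NM ind Bd_ind ind_nonneg m_shift)
open Pool.Agent.Y958.U (ind_at m_ind_mono m_ind_or)
open Pool.Agent.Y815.EC (m_ind_shift m_ind_union norm_prod_sub cj cj_mul cj_sub cj_prod cj_norm tog tog_sum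
  prod_cancel prod_T)

/-- the relation attached to the integer `p`: `φ (n + p x 0) ∏ u i (n + p x (i + 1))` is nearly constant
on `V`, up to an exceptional set of mean `ρ` -/
def RelC (μ : NM) (V : ℕ → Prop) (φ : ℤ → ℂ) {d : ℕ} (u : Fin d → ℤ → ℂ) (x : Fin (d + 1) → ℤ) (θ ρ : ℝ)
    (p : ℤ) : Prop :=
  ∃ σ : ℂ, ‖σ‖ = 1 ∧ μ.m (ind (fun n : ℕ => V n ∧
    θ < ‖φ (n + p * x 0) * ∏ i : Fin d, u i (n + p * x i.succ) - σ‖)) ≤ ρ

lemma pow_sub_le {a b : ℂ} (ha : ‖a‖ ≤ 1) (hb : ‖b‖ ≤ 1) (e : ℕ) : ‖a ^ e - b ^ e‖ ≤ e * ‖a - b‖ := by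
  have h := norm_prod_sub (univ : Finset (Fin e)) (fun _ => a) (fun _ => b) ‖a - b‖ (fun _ => ha)
    (fun _ => hb) (fun _ _ => le_rfl)
  simpa using h

lemma relC_pow (μ : NM) (V : ℕ → Prop) (φ : ℤ → ℂ) (hφ : ∀ n, ‖φ n‖ = 1) {d : ℕ} (u : Fin d → ℤ → ℂ)
    (hu : ∀ i n, ‖u i n‖ = 1)
    (x : Fin (d + 1) → ℤ) (θ ρ : ℝ) (p : ℤ) (e : ℕ)
    (h : RelC μ V φ u x θ ρ p) : RelC μ V (fun n => φ n ^ e) (fun i n => u i n ^ e) x (e * θ) ρ p := by
  obtain ⟨σ, hσ, h1⟩ := h
  refine ⟨σ ^ e, by rw [norm_pow, hσ, one_pow], le_trans (m_ind_mono μ ?_) h1⟩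
  rintro n ⟨hV, hn⟩
  refine ⟨hV, ?_⟩
  by_contra hcon
  push Not at hcon
  apply absurd hn
  push Not
  have e1 : φ (n + p * x 0) ^ e * ∏ i : Fin d, u i (n + p * x i.succ) ^ e =
      (φ (n + p * x 0) * ∏ i : Fin d, u i (n + p * x i.succ)) ^ e := by
    rw [mul_pow, prod_pow]
  rw [e1]
  refine (pow_sub_le ?_ hσ.le e).trans (mul_le_mul_of_nonneg_left hcon (Nat.cast_nonneg _))
  rw [norm_mul, hφ, one_mul, norm_prod]
  exact prod_le_one (fun i _ => norm_nonneg _) fun i _ => (hu i _).le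

/-- distinct roots of unity are separated -/
lemma sep (q : ℕ) (hq : q ≠ 0) : ∃ γ : ℝ, 0 < γ ∧ γ ≤ 1 ∧ ∀ z w : ℂ, z ^ q = 1 → w ^ q = 1 →
    ‖z - w‖ < γ → z = w := by
  classical
  set S : Finset ℂ := Polynomial.nthRootsFinset q (1 : ℂ) with hS
  have hmem : ∀ z : ℂ, z ^ q = 1 → z ∈ S := fun z hz =>
    (Polynomial.mem_nthRootsFinset (Nat.pos_of_ne_zero hq) (1 : ℂ)).2 hz
  set D : Finset (ℂ × ℂ) := (S ×ˢ S).filter (fun p => p.1 ≠ p.2) with hD
  by_cases hne : D.Nonempty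
  · obtain ⟨p0, hp0, hmin⟩ := D.exists_min_image (fun p => ‖p.1 - p.2‖) hne
    rw [hD, mem_filter] at hp0
    have hpos : 0 < ‖p0.1 - p0.2‖ := norm_pos_iff.2 (sub_ne_zero.2 hp0.2)
    refine ⟨min ‖p0.1 - p0.2‖ 1, lt_min hpos one_pos, min_le_right _ _, fun z w hz hw hzw => ?_⟩
    by_contra hcon
    have h1 := hmin (z, w) (by
      rw [hD, mem_filter, mem_product]
      exact ⟨⟨hmem z hz, hmem w hw⟩, hcon⟩)
    exact absurd (lt_of_lt_of_le hzw (min_le_left _ _)) (not_lt.2 h1)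
  · refine ⟨1, one_pos, le_rfl, fun z w hz hw _ => ?_⟩
    by_contra hcon
    apply hne
    exact ⟨(z, w), by
      rw [hD, mem_filter, mem_product]
      exact ⟨⟨hmem z hz, hmem w hw⟩, hcon⟩⟩

lemma prod_Tq {q : ℕ} {ι : Type} [DecidableEq ι] (s : Finset ι) (f : ι → ℤ) :
    ∏ i ∈ s, TT q (f i) = TT q (∑ i ∈ s, f i) := by
  induction s using Finset.induction_on with
  | empty =>
    rw [Finset.prod_empty, Finset.sum_empty]
    exact LaurentPolynomial.T_zero.symm
  | insert a s ha ih =>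
    rw [Finset.prod_insert ha, Finset.sum_insert ha, ih]
    exact (LaurentPolynomial.T_add _ _).symm

/-- expansion of the Laurent polynomial of a cube -/
lemma expandq {q d : ℕ} (y : ℤ) (f : Fin d → ℤ) :
    TT q y * ∏ i, (1 - TT q (f i)) =
      ∑ η : Finset (Fin d), (-1) ^ η.card * TT q (y + ∑ i ∈ η, f i) := by
  have h : ∀ i, (1 : LP q) - TT q (f i) = 1 + (-TT q (f i)) := fun i => sub_eq_add_neg _ _
  rw [Finset.prod_congr rfl fun i _ => h i, Finset.prod_one_add, Finset.mul_sum, Finset.powerset_univ]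
  apply Finset.sum_congr rfl
  intro η _
  rw [Finset.prod_neg, prod_Tq]
  have h1 : TT q (y + ∑ i ∈ η, f i) = TT q y * TT q (∑ i ∈ η, f i) := LaurentPolynomial.T_add _ _
  rw [h1]
  ring

section
variable {q : ℕ} [hq : Fact q.Prime] {φ : ℤ → ℂ} (hφ : RU q φ)

include hφ in
lemma Ph_term {d : ℕ} (η : Finset (Fin d)) (y n : ℤ) :
    Ph φ ((-1) ^ η.card * TT q y) n = cj η (φ (n + y)) := by
  unfold cj
  split_ifs with h
  · rw [h.neg_one_pow, one_mul]
    exact Ph_single y n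
  · rw [(Nat.not_even_iff_odd.1 h).neg_one_pow, neg_one_mul, Ph_neg hφ, ← ru_conj hq.out.ne_zero (hφ _)]
    congr 1
    exact Ph_single y n

include hφ in
lemma Ph_csum {d : ℕ} (S : Finset (Finset (Fin d))) (y : Finset (Fin d) → ℤ) (n : ℤ) :
    Ph φ (∑ η ∈ S, (-1) ^ η.card * TT q (y η)) n = ∏ η ∈ S, cj η (φ (n + y η)) := by
  classical
  induction S using Finset.induction_on with
  | empty =>
    rw [Finset.sum_empty, Finset.prod_empty]
    exact Ph_zero n
  | insert a S ha ih =>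
    rw [Finset.sum_insert ha, Finset.prod_insert ha, Ph_add hφ, Ph_term hφ, ih]

end

/-- the relations at the vertices of a cube give a relation for `φ` alone -/
theorem crC (q : ℕ) [hq : Fact q.Prime] (γ : ℝ) (hγ : ∀ z w : ℂ, z ^ q = 1 → w ^ q = 1 → ‖z - w‖ < γ → z = w)
    (μ : NM) (V : ℕ → Prop) (A : ℕ) (hV : ∀ n, V (n + A) ↔ V n)
    (φ : ℤ → ℂ) (hφ : RU q φ) (d : ℕ) (u : Fin d → ℤ → ℂ) (hu : ∀ i n, ‖u i n‖ = 1)
    (x : Fin (d + 1) → ℤ) (θ ρ : ℝ) (hθ1 : 2 * (2 ^ d * θ) < γ) (ν : ℤ) (r : Fin d → ℤ)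
    (hrel : ∀ η : Finset (Fin d), RelC μ V φ u x θ ρ (1 + A * (ν + ∑ i ∈ η, r i))) :
    HH μ φ V ρ (TT q ((1 + A * ν) * x 0) *
      ∏ i, (1 - TT q ((A : ℤ) * (r i * (x 0 - x i.succ))))) (2 ^ d) := by
  classical
  have hφ1 : ∀ n, ‖φ n‖ = 1 := fun n => ru_norm hq.out.ne_zero (hφ n)
  -- data
  set p : Finset (Fin d) → ℤ := fun η => 1 + A * (ν + ∑ i ∈ η, r i) with hp
  set t : Finset (Fin d) → ℤ := fun η => -(A * ∑ i ∈ η, r i * x i.succ) with ht
  set y : Finset (Fin d) → ℤ := fun η => (1 + A * ν) * x 0 + ∑ i ∈ η, (A : ℤ) * (r i * (x 0 - x i.succ)) with hy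
  choose σ hσ hm using hrel
  rw [expandq]
  set Sg : ℂ := ∏ η : Finset (Fin d), cj η (σ η) with hSg
  have hSgn : ‖Sg‖ = 1 := by
    rw [hSg, norm_prod]
    apply Finset.prod_eq_one
    intro η _
    rw [cj_norm, hσ]
  -- the translated exceptional sets
  set F : Finset (Fin d) → ℤ → Prop := fun η n =>
    θ < ‖φ (n + p η * x 0) * ∏ i : Fin d, u i (n + p η * x i.succ) - σ η‖ with hF
  have hbad : ∀ η, μ.m (ind (fun n : ℕ => V n ∧ F η (n + t η))) ≤ ρ := by
    intro η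
    rw [m_ind_shift μ V A hV (F η) (t η) (by
      rw [ht]
      exact (dvd_neg).2 (Dvd.intro _ rfl))]
    exact hm η
  have hun := m_ind_union μ (fun η (n : ℕ) => V n ∧ F η (n + t η)) ρ hbad Finset.univ
  have hcard : ((Finset.univ : Finset (Finset (Fin d))).card : ℝ) = ((2 ^ d : ℕ) : ℝ) := by
    rw [Finset.card_univ, Fintype.card_finset, Fintype.card_fin]
  rw [hcard] at hun
  -- the key computation
  have hW : ∀ n : ℤ, (∀ η, ¬ F η (n + t η)) →
      ‖∏ η : Finset (Fin d), cj η (φ (n + y η)) - Sg‖ ≤ 2 ^ d * θ := by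
    intro n hn
    set z : Finset (Fin d) → ℂ := fun η =>
      φ (n + t η + p η * x 0) * ∏ i : Fin d, u i (n + t η + p η * x i.succ) with hz
    have hz1 : ∀ η, ‖z η‖ ≤ 1 := by
      intro η
      rw [hz]
      simp only
      rw [norm_mul, norm_prod]
      have h2 : ∏ i : Fin d, ‖u i (n + t η + p η * x i.succ)‖ = 1 :=
        Finset.prod_eq_one fun i _ => hu i _
      rw [h2, mul_one]
      exact (hφ1 _).le
    have h1 : ‖∏ η : Finset (Fin d), cj η (z η) - Sg‖ ≤ 2 ^ d * θ := by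
      rw [hSg]
      have := norm_prod_sub (Finset.univ : Finset (Finset (Fin d))) (fun η => cj η (z η))
        (fun η => cj η (σ η)) θ (fun η => by rw [cj_norm]; exact hz1 η)
        (fun η => by rw [cj_norm, hσ]) (fun η _ => by
          rw [← cj_sub, cj_norm]
          exact not_lt.1 (hn η))
      rw [hcard] at this
      push_cast at this
      exact this
    have h2 : ∏ η : Finset (Fin d), cj η (z η) = ∏ η : Finset (Fin d), cj η (φ (n + y η)) := by
      rw [hz]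
      simp only [cj_mul, cj_prod]
      rw [Finset.prod_mul_distrib, Finset.prod_comm]
      have h3 : ∀ l : Fin d, ∏ η : Finset (Fin d), cj η (u l (n + t η + p η * x l.succ)) = 1 := by
        intro l
        apply prod_cancel l (fun η => u l (n + t η + p η * x l.succ)) (fun η => hu l _)
        intro η
        have h4 : ∀ η, n + t η + p η * x l.succ = n + (1 + A * ν) * x l.succ +
            A * ∑ i ∈ η, r i * (x l.succ - x i.succ) := by
          intro η
          rw [ht, hp]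
          simp only
          have h5 : ∑ i ∈ η, r i * (x l.succ - x i.succ) =
              (∑ i ∈ η, r i) * x l.succ - ∑ i ∈ η, r i * x i.succ := by
            rw [Finset.sum_mul, ← Finset.sum_sub_distrib]
            exact Finset.sum_congr rfl fun i _ => by ring
          rw [h5]
          ring
        show u l (n + t (tog l η) + p (tog l η) * x l.succ) = u l (n + t η + p η * x l.succ)
        rw [h4, h4, tog_sum l η (fun i => r i * (x l.succ - x i.succ)) (by simp)]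
      rw [Finset.prod_eq_one fun l _ => h3 l, mul_one]
      apply Finset.prod_congr rfl
      intro η _
      congr 2
      rw [ht, hp, hy]
      simp only
      have h5 : ∑ i ∈ η, (A : ℤ) * (r i * (x 0 - x i.succ)) =
          A * ((∑ i ∈ η, r i) * x 0 - ∑ i ∈ η, r i * x i.succ) := by
        rw [Finset.sum_mul, ← Finset.sum_sub_distrib, Finset.mul_sum]
        exact Finset.sum_congr rfl fun i _ => by ring
      rw [h5]
      ring
    rw [← h2]
    exact h1
  have hPh : ∀ n : ℤ, Ph φ (∑ η : Finset (Fin d), (-1) ^ η.card * TT q (y η)) n =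
      ∏ η : Finset (Fin d), cj η (φ (n + y η)) := fun n => Ph_csum hφ _ y n
  -- the constant
  obtain ⟨s, hs, hsn⟩ : ∃ s : ℂ, s ^ q = 1 ∧ ∀ n : ℤ, (∀ η, ¬ F η (n + t η)) →
      Ph φ (∑ η : Finset (Fin d), (-1) ^ η.card * TT q (y η)) n = s := by
    by_cases hc : ∃ n : ℤ, ∀ η, ¬ F η (n + t η)
    · obtain ⟨n₀, hn₀⟩ := hc
      refine ⟨Ph φ (∑ η : Finset (Fin d), (-1) ^ η.card * TT q (y η)) n₀, Ph_pow hφ _ _, fun n hn => ?_⟩
      apply hγ _ _ (Ph_pow hφ _ _) (Ph_pow hφ _ _)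
      have h1 := hW n hn
      have h2 := hW n₀ hn₀
      rw [← hPh] at h1 h2
      have h3 := norm_sub_le_norm_sub_add_norm_sub
        (Ph φ (∑ η : Finset (Fin d), (-1) ^ η.card * TT q (y η)) n) Sg
        (Ph φ (∑ η : Finset (Fin d), (-1) ^ η.card * TT q (y η)) n₀)
      rw [norm_sub_rev Sg] at h3
      linarith
    · exact ⟨1, one_pow _, fun n hn => absurd ⟨n, hn⟩ hc⟩
  refine ⟨s, hs, le_trans (m_ind_mono μ ?_) hun⟩
  rintro n ⟨hVn, hne⟩
  by_contra hcon
  push Not at hcon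
  have hgood : ∀ η, ¬ F η ((n : ℤ) + t η) := fun η hFη => by
    exact absurd hFη (hcon η (Finset.mem_univ _) hVn)
  exact hne (hsn n hgood)

end Pool.Agent.R512.Q
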