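import Pool.Agent.R512.Q.Inst2
import Pool.Agent.R512.G.Fin

/-!
Library R512.Q (helper512): final statement for main factors near completely multiplicative functions with values in
the roots of unity of order `M`, one gap for each `M`.
-/

set_option autoImplicit false

namespace Pool.Agent.R512.Q

open Finset Filter Topology
open Pool.Agent.Y872.L (CM NonPret cm_abs)
open Pool.Agent.Y958.U
open Pool.Agent.Y958.E
open ArithmeticFunction (cardFactors)

/-- some power of `f` is `w ^ Ω`, `w ≠ 1`, or real and near no real character -/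
def PowAp (f : ℕ → ℂ) : Prop := ∃ r : ℕ, (∃ w : ℂ, w ≠ 1 ∧ ∀ p : ℕ, p.Prime → f p ^ r = w) ∨
  ((∀ n : ℕ, n ≠ 0 → (f n ^ r) ^ 2 = 1) ∧ ∀ (Q : ℕ) (χ : DirichletCharacter ℂ Q), 1 ≤ Q → χ ^ 2 = 1 →
    ¬ Summable (fun p : Nat.Primes => (1 - (f p ^ r * χ ((p : ℕ) : ZMod Q)).re) / ((p : ℕ) : ℝ)))

/-- the admissible functions -/
def RAdm (M : ℕ) (f : ℕ → ℂ) : Prop := (∀ n, n ≠ 0 → f n ^ M = 1) ∧
  (∀ a b, a ≠ 0 → b ≠ 0 → f (a * b) = f a * f b) ∧ PowAp f

lemma exists_lb {ι : Type} (S : Finset ι) (u : ι → ℝ) (hu : ∀ i, 0 < u i) :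
    ∃ c : ℝ, 0 < c ∧ c < 1 ∧ ∀ i ∈ S, c ≤ u i := by
  classical
  induction S using Finset.induction_on with
  | empty => exact ⟨1 / 2, by norm_num, by norm_num, fun i hi => absurd hi (notMem_empty i)⟩
  | insert a S _ ih =>
    obtain ⟨c, h0, h1, h2⟩ := ih
    refine ⟨min c (u a), lt_min h0 (hu a), (min_le_left _ _).trans_lt h1, fun i hi => ?_⟩
    rcases mem_insert.1 hi with rfl | hi
    · exact min_le_right _ _
    · exact (min_le_left _ _).trans (h2 i hi)

lemma root_kind {M : ℕ} (hM : 1 ≤ M) {f : ℕ → ℂ} (h : RAdm M f) : ∃ r q : ℕ, 1 ≤ r ∧ r ≤ M ∧ q ≤ M + 2 ∧ q.Prime ∧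
    ∃ f' : ℕ → ℂ, (∀ n, n ≠ 0 → f n = f' n) ∧ Kind r q f' := by
  obtain ⟨hpow, hmul, r₀, hr⟩ := h
  set f' : ℕ → ℂ := fun n => if n = 0 then 1 else f n with hf'
  have hff' : ∀ n, n ≠ 0 → f n = f' n := by
    intro n hn
    simp only [hf']
    rw [if_neg hn]
  have hf'0 : f' 0 = 1 := by
    simp only [hf']
    rw [if_pos trivial]
  have hmul' : ∀ a b, a ≠ 0 → b ≠ 0 → f' (a * b) = f' a * f' b := by
    intro a b ha hb
    rw [← hff' _ (Nat.mul_ne_zero ha hb), ← hff' a ha, ← hff' b hb, hmul a b ha hb]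
  have hM' : CR M f' := by
    refine ⟨fun n => ?_, hmul'⟩
    by_cases hn : n = 0
    · rw [hn, hf'0, one_pow]
    · rw [← hff' n hn, hpow n hn]
  have hf1 : f' 1 = 1 := by
    have h1 := hmul' 1 1 one_ne_zero one_ne_zero
    rw [one_mul] at h1
    have h2 : f' 1 ≠ 0 := ru_ne (by omega) (hM'.pow 1)
    have h3 : f' 1 * (f' 1 - 1) = 0 := by linear_combination -h1
    rcases mul_eq_zero.1 h3 with h | h
    · exact absurd h h2
    · exact sub_eq_zero.1 h
  -- reduction of the exponent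
  have hred : ∀ (e n : ℕ), f' n ^ (e % M) = f' n ^ e := by
    intro e n
    conv_rhs => rw [← Nat.div_add_mod e M, pow_add, pow_mul, hM'.pow, one_pow, one_mul]
  rcases hr with ⟨w, hw1, hw⟩ | ⟨hreal, hNP⟩
  · have hwM : w ^ M = 1 := by
      rw [← hw 2 Nat.prime_two, ← pow_mul, mul_comm, pow_mul, hpow 2 two_ne_zero, one_pow]
    set d : ℕ := orderOf w with hd
    have hdM : d ∣ M := orderOf_dvd_of_pow_eq_one hwM
    have hd0 : 0 < d := Nat.pos_of_dvd_of_pos hdM (by omega)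
    have hd1 : d ≠ 1 := fun h => hw1 (orderOf_eq_one_iff.1 h)
    set q : ℕ := d.minFac with hq
    have hqp : q.Prime := Nat.minFac_prime hd1
    have hqd : q ∣ d := Nat.minFac_dvd d
    have hqM : q ≤ M := (Nat.le_of_dvd hd0 hqd).trans (Nat.le_of_dvd (by omega) hdM)
    set w' : ℂ := w ^ (d / q) with hw'
    have hw'q : w' ^ q = 1 := by
      rw [hw', ← pow_mul, Nat.div_mul_cancel hqd, hd, pow_orderOf_eq_one]
    have hw'1 : w' ≠ 1 := by
      intro h
      have h1 := orderOf_dvd_of_pow_eq_one (hw'.symm.trans h)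
      rw [← hd] at h1
      have h2 : d / q < d := Nat.div_lt_self hd0 hqp.one_lt
      have h3 : 0 < d / q := Nat.div_pos (Nat.le_of_dvd hd0 hqd) hqp.pos
      exact absurd (Nat.le_of_dvd h3 h1) (by omega)
    set r : ℕ := (r₀ * (d / q)) % M with hr
    have hfr : ∀ p : ℕ, p.Prime → f' p ^ r = w' := by
      intro p hp
      rw [hr, hred, pow_mul, ← hff' p hp.ne_zero, hw p hp]
    have hr0 : 1 ≤ r := by
      by_contra hcon
      have hr0 : r = 0 := by omega
      have := hfr 2 Nat.prime_two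
      rw [hr0, pow_zero] at this
      exact hw'1 this.symm
    have hΩ := cr_Om (by omega) hM' hfr
    refine ⟨r, q, hr0, (Nat.mod_lt _ (by omega)).le, by omega, hqp, f', hff', ⟨fun n => ?_, hmul'⟩,
      Or.inl ⟨w', hw'q, hw'1, hfr⟩⟩
    by_cases hn : n = 0
    · rw [hn, hf'0, one_pow]
    · rw [pow_mul, hΩ n hn, ← pow_mul, mul_comm, pow_mul, hw'q, one_pow]
  · set r : ℕ := r₀ % M with hr
    have hr0 : 1 ≤ r := by
      by_contra hcon
      have hr0 : r = 0 := by omega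
      have h1 : ∀ p : Nat.Primes, f p ^ r₀ = 1 := by
        intro p
        rw [hff' p p.2.ne_zero, ← hred, ← hr, hr0, pow_zero]
      apply hNP 1 1 le_rfl (one_pow _)
      refine (summable_zero).congr fun p => ?_
      rw [h1 p, MulChar.one_apply (isUnit_of_subsingleton _)]
      simp
    set s : ℕ → ℤ := fun n => if n = 0 then 0 else if f' n ^ r = 1 then 1 else -1 with hs
    have hsv : ∀ n, n ≠ 0 → f' n ^ r = ((s n : ℤ) : ℂ) := by
      intro n hn
      simp only [hs]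
      rw [if_neg hn]
      split_ifs with h1
      · rw [h1, Int.cast_one]
      · have h2 := hreal n hn
        rw [hff' n hn, ← hred, ← hr] at h2
        have h3 : (f' n ^ r - 1) * (f' n ^ r + 1) = 0 := by linear_combination h2
        rcases mul_eq_zero.1 h3 with h | h
        · exact absurd (sub_eq_zero.1 h) h1
        · rw [eq_neg_of_add_eq_zero_left h, Int.cast_neg, Int.cast_one]
    have hs0 : s 0 = 0 := by
      simp only [hs]
      rw [if_pos trivial]
    have hsval : ∀ n : ℕ, 0 < n → s n = 1 ∨ s n = -1 := by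
      intro n hn
      simp only [hs]
      rw [if_neg (by omega)]
      split_ifs <;> simp
    have hCM : CM s := by
      refine ⟨hs0, ?_, fun a b => ?_, hsval⟩
      · simp only [hs]
        rw [if_neg one_ne_zero, hf1, one_pow, if_pos rfl]
      · by_cases ha : a = 0
        · rw [ha, zero_mul, hs0, zero_mul]
        by_cases hb : b = 0
        · rw [hb, mul_zero, hs0, mul_zero]
        have h1 := hsv (a * b) (Nat.mul_ne_zero ha hb)
        rw [hmul' a b ha hb, mul_pow, hsv a ha, hsv b hb] at h1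
        exact_mod_cast h1.symm
    refine ⟨r, 2, hr0, (Nat.mod_lt _ (by omega)).le, by omega, Nat.prime_two, f', hff', ⟨fun n => ?_, hmul'⟩,
      Or.inr ⟨s, hCM, Pool.Agent.R512.G.nonPret_of hCM ?_, hsv⟩⟩
    · by_cases hn : n = 0
      · rw [hn, hf'0, one_pow]
      · rw [pow_mul, hsv n hn]
        rcases hsval n (by omega) with h | h <;> rw [h] <;> norm_num
    · intro Q χ hQ hχ hsum
      apply hNP Q χ hQ hχ
      refine hsum.congr fun p => ?_
      congr 2
      rw [hff' p p.2.ne_zero, ← hred, ← hr, hsv p p.2.ne_zero]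
      show ((s p : ℤ) : ℝ) * _ = _
      have h1 : (((s p : ℤ) : ℂ)) = (((s p : ℤ) : ℝ) : ℂ) := by push_cast; rfl
      rw [h1, Complex.re_ofReal_mul]

/-- **final statement**: main factor near a completely multiplicative function with values in the roots of unity of
order `M`, one of whose powers is `w ^ Ω` or real and aperiodic -/
theorem finA : ∃ c : ℕ → ℕ → ℝ, (∀ M k, 0 < c M k) ∧ (∀ M k, c M k < 1) ∧
    ∀ (M : ℕ), 1 ≤ M → ∀ (k : ℕ) (a b : Fin k → ℕ), (∀ i, 1 ≤ a i) →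
    (∀ i j, i ≠ j → a i * b j ≠ a j * b i) → ∀ (j : Fin k) (g : Fin k → ℕ → ℂ), (∀ i, i ≠ j → OM (g i)) →
    BM (g j) → ∀ f : ℕ → ℂ, RAdm M f → PretC f (g j) →
    ∃ 𝓔 : Set ℕ, LZ 𝓔 ∧ ∀ ε : ℝ, 0 < ε → ∃ N₀ : ℕ, ∀ N : ℕ, N₀ ≤ N →
      (N ∉ 𝓔 → ‖∑ n ∈ Icc 1 N, ∏ i, g i (a i * n + b i)‖ ≤
        (1 - c M k) * ∑ n ∈ Icc 1 N, ‖g j (a j * n + b j)‖ + ε * N) ∧
      ‖∑ n ∈ Icc 1 N, (∏ i, g i (a i * n + b i)) / n‖ ≤
        (1 - c M k) * ∑ n ∈ Icc 1 N, ‖g j (a j * n + b j)‖ / n + ε * Real.log N := by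
  classical
  choose c₀ hc0 _ hB using fun (r q : ℕ) (hr : 1 ≤ r) (hq : q.Prime) => finB r q hr hq
  have hex : ∀ M k : ℕ, ∃ c : ℝ, 0 < c ∧ c < 1 ∧ ∀ x ∈ range (M + 1) ×ˢ range (M + 3),
      c ≤ if h : 1 ≤ x.1 ∧ x.2.Prime then c₀ x.1 x.2 h.1 h.2 k else 1 := by
    intro M k
    apply exists_lb
    intro x
    split_ifs with h
    · exact hc0 _ _ _ _ k
    · exact one_pos
  choose c hcp hc1 hcle using hex
  refine ⟨c, hcp, hc1, fun M hM k a b ha hab j g hg hgj f hf hP => ?_⟩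
  obtain ⟨r, q, hr, hrM, hqM, hq, f', hff', hK⟩ := root_kind hM hf
  have h1 := hcle M k (r, q) (mem_product.2 ⟨mem_range.2 (by omega), mem_range.2 (by omega)⟩)
  rw [dif_pos (show 1 ≤ (r, q).1 ∧ (r, q).2.Prime from ⟨hr, hq⟩)] at h1
  have h1 : c M k ≤ c₀ r q hr hq k := h1
  obtain ⟨𝓔, h𝓔, h2⟩ := hB r q hr hq k a b ha hab j g hg hgj f' hK (PretC_congr hff' hP)
  refine ⟨𝓔, h𝓔, fun ε hε => ?_⟩
  obtain ⟨N₀, hN₀⟩ := h2 ε hε
  refine ⟨N₀, fun N hN => ⟨fun hNE => ?_, ?_⟩⟩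
  · refine ((hN₀ N hN).1 hNE).trans (add_le_add ?_ le_rfl)
    exact mul_le_mul_of_nonneg_right (by linarith) (sum_nonneg fun n _ => norm_nonneg _)
  · refine (hN₀ N hN).2.trans (add_le_add ?_ le_rfl)
    exact mul_le_mul_of_nonneg_right (by linarith) (sum_nonneg fun n _ => by positivity)

end Pool.Agent.R512.Q
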