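import Pool.Agent.R512.Q.Rigid
import Pool.Agent.Y958.E.Final

/-!
Library R512.Q (helper512): rigidity, averages and logarithmic averages.
-/

set_option autoImplicit false

namespace Pool.Agent.R512.Q

open Finset Filter Topology
open Pool.Agent.Y958.U
open Pool.Agent.Y958.E
open Pool.Agent.Y842.QY (mB mB_le)
open ArithmeticFunction (cardFactors)

lemma OM_congr {g g' : ℕ → ℂ} (y : ℕ) (B : ℕ → Multiset ℕ → ℂ) (u : ℕ → ℂ) (hB : ∀ s t, ‖B s t‖ ≤ 1)
    (hu : ∀ n, 1 ≤ n → ‖u n‖ ≤ 1) (hum : ∀ m n : ℕ, 1 ≤ m → 1 ≤ n → Nat.Coprime m n → u (m * n) = u m * u n)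
    (hg' : g' = fun n => if n = 0 then 0 else g n) (hg : ∀ n, 1 ≤ n → g n = B (sm y n) (sig n) * u n) : OM g' := by
  have h1 := sig_OM y B hB (fun n => if n = 0 then 0 else u n) ⟨fun n => by
    show ‖(if n = 0 then (0:ℂ) else u n)‖ ≤ 1
    split_ifs with h
    · simp
    · exact hu n (by omega), fun m n hm hn hmn => by
    show (if m * n = 0 then (0:ℂ) else u (m * n)) = (if m = 0 then 0 else u m) * (if n = 0 then 0 else u n)
    have em : ¬ m = 0 := by omega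
    have en : ¬ n = 0 := by omega
    rw [if_neg (Nat.mul_ne_zero em en), if_neg em, if_neg en]
    exact hum m n hm hn hmn⟩
  refine (congrArg OM ?_).mpr h1
  rw [hg']
  funext n
  by_cases hn : n = 0
  · simp [hn]
  · rw [if_neg hn, if_neg hn]
    exact hg n (by omega)

/-- **rigidity**, averages and logarithmic averages -/
theorem finE (k m : ℕ) (hm : 1 ≤ m) (δ : ℝ) (hδ : 0 < δ) : ∃ c : ℝ, 0 < c ∧ c < 1 ∧
    ∀ (h : Fin k → ℕ), Function.Injective h → ∀ (j : Fin k) (β : ℕ → ℂ), (∀ l, β l ^ m = 1) →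
    ∀ g : Fin k → ℕ → ℂ, (∀ i, i ≠ j → OM (fun n => if n = 0 then 0 else g i n)) →
    (∃ 𝓔 : Set ℕ, LZ 𝓔 ∧ ∀ N : ℕ, N ∉ 𝓔 → ‖mB β N‖ ≤ 1 - δ →
      ‖(∑ n ∈ Icc 1 N, β (cardFactors (n + h j)) * ∏ i ∈ univ.erase j, g i (n + h i)) / (N : ℂ)‖ ≤ 1 - c) ∧
    (LZ {N | 1 - δ < ‖mB β N‖} → ∃ N₀ : ℕ, ∀ N : ℕ, N₀ ≤ N →
      ‖(∑ n ∈ Icc 1 N, (β (cardFactors (n + h j)) * ∏ i ∈ univ.erase j, g i (n + h i)) / (n : ℂ)) /
        (Real.log N : ℂ)‖ ≤ 1 - c) := by
  classical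
  obtain ⟨c₀, hc0, hc1, hR⟩ := rigid k m hm (min δ 1) (lt_min hδ one_pos) (min_le_right _ _)
  refine ⟨c₀ / 2, by positivity, by linarith, fun h hh j β hβ g hg => ?_⟩
  have hβ1 : ∀ l, ‖β l‖ = 1 := fun l => ru_norm (by omega) (hβ l)
  set g' : Fin k → ℕ → ℂ := fun i => if i = j then fun n => β (cardFactors n) else
    fun n => if n = 0 then 0 else g i n with hg'
  have hg'j : ∀ n, g' j n = β (cardFactors n) := fun n => by
    simp only [hg']
    rw [if_pos trivial]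
  have hg'O : ∀ i, i ≠ j → OM (g' i) := fun i hi => by
    simp only [hg']
    rw [if_neg hi]
    exact hg i hi
  have h1 := hR h hh j g' hg'O β hβ hg'j
  have hprod : ∀ n : ℕ, 1 ≤ n → ∏ i, g' i (n + h i) =
      β (cardFactors (n + h j)) * ∏ i ∈ univ.erase j, g i (n + h i) := by
    intro n hn
    rw [← mul_prod_erase univ (fun i => g' i (n + h i)) (mem_univ j), hg'j]
    congr 1
    refine prod_congr rfl fun i hi => ?_
    simp only [hg']
    rw [if_neg (ne_of_mem_erase hi), if_neg (by omega)]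
  have hgn : ∀ i n, ‖g' i n‖ ≤ 1 := by
    intro i n
    by_cases hij : i = j
    · rw [hij, hg'j]
      exact (hβ1 _).le
    · exact OM_norm (hg'O i hij) n
  have hmin : 1 - δ ≤ 1 - min δ 1 := by
    have := min_le_left δ 1
    linarith
  constructor
  · refine ⟨_, h1, fun N hN hm => ?_⟩
    rcases Nat.eq_zero_or_pos N with hN0 | hN0
    · rw [hN0]
      simp
      linarith
    have hN0' : (0 : ℝ) < N := by exact_mod_cast hN0
    have h2 : ¬ ((1 - c₀) * N < ‖∑ n ∈ Icc 1 N, ∏ i, g' i (n + h i)‖) := fun h => hN ⟨hm.trans hmin, h⟩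
    rw [sum_congr rfl fun n hn => hprod n (mem_Icc.1 hn).1] at h2
    push Not at h2
    rw [norm_div, Complex.norm_natCast, div_le_iff₀ hN0']
    nlinarith
  · intro hLZ
    have h2 : LZ {N : ℕ | (1 - c₀) * ∑ n ∈ Icc 1 N, (1 : ℝ) + (c₀ / 16) * N <
        ‖∑ n ∈ Icc 1 N, Cs (fun _ => 1) h g' n‖} := by
      refine LZ_sub ?_ (LZ_union hLZ h1)
      intro N hN
      by_cases hNm : ‖mB β N‖ ≤ 1 - δ
      · right
        refine ⟨hNm.trans hmin, ?_⟩
        have hN : (1 - c₀) * ∑ n ∈ Icc 1 N, (1 : ℝ) + (c₀ / 16) * N <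
          ‖∑ n ∈ Icc 1 N, Cs (fun _ => 1) h g' n‖ := hN
        have e1 : ∑ n ∈ Icc 1 N, Cs (fun _ => 1) h g' n = ∑ n ∈ Icc 1 N, ∏ i, g' i (n + h i) := by
          refine sum_congr rfl fun n _ => ?_
          unfold Cs
          simp only [one_mul]
        rw [e1, sum_const, Nat.card_Icc, Nat.add_sub_cancel, nsmul_eq_mul, mul_one] at hN
        have h3 : 0 ≤ (c₀ / 16) * (N : ℝ) := by positivity
        linarith
      · left
        exact not_le.1 hNm
    have hCs1 : ∀ n, ‖Cs (fun _ => 1) h g' n‖ ≤ 1 := by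
      intro n
      unfold Cs
      rw [norm_prod]
      exact prod_le_one (fun _ _ => norm_nonneg _) fun i _ => hgn i _
    obtain ⟨X₀, hX₀⟩ := logC (Cs (fun _ => 1) h g') (fun _ => 1) hCs1 (fun _ => zero_le_one) c₀ (c₀ / 16) hc1
      (by positivity) h2
    obtain ⟨X₁, hX₁⟩ := eventually_atTop.1 ((tendsto_atTop.1
      (Real.tendsto_log_atTop.comp tendsto_natCast_atTop_atTop)) (4 / c₀ + 1))
    refine ⟨X₀ + X₁ + 1, fun N hN => ?_⟩
    have hlog : 4 / c₀ + 1 ≤ Real.log N := hX₁ N (by omega)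
    have hlog0 : 0 < Real.log N := by
      have : 0 < 4 / c₀ := by positivity
      linarith
    have h3 := hX₀ N (by omega)
    have e1 : ∑ n ∈ Icc 1 N, Cs (fun _ => 1) h g' n / (n : ℂ) = ∑ n ∈ Icc 1 N,
        (β (cardFactors (n + h j)) * ∏ i ∈ univ.erase j, g i (n + h i)) / (n : ℂ) := by
      refine sum_congr rfl fun n hn => ?_
      rw [← hprod n (mem_Icc.1 hn).1]
      unfold Cs
      simp only [one_mul]
    rw [e1] at h3
    have h8 := harmonic_le_one_add_log N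
    have h9 : ∑ i ∈ Icc 1 N, (1 : ℝ) / i = ((harmonic N : ℚ) : ℝ) := by
      rw [harmonic_eq_sum_Icc]
      push_cast
      apply sum_congr rfl
      intro i _
      rw [one_div]
    rw [← h9] at h8
    rw [norm_div, Complex.norm_real, Real.norm_eq_abs, abs_of_pos hlog0, div_le_iff₀ hlog0]
    have h10 : (1 - c₀) * ∑ n ∈ Icc 1 N, (1 : ℝ) / n ≤ (1 - c₀) * (1 + Real.log N) :=
      mul_le_mul_of_nonneg_left h8 (by linarith)
    have h11 : 4 / c₀ ≤ Real.log N := by linarith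
    rw [div_le_iff₀ hc0] at h11
    nlinarith

end Pool.Agent.R512.Q
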