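import Pool.Agent.Y958.E.Res

/-!
Library R512.Q (helper512): functions which do not distinguish the large primes, for instance products of
arbitrary functions of the prime signature and of multiplicative functions.
-/

set_option autoImplicit false

namespace Pool.Agent.R512.Q

open Finset
open Pool.Agent.Y958.E (BM nit nit_norm nit_mul bm_tw)
open ArithmeticFunction (cardFactors)

/-- functions `g`, `‖g‖ ≤ ‖h‖`, with dilation relations `g' (p * n) = h p * g n` for all large primes `p` -/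
def OM (g : ℕ → ℂ) : Prop := ∃ (y : ℕ) (g' h : ℕ → ℂ), (∀ n, ‖g n‖ ≤ ‖h n‖) ∧ BM h ∧ (∀ n, ‖g' n‖ ≤ 1) ∧
  ∀ p n : ℕ, p.Prime → y < p → n ≠ 0 → ¬ p ∣ n → g' (p * n) = h p * g n

lemma OM_norm {g : ℕ → ℂ} (h : OM g) (n : ℕ) : ‖g n‖ ≤ 1 := by
  obtain ⟨_, _, h, h1, h2, _⟩ := h
  exact (h1 n).trans (h2.1 n)

lemma BM_OM {g : ℕ → ℂ} (h : BM g) : OM g :=
  ⟨0, g, g, fun _ => le_rfl, h, h.1, fun p n hp _ hn hpn => h.2 p n hp.one_le (Nat.one_le_iff_ne_zero.2 hn)
    ((Nat.Prime.coprime_iff_not_dvd hp).2 hpn)⟩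

lemma OM_tw {g : ℕ → ℂ} (hg : OM g) (t : ℝ) : OM (fun n => g n * (starRingEnd ℂ) (nit t n)) := by
  obtain ⟨y, g', h, h1, h2, h3, h4⟩ := hg
  refine ⟨y, fun n => g' n * (starRingEnd ℂ) (nit t n), fun n => h n * (starRingEnd ℂ) (nit t n), fun n => ?_,
    bm_tw h2 t, fun n => ?_, fun p n hp hy hn hpn => ?_⟩
  · rw [norm_mul, norm_mul, RCLike.norm_conj, nit_norm, mul_one, mul_one]
    exact h1 n
  · rw [norm_mul, RCLike.norm_conj, nit_norm, mul_one]
    exact h3 n
  · show g' (p * n) * (starRingEnd ℂ) (nit t (p * n)) = h p * (starRingEnd ℂ) (nit t p) *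
      (g n * (starRingEnd ℂ) (nit t n))
    rw [h4 p n hp hy hn hpn, nit_mul t hp.one_le (Nat.one_le_iff_ne_zero.2 hn), map_mul]
    ring

/-- the prime signature: the multiset of the exponents -/
def sig (n : ℕ) : Multiset ℕ := n.primeFactors.val.map (fun p => n.factorization p)

/-- the part of `n` composed of the primes up to `y` -/
def sm (y n : ℕ) : ℕ := ∏ p ∈ n.primeFactors.filter (fun p => p ≤ y), p ^ n.factorization p

lemma pf_mul {p n : ℕ} (hp : p.Prime) (hn0 : n ≠ 0) : (p * n).primeFactors = insert p n.primeFactors := by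
  rw [Nat.primeFactors_mul hp.ne_zero hn0, hp.primeFactors, insert_eq]

lemma fac_self {p n : ℕ} (hp : p.Prime) (hn0 : n ≠ 0) (hn : ¬ p ∣ n) : (p * n).factorization p = 1 := by
  rw [Nat.factorization_mul hp.ne_zero hn0, Finsupp.add_apply, hp.factorization_self,
    Nat.factorization_eq_zero_of_not_dvd hn]

lemma fac_ne {p n l : ℕ} (hp : p.Prime) (hn0 : n ≠ 0) (hl : p ≠ l) :
    (p * n).factorization l = n.factorization l := by
  rw [Nat.factorization_mul hp.ne_zero hn0, Finsupp.add_apply, hp.factorization, Finsupp.single_apply,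
    if_neg hl, zero_add]

lemma sig_mul {p n : ℕ} (hp : p.Prime) (hn0 : n ≠ 0) (hn : ¬ p ∣ n) : sig (p * n) = 1 ::ₘ sig n := by
  have hpn : p ∉ n.primeFactors := fun h => hn (Nat.dvd_of_mem_primeFactors h)
  have h2 : (p * n).primeFactors.val = p ::ₘ n.primeFactors.val := by
    rw [pf_mul hp hn0, insert_val_of_notMem hpn]
  unfold sig
  rw [h2, Multiset.map_cons, fac_self hp hn0 hn]
  congr 1
  refine Multiset.map_congr rfl fun l hl => ?_
  have hl' : l ∈ n.primeFactors := hl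
  apply fac_ne hp hn0
  rintro rfl
  exact hpn hl'

lemma sm_mul {y p n : ℕ} (hp : p.Prime) (hy : y < p) (hn0 : n ≠ 0) (hn : ¬ p ∣ n) : sm y (p * n) = sm y n := by
  unfold sm
  rw [pf_mul hp hn0, filter_insert, if_neg (by omega)]
  refine prod_congr rfl fun l hl => ?_
  rw [mem_filter] at hl
  rw [fac_ne hp hn0 (by omega)]

/-- products of arbitrary functions of the prime signature and of the smooth part and of multiplicative
functions -/
lemma sig_OM (y : ℕ) (B : ℕ → Multiset ℕ → ℂ) (hB : ∀ u s, ‖B u s‖ ≤ 1) (h : ℕ → ℂ) (hh : BM h) :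
    OM (fun n => B (sm y n) (sig n) * h n) := by
  refine ⟨y, fun n => B (sm y n) ((sig n).erase 1) * h n, h, fun n => ?_, hh, fun n => ?_,
    fun p n hp hy hn hpn => ?_⟩
  · rw [norm_mul]
    exact mul_le_of_le_one_left (norm_nonneg _) (hB _ _)
  · rw [norm_mul]
    exact mul_le_one₀ (hB _ _) (norm_nonneg _) (hh.1 n)
  · show B (sm y (p * n)) ((sig (p * n)).erase 1) * h (p * n) = h p * (B (sm y n) (sig n) * h n)
    rw [sm_mul hp hy hn hpn, sig_mul hp hn hpn, Multiset.erase_cons_head,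
      hh.2 p n hp.one_le (Nat.one_le_iff_ne_zero.2 hn) ((Nat.Prime.coprime_iff_not_dvd hp).2 hpn)]
    ring

end Pool.Agent.R512.Q
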