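import Pool.Agent.R512.Q.Thm
import Pool.Agent.R512.Q.Sig
import Pool.Agent.Y958.U.Diag

/-!
Library R512.Q (helper512): one factor near a completely multiplicative function with values in the roots of
unity, the other factors arbitrary functions of `Ω` times arbitrary multiplicative functions, linear forms
(after `Pool.Agent.R512.G.Forms`).
-/

set_option autoImplicit false

namespace Pool.Agent.R512.Q

open Finset Filter Topology
open Pool.Agent.Y958.U
open Pool.Agent.Y958.E
open Pool.Agent.Y958.TC (ind)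
open ArithmeticFunction (cardFactors)

/-- main factors: up to a constant and a dilation, `f` is the function at the scale `1` of a pair with
dilation relations, the function at the larger scales has values in the roots of unity of order `m`, and the
two point correlations of its `r`-th power are not extreme near the scales in `S` -/
def MF (m r : ℕ) (δ₀ : ℝ) (S : Set ℕ) (f : ℕ → ℂ) : Prop :=
  (∀ n, ‖f n‖ = 1) ∧ ∀ t : ℕ, 1 ≤ t → ∃ (f₁ f₂ : ℕ → ℂ) (u : ℂ) (s : ℕ → ℂ), (∀ n, f₂ n ^ m = 1) ∧
    (∀ n, ‖f₁ n‖ ≤ 1) ∧ ‖u‖ = 1 ∧ (∀ n, n ≠ 0 → f₁ (t * n) = u * f n) ∧ (∀ p, ‖s p‖ = 1) ∧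
    (∀ p n : ℕ, p.Prime → n ≠ 0 → ¬ p ∣ n → f₂ (p * n) = s p * f₁ n) ∧
    ∀ (V : ℕ → Prop) (A : ℕ), 1 ≤ A → (∀ n, V (n + A) ↔ V n) → 0 < dv V A → ∀ s' R : ℕ, 1 ≤ R →
      ∃ E' : Set ℕ, LZ E' ∧ ∀ W : ℕ, ∃ N₀ : ℕ, ∀ N ∈ S, N₀ ≤ N → ∀ M, N ≤ M → M ≤ W * N → M ∉ E' →
        ‖AvC M (fun n => (ind V n : ℂ) * (f₂ (n + s') ^ r * (starRingEnd ℂ) (f₂ (n + s' + R) ^ r)))‖ ≤
          (1 - δ₀) * dv V A

/-- the exceptional scales for one residue class -/
noncomputable def SrC (f : ℕ → ℂ) {d : ℕ} (a b : Fin (d + 1) → ℕ) (g : Fin d → ℕ → ℂ) (Q r N : ℕ) : ℂ :=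
  ∑ n ∈ Icc 1 N, (ind (fun n => n % Q = r % Q) n : ℂ) * f (a 0 * n + b 0) *
    ∏ i : Fin d, g i (a i.succ * n + b i.succ)

theorem forms0 (hT : S_TKL) (d m q : ℕ) [hq' : Fact q.Prime] (hm0 : 1 ≤ m) (hqm : q ∣ m) (δ₀ : ℝ)
    (hδ₀ : 0 < δ₀) (hδ₁ : δ₀ ≤ 1) :
    ∃ c : ℝ, 0 < c ∧ c < 1 ∧ ∀ (S : Set ℕ) (f : ℕ → ℂ), MF m (m / q) δ₀ S f →
    ∀ (a b : Fin (d + 1) → ℕ), (∀ i, 1 ≤ a i) →
    (∀ i j, i ≠ j → a i * b j ≠ a j * b i) → ∀ g : Fin d → ℕ → ℂ, (∀ i, OM (g i)) →
    ∀ Q r : ℕ, 1 ≤ Q → LZ (S ∩ {N : ℕ | (1 - c) * ((N : ℝ) / Q) < ‖SrC f a b g Q r N‖}) := by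
  classical
  obtain ⟨c, hc0, hc1, hU⟩ := mainC d m q hm0 hqm δ₀ hδ₀ hδ₁
  refine ⟨c / 2, by positivity, by linarith, fun S f hf a b ha hab g₁ hg₁ Q r hQ => ?_⟩
  choose yo g₂ g hg1 hg hg₂1 hgg using hg₁
  have hg₁1 : ∀ i n, ‖g₁ i n‖ ≤ 1 := fun i n => (hg1 i n).trans ((hg i).1 n)
  obtain ⟨hfn, hf⟩ := hf
  have hd0 : (0 : ℝ) < (d : ℝ) + 1 := by positivity
  set τ : ℝ := c / ((d : ℝ) + 1) with hτ
  have hτ0 : 0 < τ := by positivity
  have hτ1 : τ < 1 := by
    rw [hτ, div_lt_one hd0]
    have : (0 : ℝ) ≤ d := Nat.cast_nonneg _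
    linarith
  have hτd : (d : ℝ) * τ ≤ c := by
    rw [hτ, mul_div_assoc', div_le_iff₀ hd0]
    nlinarith
  obtain ⟨K, hK⟩ := hT τ hτ0 hτ1
  have hQ0 : (0 : ℝ) < Q := by exact_mod_cast hQ
  by_cases hcase : ∃ (i : Fin d) (z : ℕ), K ≤ ∑ p ∈ (Icc 1 z).filter
      (fun p => p.Prime ∧ ¬ p ∣ a i.succ * Q ∧ ‖g i p‖ < 1 - τ), 1 / (p : ℝ)
  · -- the averages of `g i` are small
    obtain ⟨i, z, hz⟩ := hcase
    have haQ : 1 ≤ a i.succ * Q := Nat.one_le_iff_ne_zero.2
      (Nat.mul_ne_zero (by have := ha i.succ; omega) (by omega))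
    obtain ⟨N₀, hN₀⟩ := hK (a i.succ * Q) (a i.succ * (r % Q) + b i.succ) z haQ
    have h1 := hN₀ (g i) (hg i) hz
    obtain ⟨N₁, hN₁⟩ := exists_nat_ge ((Q : ℝ) / (1 - c))
    apply LZ_bdd _ (N₀ * Q + N₁ + 1)
    intro N hN
    by_contra hcon
    push Not at hcon
    have hN := hN.2
    rw [Set.mem_setOf_eq] at hN
    have h2 : ‖SrC f a b g₁ Q r N‖ ≤ ∑ m ∈ range (N / Q + 1), ‖g i (a i.succ * Q * m + (a i.succ * (r % Q) + b i.succ))‖ := by
      unfold SrC
      refine (norm_sum_le _ _).trans ?_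
      have h3 : ∀ n ∈ Icc 1 N, ‖(ind (fun n => n % Q = r % Q) n : ℂ) * f (a 0 * n + b 0) *
          ∏ i : Fin d, g₁ i (a i.succ * n + b i.succ)‖ ≤
          if n % Q = r % Q then ‖g i (a i.succ * n + b i.succ)‖ else 0 := by
        intro n _
        rw [norm_mul, norm_mul]
        split_ifs with hn
        · have e1 : ind (fun n => n % Q = r % Q) n = 1 := by unfold Pool.Agent.Y958.TC.ind; rw [if_pos hn]
          rw [e1, Complex.ofReal_one, norm_one, one_mul, norm_prod, ← mul_prod_erase univ _ (mem_univ i)]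
          have h4 : ∏ x ∈ univ.erase i, ‖g₁ x (a x.succ * n + b x.succ)‖ ≤ 1 :=
            prod_le_one (fun _ _ => norm_nonneg _) fun j _ => hg₁1 j _
          have h5 : ‖g₁ i (a i.succ * n + b i.succ)‖ * ∏ x ∈ univ.erase i, ‖g₁ x (a x.succ * n + b x.succ)‖ ≤
              ‖g i (a i.succ * n + b i.succ)‖ := by
            calc ‖g₁ i (a i.succ * n + b i.succ)‖ * ∏ x ∈ univ.erase i, ‖g₁ x (a x.succ * n + b x.succ)‖ ≤
                ‖g₁ i (a i.succ * n + b i.succ)‖ * 1 := mul_le_mul_of_nonneg_left h4 (norm_nonneg _)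
              _ = ‖g₁ i (a i.succ * n + b i.succ)‖ := mul_one _
              _ ≤ _ := hg1 i _
          rw [hfn, one_mul]
          exact h5
        · have e1 : ind (fun n => n % Q = r % Q) n = 0 := by unfold Pool.Agent.Y958.TC.ind; rw [if_neg hn]
          rw [e1, Complex.ofReal_zero, norm_zero, zero_mul, zero_mul]
      refine (sum_le_sum h3).trans ?_
      rw [← sum_filter]
      have h4 : ∑ n ∈ (Icc 1 N).filter (fun n => n % Q = r % Q), ‖g i (a i.succ * n + b i.succ)‖ =
          ∑ m ∈ ((Icc 1 N).filter (fun n => n % Q = r % Q)).image (fun n => n / Q),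
            ‖g i (a i.succ * Q * m + (a i.succ * (r % Q) + b i.succ))‖ := by
        rw [sum_image]
        · apply sum_congr rfl
          intro n hn
          rw [mem_filter] at hn
          congr 2
          have h5 := Nat.div_add_mod n Q
          rw [hn.2] at h5
          calc a i.succ * n + b i.succ = a i.succ * (Q * (n / Q) + r % Q) + b i.succ := by rw [h5]
            _ = _ := by ring
        · intro n hn m hm hnm
          rw [mem_coe, mem_filter] at hn hm
          have h5 := Nat.div_add_mod n Q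
          have h6 := Nat.div_add_mod m Q
          simp only at hnm
          rw [← h5, ← h6, hnm, hn.2, hm.2]
      rw [h4]
      apply sum_le_sum_of_subset_of_nonneg
      · intro m hm
        rw [mem_image] at hm
        obtain ⟨n, hn, rfl⟩ := hm
        rw [mem_filter, mem_Icc] at hn
        rw [mem_range]
        have := Nat.div_le_div_right (c := Q) hn.1.2
        omega
      · intro m _ _
        exact norm_nonneg _
    have hNQ : N₀ ≤ N / Q + 1 := by
      have h5 : N₀ ≤ N / Q := by
        rw [Nat.le_div_iff_mul_le (by omega)]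
        omega
      omega
    have h3 := h2.trans (h1 (N / Q + 1) hNQ)
    have h4 := hN.trans_le h3
    push_cast at h4
    have h5 : ((N / Q : ℕ) : ℝ) ≤ N / Q := Nat.cast_div_le
    have h6 : (Q : ℝ) / (1 - c) ≤ N := hN₁.trans (by exact_mod_cast (by omega : N₁ ≤ N))
    rw [div_le_iff₀ (by linarith)] at h6
    have h7 : 1 ≤ (N : ℝ) / Q * (1 - c) := by
      rw [div_mul_eq_mul_div, le_div_iff₀ hQ0, one_mul]
      exact h6
    nlinarith
  · -- the main case
    push Not at hcase
    set A : ℕ := ∏ i, a i with hAd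
    have hA : 1 ≤ A := Nat.one_le_iff_ne_zero.2 (prod_ne_zero_iff.2 fun i _ => by have := ha i; omega)
    have hA0 : (0 : ℝ) < A := by exact_mod_cast hA
    set B : Fin (d + 1) → ℕ := fun i => ∏ j ∈ univ.erase i, a j with hB
    have hBA : ∀ i, a i * B i = A := by
      intro i
      rw [hB, hAd]
      exact mul_prod_erase univ a (mem_univ i)
    have hB0 : ∀ i, B i ≠ 0 := fun i h => by
      have := hBA i
      rw [h, mul_zero] at this
      omega
    set x : Fin (d + 1) → ℕ := fun i => B i * b i with hx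
    have hxi : Function.Injective x := by
      intro i j hij
      by_contra hne
      apply hab i j hne
      simp only [hx] at hij
      have h1 : A * (a i * b j) = A * (a j * b i) := by
        calc A * (a i * b j) = a i * (a j * (B j * b j)) := by rw [← hBA j]; ring
          _ = a i * (a j * (B i * b i)) := by rw [hij]
          _ = A * (a j * b i) := by rw [← hBA i]; ring
      exact Nat.eq_of_mul_eq_mul_left (by omega) h1
    set A' : ℕ := A * Q with hA'd
    have hA' : 1 ≤ A' := Nat.one_le_iff_ne_zero.2 (Nat.mul_ne_zero (by omega) (by omega))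
    set V : ℕ → Prop := fun m => m % A' = (A * r) % A' with hV
    have hVp : ∀ n, V (n + A') ↔ V n := by
      intro n
      simp only [hV, Nat.add_mod_right]
    have hdvV : dv V A' = 1 / A' := dv_class A' (A * r) hA'
    obtain ⟨f₁, f₂, u₀, s₀, hf₂m, hf₁1, hu₀, hf₁u, hs₀, hf₂p, hf2⟩ := hf (B 0) (Nat.one_le_iff_ne_zero.2 (hB0 0))
    set Y : ℕ := ∑ i, yo i with hY
    have hYi : ∀ i, yo i ≤ Y := fun i => single_le_sum (f := yo) (fun _ _ => Nat.zero_le _) (mem_univ i)
    set F : Fin d → ℕ → ℂ := fun i m => if B i.succ ∣ m then g₂ i (m / B i.succ) else 0 with hF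
    set F' : Fin d → ℕ → ℂ := fun i m => if B i.succ ∣ m then g₁ i (m / B i.succ) else 0 with hF'
    have hF1 : ∀ i n, ‖F i n‖ ≤ 1 := by
      intro i n
      simp only [hF]
      split_ifs
      · exact hg₂1 i _
      · simp
    have hF'1 : ∀ i n, ‖F' i n‖ ≤ 1 := by
      intro i n
      simp only [hF']
      split_ifs
      · exact hg₁1 i _
      · simp
    set s : ℕ → ℂ := fun p => if p ∣ A' then 1 else s₀ p * ∏ i, g i p with hs
    set Bad : Set ℕ := {p | p ≤ Y ∨ (¬ p ∣ A' ∧ ∃ i, ‖g i p‖ < 1 - τ)} with hBad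
    set EE : Set ℕ := {N | (∃ N' ∈ S, 1 ≤ N' ∧ N = A * (N' + 1)) ∧
      (1 - c) * dv V A' < ‖AvC N (psC f₁ V F' x)‖} with hEE
    have h1 := hU LZ (nullLZ s_avc) f₂ f₁ hf₂m hf₁1 V A' hA' hVp
      (by rw [hdvV]; have : (0 : ℝ) < A' := by exact_mod_cast hA'
          positivity) x hxi F F' hF1 hF'1 (fun _ => Bad) (fun _ => s) (d * K + Y)
      (by
        intro _ p
        simp only [hs]
        split_ifs
        · simp
        · rw [norm_mul, norm_prod]
          have h1 : ∏ i : Fin d, ‖g i p‖ ≤ 1 :=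
            prod_le_one (fun i _ => norm_nonneg _) fun i _ => (hg i).1 _
          rw [hs₀, one_mul]
          exact h1)
      (by
        intro _ p hp
        simp only [hs]
        split_ifs with hpA
        · simp; linarith
        · have h2 : ∀ i, 1 - τ ≤ ‖g i p‖ := by
            intro i
            by_contra hcon
            exact hp (Or.inr ⟨hpA, i, not_le.1 hcon⟩)
          rw [norm_mul, hs₀, one_mul, norm_prod]
          have h3 : (1 - τ) ^ d ≤ ∏ i : Fin d, ‖g i p‖ := by
            calc (1 - τ) ^ d = ∏ _i : Fin d, (1 - τ) := by simp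
              _ ≤ ∏ i : Fin d, ‖g i p‖ := prod_le_prod (fun i _ => by linarith) fun i _ => h2 i
          have h4 := one_add_mul_le_pow (show (-2 : ℝ) ≤ -τ by linarith) d
          have h5 : (1 : ℝ) + d * -τ = 1 - d * τ := by ring
          rw [h5] at h4
          have h6 : (1 : ℝ) + -τ = 1 - τ := by ring
          rw [h6] at h4
          linarith)
      (by
        intro _ X
        have h2 : ∑ p ∈ (Icc 1 X).filter (fun p => p.Prime ∧ p ∈ Bad), (1 : ℝ) / p ≤
            ∑ i : Fin d, ∑ p ∈ (Icc 1 X).filter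
              (fun p => p.Prime ∧ ¬ p ∣ a i.succ * Q ∧ ‖g i p‖ < 1 - τ), 1 / (p : ℝ) +
            ∑ p ∈ Icc 1 X, (if p ≤ Y then (1 : ℝ) else 0) := by
          simp only [sum_filter]
          rw [sum_comm, ← sum_add_distrib]
          apply sum_le_sum
          intro p hp1
          rw [mem_Icc] at hp1
          have hp0 : (1 : ℝ) ≤ p := by exact_mod_cast hp1.1
          have hs0 : 0 ≤ ∑ i : Fin d, (if p.Prime ∧ ¬ p ∣ a i.succ * Q ∧ ‖g i p‖ < 1 - τ then 1 / (p : ℝ) else 0) :=
            sum_nonneg fun i _ => by split_ifs <;> positivity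
          split_ifs with hp hpY hpY
          · have : 1 / (p : ℝ) ≤ 1 := by
              rw [div_le_one (by linarith)]
              exact hp0
            linarith
          · obtain ⟨hpp, hpB⟩ := hp
            obtain ⟨hpA, i, hi⟩ : ¬ p ∣ A' ∧ ∃ i, ‖g i p‖ < 1 - τ := by
              rcases hpB with h | h
              · exact absurd h hpY
              · exact h
            have h3 : ¬ p ∣ a i.succ * Q := by
              intro hd
              apply hpA
              refine hd.trans ?_
              rw [hA'd, ← hBA i.succ]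
              exact Nat.mul_dvd_mul (dvd_mul_right _ _) (dvd_refl _)
            rw [add_zero]
            refine le_trans ?_ (single_le_sum (f := fun i : Fin d => if p.Prime ∧ ¬ p ∣ a i.succ * Q ∧
              ‖g i p‖ < 1 - τ then 1 / (p : ℝ) else 0) (fun i _ => by split_ifs <;> positivity) (mem_univ i))
            rw [if_pos ⟨hpp, h3, hi⟩]
          · linarith
          · linarith
        have h3 : ∑ i : Fin d, ∑ p ∈ (Icc 1 X).filter
              (fun p => p.Prime ∧ ¬ p ∣ a i.succ * Q ∧ ‖g i p‖ < 1 - τ), 1 / (p : ℝ) ≤ d * K := by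
          refine (sum_le_sum fun i _ => (hcase i X).le).trans (le_of_eq ?_)
          rw [sum_const, card_univ, Fintype.card_fin, nsmul_eq_mul]
        have h4 : ∑ p ∈ Icc 1 X, (if p ≤ Y then (1 : ℝ) else 0) ≤ Y := by
          rw [← sum_filter, sum_const, nsmul_eq_mul, mul_one]
          have h5 : (Icc 1 X).filter (fun p => p ≤ Y) ⊆ Icc 1 Y := by
            intro p hp
            rw [mem_filter, mem_Icc] at hp
            rw [mem_Icc]
            exact ⟨hp.1.1, hp.2⟩
          have h6 := card_le_card h5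
          rw [Nat.card_Icc, Nat.add_sub_cancel] at h6
          exact_mod_cast h6
        exact le_of_eq_of_le (by congr!) (h2.trans (add_le_add h3 h4)))
      EE
      (by
        intro R hR
        obtain ⟨E', hE'Z, hE'⟩ := hf2 V A' hA' hVp (by
          rw [hdvV]
          have : (0 : ℝ) < A' := by exact_mod_cast hA'
          positivity) (x 0) R hR
        refine ⟨E', hE'Z, fun W => ?_⟩
        obtain ⟨N₀, hN₀⟩ := hE' (W * (2 * A))
        refine ⟨A * (N₀ + 1), fun N hN hNN M h1 h2 h3 => ?_⟩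
        obtain ⟨⟨N', hN', hN'1, rfl⟩, -⟩ := hN
        refine hN₀ N' hN' ?_ M ?_ ?_ h3
        · have := Nat.le_of_mul_le_mul_left hNN (show 0 < A by omega)
          omega
        · have : N' + 1 ≤ A * (N' + 1) := Nat.le_mul_of_pos_left _ (by omega)
          omega
        · refine h2.trans ?_
          have h4 : A * (N' + 1) ≤ A * (2 * N') := Nat.mul_le_mul_left _ (by omega)
          calc W * (A * (N' + 1)) ≤ W * (A * (2 * N')) := Nat.mul_le_mul_left _ h4
            _ = W * (2 * A) * N' := by ring)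
      (by
        intro W
        refine ⟨0, fun N _ _ M _ _ p hp _ hpA hpB k _ _ hk => ?_⟩
        have hpY : Y < p := by
          by_contra hcon
          exact hpB (Or.inl (not_lt.1 hcon))
        have hpA' := prime_ndvd hp hpA
        simp only [hs]
        have hk0 : k + x 0 ≠ 0 := fun h => hk 0 (by rw [h]; exact dvd_zero p)
        rw [if_neg hpA', hf₂p p (k + x 0) hp hk0 (hk 0)]
        have key : ∏ i : Fin d, F i (p * (k + x i.succ)) =
            (∏ i : Fin d, g i p) * ∏ i : Fin d, F' i (k + x i.succ) := by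
          rw [← prod_mul_distrib]
          apply prod_congr rfl
          intro i _
          have hki := hk i.succ
          set m := k + x i.succ with hm
          have hm0 : m ≠ 0 := fun h => hki (by rw [h]; exact dvd_zero p)
          have hBd : B i.succ ∣ A' := by
            rw [hA'd, ← hBA i.succ]
            exact dvd_mul_of_dvd_left (dvd_mul_left _ _) _
          have hcop : Nat.Coprime (B i.succ) p := by
            rw [Nat.coprime_comm, Nat.Prime.coprime_iff_not_dvd hp]
            exact fun h => hpA' (h.trans hBd)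
          simp only [hF, hF']
          by_cases hd : B i.succ ∣ m
          · obtain ⟨m', hm'⟩ := hd
            have e1 : p * m = B i.succ * (p * m') := by rw [hm']; ring
            rw [e1, if_pos (dvd_mul_right _ _), hm', if_pos (dvd_mul_right _ _),
              Nat.mul_div_cancel_left _ (Nat.pos_of_ne_zero (hB0 _)),
              Nat.mul_div_cancel_left _ (Nat.pos_of_ne_zero (hB0 _))]
            have hm'0 : m' ≠ 0 := by
              rintro rfl
              rw [mul_zero] at hm'
              exact hm0 hm'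
            have hpm' : ¬ p ∣ m' := by
              intro h
              apply hki
              rw [hm']
              exact dvd_mul_of_dvd_right h _
            exact hgg i p m' hp (lt_of_le_of_lt (hYi i) hpY) hm'0 hpm'
          · rw [if_neg hd, if_neg, mul_zero]
            intro h
            exact hd (hcop.dvd_of_dvd_mul_left h)
        rw [key]
        ring)
      (fun N hN => hN.2)
    have h2 := LZ_union (LZ_pull _ A hA h1) (LZ_bdd {N | N < ⌈4 * Q / c⌉₊} _ fun n hn => hn)
    refine LZ_sub ?_ h2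
    intro N hN
    by_cases hNK : N < ⌈4 * Q / c⌉₊
    · exact Or.inr hNK
    left
    obtain ⟨hNS, hN⟩ := hN
    rw [Set.mem_setOf_eq] at hN
    have hN1 : 1 ≤ N := by
      have h3 : 0 < ⌈4 * (Q : ℝ) / c⌉₊ := Nat.ceil_pos.2 (by positivity)
      omega
    refine ⟨⟨N, hNS, hN1, rfl⟩, ?_⟩
    have hNr : 4 * Q / c ≤ N := (Nat.le_ceil _).trans (Nat.cast_le.2 (not_lt.1 hNK))
    rw [div_le_iff₀ hc0] at hNr
    have hVA : ∀ n, V (A * n) ↔ n % Q = r % Q := by
      intro n
      simp only [hV, hA'd]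
      rw [Nat.mul_mod_mul_left, Nat.mul_mod_mul_left]
      constructor
      · intro h
        exact Nat.eq_of_mul_eq_mul_left (by omega) h
      · intro h
        rw [h]
    have hpsz : ∀ m, ¬ A ∣ m → psC f₁ V F' x m = 0 := by
      intro m hm
      unfold psC
      have : ind V m = 0 := by
        unfold Pool.Agent.Y958.TC.ind
        rw [if_neg]
        intro hv
        apply hm
        have h3 : m ≡ A * r [MOD A'] := hv
        have h4 := h3.of_dvd (show A ∣ A' from dvd_mul_right A Q)
        have h5 : m ≡ 0 [MOD A] := h4.trans ((Nat.modEq_zero_iff_dvd).2 (dvd_mul_right A r))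
        exact (Nat.modEq_zero_iff_dvd).1 h5
      rw [this]
      simp
    have hpsn : ∀ n, 1 ≤ n → psC f₁ V F' x (A * n) = u₀ *
        ((ind (fun n => n % Q = r % Q) n : ℂ) * f (a 0 * n + b 0) *
          ∏ i : Fin d, g₁ i (a i.succ * n + b i.succ)) := by
      intro n hn
      unfold psC
      have e1 : ∀ i, A * n + x i = B i * (a i * n + b i) := by
        intro i
        simp only [hx]
        rw [← hBA i]
        ring
      have e2 : ind V (A * n) = ind (fun n => n % Q = r % Q) n := ind_at (hVA n)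
      have e3 : ∀ i : Fin d, F' i (A * n + x i.succ) = g₁ i (a i.succ * n + b i.succ) := by
        intro i
        simp only [hF']
        rw [e1, if_pos (dvd_mul_right _ _), Nat.mul_div_cancel_left _ (Nat.pos_of_ne_zero (hB0 _))]
      have e4 : a 0 * n + b 0 ≠ 0 := by
        have : 1 ≤ a 0 * n := Nat.mul_pos (ha 0) hn
        omega
      rw [e2, e1 0, hf₁u _ e4]
      simp only [e3]
      ring
    have hsum : ∑ m ∈ range (A * (N + 1)), psC f₁ V F' x m =
        psC f₁ V F' x 0 + u₀ * SrC f a b g₁ Q r N := by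
      rw [sum_multC A (N + 1) hA _ hpsz, sum_range_succ', mul_zero, add_comm]
      congr 1
      unfold SrC
      rw [mul_sum, range_eq_Ico, sum_Ico_add' (fun n => psC f₁ V F' x (A * n)) 0 N 1]
      apply sum_congr
      · ext n
        simp only [mem_Ico, mem_Icc]
        omega
      · intro n hn
        rw [mem_Icc] at hn
        exact hpsn n hn.1
    have hps0 : ‖psC f₁ V F' x 0‖ ≤ 1 := psC_le f₁ V F' hF'1 x hf₁1 0
    unfold AvC
    rw [hsum, norm_div, hdvV, lt_div_iff₀ (by
      rw [Complex.norm_natCast]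
      have : 0 < A * (N + 1) := Nat.mul_pos (by omega) (by omega)
      exact_mod_cast this), Complex.norm_natCast]
    have h3 : ‖SrC f a b g₁ Q r N‖ - 1 ≤ ‖psC f₁ V F' x 0 + u₀ * SrC f a b g₁ Q r N‖ := by
      have h4 := norm_sub_norm_le (u₀ * SrC f a b g₁ Q r N) (-psC f₁ V F' x 0)
      rw [norm_neg, sub_neg_eq_add, add_comm (u₀ * SrC f a b g₁ Q r N), norm_mul,
        hu₀, one_mul] at h4
      linarith
    have e5 : (1 - c) * (1 / ((A' : ℕ) : ℝ)) * ((A * (N + 1) : ℕ) : ℝ) = (1 - c) * ((N + 1) / Q) := by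
      rw [hA'd]
      push_cast
      field_simp
    rw [e5]
    have e6 : (1 - c / 2) * ((N : ℝ) / Q) = (1 - c) * ((N + 1) / Q) + (c / 2 * N - (1 - c)) / Q := by
      field_simp
      ring
    have e7 : 1 ≤ (c / 2 * N - (1 - c)) / Q := by
      rw [le_div_iff₀ hQ0]
      have : (1 : ℝ) ≤ Q := by exact_mod_cast hQ
      nlinarith
    rw [e6] at hN
    linarith

end Pool.Agent.R512.Q
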