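import Pool.Agent.R512.Q.Pol
import Pool.Agent.Y842.QY.Ell2
import Pool.Agent.Y958.U.Diag
import Pool.Agent.R512.G.Forms

/-!
Library R512.Q (helper512): the two point correlations of `w ^ Ω(n)`, and of real completely multiplicative
functions, at almost all scales.
-/

set_option autoImplicit false

namespace Pool.Agent.R512.Q

open Finset Filter Topology
open Pool.Agent.Y958.U
open Pool.Agent.Y958.TC (ind ind_nonneg Av)
open Pool.Agent.Y958.E (AvC)
open Pool.Agent.Helper602.MK (ee)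
open ArithmeticFunction (cardFactors)

lemma ind_norm_le (P : ℕ → Prop) (n : ℕ) : ‖(ind P n : ℂ)‖ ≤ 1 := by
  unfold Pool.Agent.Y958.TC.ind; split_ifs <;> simp

/-- comparison of the averages over `n < N` and `1 ≤ n ≤ N` -/
lemma avC_Icc (N : ℕ) (ψ : ℕ → ℂ) (h : ∀ n, ‖ψ n‖ ≤ 1) (δ : ℝ) (hN : 4 / δ ≤ N) (hN1 : 1 ≤ N) (hδ : 0 < δ)
    (h1 : δ < ‖AvC N ψ‖) : δ / 2 < ‖∑ n ∈ Icc 1 N, ψ n‖ / N := by
  have hN0 : (0 : ℝ) < N := by exact_mod_cast hN1
  unfold Pool.Agent.Y958.E.AvC at h1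
  rw [norm_div, Complex.norm_natCast, lt_div_iff₀ hN0] at h1
  rw [lt_div_iff₀ hN0]
  have e : ∑ n ∈ range N, ψ n = ∑ n ∈ Icc 1 N, ψ n + (ψ 0 - ψ N) := by
    have e1 := sum_range_succ ψ N
    have e2 := sum_range_succ' ψ N
    have e3 : ∑ n ∈ range N, ψ (n + 1) = ∑ n ∈ Icc 1 N, ψ n := by
      rw [range_eq_Ico, sum_Ico_add' ψ 0 N 1]
      apply sum_congr _ (fun _ _ => rfl)
      ext n
      simp only [mem_Ico, mem_Icc]
      omega
    rw [e3] at e2
    rw [e1] at e2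
    linear_combination e2
  rw [e] at h1
  have h2 := norm_add_le (∑ n ∈ Icc 1 N, ψ n) (ψ 0 - ψ N)
  have h3 := norm_sub_le (ψ 0) (ψ N)
  have h4 := h 0
  have h5 := h N
  rw [div_le_iff₀ hδ] at hN
  linarith

/-- the two point correlations of `w ^ Ω(n)` at almost all scales -/
theorem twoZ (w : ℂ) (hw : ‖w‖ = 1) (hw1 : w ≠ 1) (V : ℕ → Prop) (A : ℕ) (hA : 1 ≤ A)
    (hV : ∀ n, V (n + A) ↔ V n) (R : ℕ) (hR : 1 ≤ R) (δ : ℝ) (hδ : 0 < δ) :
    LZ (E2C (fun n => w ^ cardFactors n) V A R δ) := by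
  classical
  apply LZ_fin
  intro a _
  set φ : ℕ → ℂ := fun n => w ^ cardFactors n with hφ
  have hφ1 : ∀ n, ‖φ n‖ = 1 := fun n => by rw [hφ]; simp only; rw [norm_pow, hw, one_pow]
  set ψ : ℕ → ℂ := fun n => (ind V (n + a) : ℂ) * (φ n * (starRingEnd ℂ) (φ (n + R))) with hψ
  have hψ1 : ∀ n, ‖ψ n‖ ≤ 1 := by
    intro n
    rw [hψ]
    simp only
    rw [norm_mul, norm_mul, RCLike.norm_conj, hφ1, hφ1, mul_one, mul_one]
    exact ind_norm_le _ _
  set E' : Set ℕ := {N | δ / 2 < ‖∑ n ∈ Icc 1 N, ψ n‖ / N} with hE'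
  have hE'Z : LZ E' := by
    rw [LZ_iff]
    intro ε hε
    have hPB := Pool.Agent.Y842.QY.PB_tw _ 0 R
      (Pool.Agent.Y842.QY.PB_Zc 0 R (by omega) ‖w - 1‖ (norm_pos_iff.2 (sub_ne_zero.2 hw1))) A
    obtain ⟨X₀, hX₀⟩ := hPB (ε * (δ / 2)) (by positivity)
    refine ⟨X₀, fun X hX => ?_⟩
    obtain ⟨B, hB1, hB2⟩ := hX₀ X hX (fun n => w ^ cardFactors n * (ind V (n + a) : ℂ))
      ⟨_, ⟨w, hw.le, le_rfl, rfl⟩, A, fun n => (ind V (n + a) : ℂ), hA, le_rfl, fun n => ind_norm_le _ _,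
        fun n => by
          show (ind V (n + A + a) : ℂ) = (ind V (n + a) : ℂ)
          congr 1
          apply ind_at
          rw [show n + A + a = n + a + A by ring]
          exact hV (n + a), fun n => rfl⟩
      (fun n => (starRingEnd ℂ) (φ n)) (fun n _ => by rw [RCLike.norm_conj, hφ1]) (fun m n hm hn _ => by
        show (starRingEnd ℂ) (w ^ cardFactors (m * n)) = (starRingEnd ℂ) (w ^ cardFactors m) *
          (starRingEnd ℂ) (w ^ cardFactors n)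
        rw [ArithmeticFunction.cardFactors_mul (by omega) (by omega), pow_add, map_mul]) (fun N => N)
      (fun N => le_rfl)
    have h1 : δ / 2 * ls E' X ≤ ∑ N ∈ Icc 1 X, B N / (N : ℝ) ^ 2 := by
      unfold ls
      rw [mul_sum]
      apply sum_le_sum
      intro N hN
      rw [mem_Icc] at hN
      have hN0 : (0 : ℝ) < N := by exact_mod_cast hN.1
      have h2 := hB1 N 0
      have h3 : ∑ n ∈ Icc 1 N, (fun n => w ^ cardFactors n * (ind V (n + a) : ℂ)) (n + 0) *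
          (fun n => (starRingEnd ℂ) (φ n)) (n + R) * ee (0 * n) = ∑ n ∈ Icc 1 N, ψ n := by
        apply sum_congr rfl
        intro n _
        have e1 : ee (0 * (n : ℝ)) = 1 := by
          unfold Pool.Agent.Helper602.MK.ee
          simp
        rw [e1, hψ, hφ]
        simp only [add_zero]
        ring
      rw [h3] at h2
      have hB0 : 0 ≤ B N := (norm_nonneg _).trans h2
      split_ifs with hmem
      · have h4 : δ / 2 < ‖∑ n ∈ Icc 1 N, ψ n‖ / N := hmem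
        rw [lt_div_iff₀ hN0] at h4
        rw [mul_one_div, div_le_div_iff₀ hN0 (by positivity)]
        nlinarith
      · rw [mul_zero]
        positivity
    have h2 := h1.trans hB2
    have h3 : δ / 2 * ls E' X ≤ δ / 2 * (ε * Real.log X) := by
      refine h2.trans (le_of_eq ?_)
      ring
    exact le_of_mul_le_mul_left h3 (by positivity)
  refine LZ_sub ?_ (LZ_union hE'Z (LZ_bdd {N | N < ⌈4 / δ⌉₊ + 1} _ fun n hn => hn))
  intro N hN
  by_cases hNK : N < ⌈4 / δ⌉₊ + 1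
  · exact Or.inr hNK
  left
  have h1 : 4 / δ ≤ N := (Nat.le_ceil _).trans (by exact_mod_cast (by omega : ⌈4 / δ⌉₊ ≤ N))
  exact avC_Icc N ψ hψ1 δ h1 (by omega) hδ hN

open Pool.Agent.Y872.L (CM NonPret cm_abs) in
/-- the two point correlations of real completely multiplicative functions at almost all scales -/
theorem twoR {f : ℕ → ℤ} (hf : CM f) (hn : NonPret f) (φ : ℕ → ℂ) (hφ : ∀ n, n ≠ 0 → φ n = ((f n : ℤ) : ℂ))
    (hφ1 : ∀ n, ‖φ n‖ = 1) (V : ℕ → Prop) (A : ℕ)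
    (hA : 1 ≤ A) (hV : ∀ n, V (n + A) ↔ V n) (R : ℕ) (hR : 1 ≤ R) (δ : ℝ) (hδ : 0 < δ) :
    LZ (E2C φ V A R δ) := by
  classical
  have h0 := Pool.Agent.R512.G.e2_cm hf hn V A hA hV R hR (δ / 2) (by positivity)
  refine LZ_sub ?_ (LZ_union h0 (LZ_bdd {N | N < ⌈4 / δ⌉₊ + 1} _ fun n hn => hn))
  rintro N ⟨a, ha, hN⟩
  by_cases hNK : N < ⌈4 / δ⌉₊ + 1
  · exact Or.inr hNK
  left
  refine ⟨a, ha, ?_⟩
  have hN : δ < ‖AvC N (fun n => (ind V (n + a) : ℂ) * (φ n * (starRingEnd ℂ) (φ (n + R))))‖ := hN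
  show δ / 2 < |Av N (fun n => ind V (n + a) * f n * f (n + R))|
  have hN0 : (0 : ℝ) < N := by exact_mod_cast (by omega : 0 < N)
  have h1 : 4 / δ ≤ N := (Nat.le_ceil _).trans (by exact_mod_cast (by omega : ⌈4 / δ⌉₊ ≤ N))
  rw [div_le_iff₀ hδ] at h1
  have h2 : |Av N (fun n => ind V (n + a) * f n * f (n + R))| =
      ‖∑ n ∈ range N, (ind V (n + a) : ℂ) * (((f n : ℤ) : ℂ) * ((f (n + R) : ℤ) : ℂ))‖ / N := by
    unfold Pool.Agent.Y958.TC.Av
    rw [abs_div, abs_of_pos hN0, ← Real.norm_eq_abs, ← Complex.norm_real]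
    congr 2
    push_cast
    apply sum_congr rfl
    intro n _
    ring
  unfold Pool.Agent.Y958.E.AvC at hN
  rw [norm_div, Complex.norm_natCast, lt_div_iff₀ hN0] at hN
  rw [h2, lt_div_iff₀ hN0]
  have hf1 : ∀ n, ‖((f n : ℤ) : ℂ)‖ ≤ 1 := Pool.Agent.R512.G.cm_le hf
  have h3 : ‖∑ n ∈ range N, (ind V (n + a) : ℂ) * (φ n * (starRingEnd ℂ) (φ (n + R))) -
      ∑ n ∈ range N, (ind V (n + a) : ℂ) * (((f n : ℤ) : ℂ) * ((f (n + R) : ℤ) : ℂ))‖ ≤ 2 := by
    rw [← sum_sub_distrib]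
    refine (norm_sum_le _ _).trans ?_
    have h4 : ∀ n ∈ range N, ‖(ind V (n + a) : ℂ) * (φ n * (starRingEnd ℂ) (φ (n + R))) -
        (ind V (n + a) : ℂ) * (((f n : ℤ) : ℂ) * ((f (n + R) : ℤ) : ℂ))‖ ≤ if n = 0 then 2 else 0 := by
      intro n _
      split_ifs with hn0
      · refine (norm_sub_le _ _).trans ?_
        rw [norm_mul, norm_mul, norm_mul, norm_mul, RCLike.norm_conj, hφ1, hφ1, mul_one, mul_one]
        have h5 := ind_norm_le V (n + a)
        have h6 : ‖((f n : ℤ) : ℂ)‖ * ‖((f (n + R) : ℤ) : ℂ)‖ ≤ 1 * 1 :=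
          mul_le_mul (hf1 _) (hf1 _) (norm_nonneg _) zero_le_one
        have h7 : ‖(ind V (n + a) : ℂ)‖ * (‖((f n : ℤ) : ℂ)‖ * ‖((f (n + R) : ℤ) : ℂ)‖) ≤ 1 * (1 * 1) :=
          mul_le_mul h5 h6 (mul_nonneg (norm_nonneg _) (norm_nonneg _)) zero_le_one
        linarith
      · rw [hφ n hn0, hφ (n + R) (by omega), map_intCast, sub_self, norm_zero]
    refine (sum_le_sum h4).trans ?_
    rw [sum_ite_eq' (range N) 0 (fun _ => (2 : ℝ))]
    split_ifs <;> norm_num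
  have h5 := norm_sub_norm_le (∑ n ∈ range N, (ind V (n + a) : ℂ) * (φ n * (starRingEnd ℂ) (φ (n + R))))
    (∑ n ∈ range N, (ind V (n + a) : ℂ) * (((f n : ℤ) : ℂ) * ((f (n + R) : ℤ) : ℂ)))
  linarith

end Pool.Agent.R512.Q
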