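import Pool.Agent.R512.Q.Pol
import Pool.Agent.R512.Q.TwoZ
import Pool.Agent.Y842.QY.Ell2
import Pool.Agent.Y842.QY.FinW
import Pool.Agent.Y958.U.Diag

/-!
Library R512.Q (helper512): the two point correlations of functions of `Ω(n)` over periodic sets at almost all
scales (from `Pool.Agent.Y842.QY`).
-/

set_option autoImplicit false

namespace Pool.Agent.R512.Q

open Finset Filter Topology
open Pool.Agent.Y958.U
open Pool.Agent.Y958.TC (ind ind_nonneg Av)
open Pool.Agent.Y958.E (AvC)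
open Pool.Agent.Y842.QY (mB Lc csg mB_le)
open Pool.Agent.Helper602.MK (ee)
open Pool.Agent.Helper602.MK.N_J1c (c_ee_add c_ee_int c_norm_ee)
open Pool.Agent.Y842.PH (orth ee_natCast)
open ArithmeticFunction (cardFactors)

/-- periodic functions are combinations of additive characters -/
lemma fourier (q : ℕ) (hq : 1 ≤ q) (κ : ℕ → ℂ) (hκ : ∀ n, ‖κ n‖ ≤ 1) (hκq : ∀ n, κ (n + q) = κ n) :
    ∃ C : ℕ → ℂ, (∀ k, ‖C k‖ ≤ 1) ∧ ∀ n : ℕ, κ n = ∑ k ∈ range q, C k * ee ((k : ℝ) / q * n) := by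
  have hq0 : (0 : ℝ) < q := by exact_mod_cast hq
  have hq0' : (q : ℝ) ≠ 0 := hq0.ne'
  have hqc : (q : ℂ) ≠ 0 := by exact_mod_cast (by omega : q ≠ 0)
  refine ⟨fun k => (∑ r ∈ range q, κ r * ee (-((k : ℝ) * r / q))) / q, fun k => ?_, fun n => ?_⟩
  · rw [norm_div, Complex.norm_natCast, div_le_one hq0]
    refine (norm_sum_le _ _).trans ?_
    calc ∑ r ∈ range q, ‖κ r * ee (-((k : ℝ) * r / q))‖ ≤ ∑ _r ∈ range q, (1 : ℝ) := by
          refine sum_le_sum fun r _ => ?_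
          rw [norm_mul, c_norm_ee, mul_one]
          exact hκ r
      _ = q := by simp
  · have hmod : κ n = κ (n % q) := by
      have h1 : ∀ k m : ℕ, κ (m + q * k) = κ m := by
        intro k
        induction k with
        | zero => intro m; simp
        | succ k ih =>
          intro m
          rw [show m + q * (k + 1) = m + q * k + q by ring, hκq, ih]
      conv_lhs => rw [← Nat.mod_add_div n q]
      rw [h1]
    have h2 : ∀ k ∈ range q, (∑ r ∈ range q, κ r * ee (-((k : ℝ) * r / q))) / q * ee ((k : ℝ) / q * n) =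
        (∑ r ∈ range q, κ r * ee ((k : ℝ) * (((n % q : ℕ) : ℝ) - r) / q)) / q := by
      intro k _
      rw [div_mul_eq_mul_div, sum_mul]
      congr 1
      refine sum_congr rfl fun r _ => ?_
      rw [mul_assoc, ← c_ee_add]
      congr 1
      have e5 : -((k : ℝ) * r / q) + (k : ℝ) / q * n =
          (k : ℝ) * (((n % q : ℕ) : ℝ) - r) / q + ((k * (n / q) : ℕ) : ℝ) := by
        have : (n : ℝ) = ((n % q : ℕ) : ℝ) + (q : ℝ) * ((n / q : ℕ) : ℝ) := by
          exact_mod_cast (Nat.mod_add_div n q).symm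
        conv_lhs => rw [this]
        push_cast
        field_simp
        ring
      rw [e5, c_ee_add, ee_natCast, mul_one]
    rw [sum_congr rfl h2, ← sum_div, sum_comm]
    have h3 : ∀ r ∈ range q, ∑ k ∈ range q, κ r * ee ((k : ℝ) * (((n % q : ℕ) : ℝ) - r) / q) =
        if n % q = r then (q : ℂ) * κ r else 0 := by
      intro r hr
      rw [← mul_sum, orth q (n % q) r (Nat.mod_lt _ hq) (mem_range.1 hr)]
      split_ifs
      · ring
      · rw [mul_zero]
    rw [sum_congr rfl h3, sum_ite_eq (range q) (n % q), if_pos (mem_range.2 (Nat.mod_lt _ hq)), hmod]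
    field_simp

/-- the value of `Ω` in terms of the signature -/
lemma csg_Om (χ : ℕ → Fin 1) (n : ℕ) : cardFactors n = ((csg χ n).map Prod.snd).sum := by
  rw [ArithmeticFunction.cardFactors_eq_sum_factorization]
  unfold Pool.Agent.Y842.QY.csg Finsupp.sum
  rw [Multiset.map_map, Nat.support_factorization]
  rfl

lemma pair_per (a c : ℕ) (hac : a ≠ c) (q : ℕ) (hq : 1 ≤ q) (ε : ℝ) (hε : 0 < ε) :
    ∃ X₀ : ℕ, ∀ X : ℕ, X₀ ≤ X → ∀ κ : ℕ → ℂ, (∀ n, ‖κ n‖ ≤ 1) → (∀ n, κ (n + q) = κ n) →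
      ∀ A B : ℕ → ℂ, (∀ l, ‖A l‖ ≤ 1) → (∀ l, ‖B l‖ ≤ 1) →
      ∑ N ∈ Icc 1 X, ‖∑ n ∈ Icc 1 N, κ n * A (cardFactors (n + c)) * (B (cardFactors (n + a)) - mB B N)‖ /
        (N : ℝ) ^ 2 ≤ ε * Real.log X := by
  obtain ⟨X₀, hX₀⟩ := Pool.Agent.Y842.QY.pair_B 1 a c hac (ε / q) (by positivity)
  refine ⟨X₀, fun X hX κ hκ hκq A B hA hB => ?_⟩
  obtain ⟨C, hC, hκC⟩ := fourier q hq κ hκ hκq
  have hq0 : (0 : ℝ) < q := by exact_mod_cast hq
  have h1 : ∀ k ∈ range q, ∑ N ∈ Icc 1 X, ‖∑ n ∈ Icc 1 N, ee ((k : ℝ) / q * n) * A (cardFactors (n + c)) *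
      (B (cardFactors (n + a)) - mB B N)‖ / (N : ℝ) ^ 2 ≤ ε / q * Real.log X := by
    intro k _
    have h2 := hX₀ X hX (fun _ => 0) (fun s => A ((s.map Prod.snd).sum)) (fun s => hA _) (fun _ => 1)
      (fun n _ => by simp) (fun _ _ _ _ _ => by simp) B hB (fun _ => (k : ℝ) / q) (fun N => N) (fun N => le_rfl)
    refine le_trans (le_of_eq ?_) h2
    refine sum_congr rfl fun N _ => ?_
    congr 2
    unfold Pool.Agent.Y842.QY.Lc
    refine sum_congr rfl fun n hn => ?_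
    show _ = A ((Multiset.map Prod.snd (csg (fun _ => 0) (n + c))).sum) * 1 * ee ((k : ℝ) / q * n) *
      (B (cardFactors (n + a)) - mB B N)
    rw [← csg_Om (fun _ => 0) (n + c)]
    ring
  have h2 : ∀ N ∈ Icc 1 X, ‖∑ n ∈ Icc 1 N, κ n * A (cardFactors (n + c)) * (B (cardFactors (n + a)) - mB B N)‖ /
      (N : ℝ) ^ 2 ≤ ∑ k ∈ range q, ‖∑ n ∈ Icc 1 N, ee ((k : ℝ) / q * n) * A (cardFactors (n + c)) *
      (B (cardFactors (n + a)) - mB B N)‖ / (N : ℝ) ^ 2 := by
    intro N _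
    rw [← sum_div]
    apply div_le_div_of_nonneg_right _ (by positivity)
    have e : ∑ n ∈ Icc 1 N, κ n * A (cardFactors (n + c)) * (B (cardFactors (n + a)) - mB B N) =
        ∑ k ∈ range q, C k * ∑ n ∈ Icc 1 N, ee ((k : ℝ) / q * n) * A (cardFactors (n + c)) *
          (B (cardFactors (n + a)) - mB B N) := by
      simp only [mul_sum]
      rw [sum_comm]
      refine sum_congr rfl fun n _ => ?_
      rw [hκC n, sum_mul, sum_mul]
      refine sum_congr rfl fun k _ => ?_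
      ring
    rw [e]
    refine (norm_sum_le _ _).trans (sum_le_sum fun k _ => ?_)
    rw [norm_mul]
    exact mul_le_of_le_one_left (norm_nonneg _) (hC k)
  refine (sum_le_sum h2).trans ?_
  rw [sum_comm]
  refine (sum_le_sum h1).trans (le_of_eq ?_)
  rw [sum_const, card_range, nsmul_eq_mul]
  field_simp

/-- from averages over scales to almost all scales -/
lemma LZ_of_sum (u : ℕ → ℝ) (hu : ∀ N, 0 ≤ u N) (δ : ℝ) (hδ : 0 < δ)
    (h : ∀ ε : ℝ, 0 < ε → ∃ X₀ : ℕ, ∀ X : ℕ, X₀ ≤ X → ∑ N ∈ Icc 1 X, u N / (N : ℝ) ^ 2 ≤ ε * Real.log X) :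
    LZ {N : ℕ | δ * N < u N} := by
  rw [LZ_iff]
  intro ε hε
  obtain ⟨X₀, hX₀⟩ := h (ε * δ) (by positivity)
  refine ⟨X₀, fun X hX => ?_⟩
  have h1 : δ * ls {N : ℕ | δ * N < u N} X ≤ ∑ N ∈ Icc 1 X, u N / (N : ℝ) ^ 2 := by
    unfold ls
    rw [mul_sum]
    apply sum_le_sum
    intro N hN
    rw [mem_Icc] at hN
    have hN0 : (0 : ℝ) < N := by exact_mod_cast hN.1
    split_ifs with hmem
    · have h4 : δ * N < u N := hmem
      rw [mul_one_div, div_le_div_iff₀ hN0 (by positivity)]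
      nlinarith
    · rw [mul_zero]
      exact div_nonneg (hu N) (by positivity)
  have h2 := h1.trans (hX₀ X hX)
  have h3 : δ * ls {N : ℕ | δ * N < u N} X ≤ δ * (ε * Real.log X) := by
    refine h2.trans (le_of_eq ?_)
    ring
  exact le_of_mul_le_mul_left h3 hδ

/-- the density of a periodic set -/
lemma dens_V (V : ℕ → Prop) (A : ℕ) (hA : 1 ≤ A) (hV : ∀ n, V (n + A) ↔ V n) (N : ℕ) :
    ∑ n ∈ Icc 1 N, ind V n ≤ dv V A * N + A := by
  classical
  have hA0 : (0 : ℝ) < A := by exact_mod_cast hA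
  have hind : ∀ k n, ind V (A * k + n) = ind V n := by
    intro k
    induction k with
    | zero => intro n; simp
    | succ k ih =>
      intro n
      rw [← ih n]
      apply ind_at
      rw [show A * (k + 1) + n = A * k + n + A by ring]
      exact hV _
  have hfull : ∀ K : ℕ, ∑ n ∈ range (A * K), ind V n = K * (dv V A * A) := by
    intro K
    induction K with
    | zero => simp
    | succ K ih =>
      rw [mul_add, mul_one, sum_range_add, ih]
      have e1 : ∑ x ∈ range A, ind V (A * K + x) = dv V A * A := by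
        rw [sum_congr rfl fun x _ => hind K x]
        unfold dv Pool.Agent.Y958.TC.ind
        rw [div_mul_cancel₀ _ hA0.ne', ← sum_filter, sum_const, nsmul_eq_mul, mul_one]
      rw [e1]
      push_cast
      ring
  have h1 : ∑ n ∈ Icc 1 N, ind V n ≤ ∑ n ∈ range (A * (N / A + 1)), ind V n := by
    apply sum_le_sum_of_subset_of_nonneg
    · intro n hn
      rw [mem_Icc] at hn
      rw [mem_range]
      have := Nat.lt_mul_div_succ N (show 0 < A by omega)
      omega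
    · intro n _ _
      exact ind_nonneg V n
  rw [hfull] at h1
  refine h1.trans ?_
  have hd1 : dv V A ≤ 1 := by
    unfold dv
    rw [div_le_one hA0]
    exact_mod_cast (card_filter_le _ _).trans (by rw [card_range])
  have hd0 : 0 ≤ dv V A := by
    unfold dv
    positivity
  have h2 : ((N / A : ℕ) : ℝ) * A ≤ N := by exact_mod_cast Nat.div_mul_le_self N A
  push_cast
  nlinarith

/-- **two point correlations** of a function of `Ω` over a periodic set, at almost all scales -/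
theorem twoB (b : ℕ → ℂ) (hb : ∀ l, ‖b l‖ ≤ 1) (V : ℕ → Prop) (A : ℕ) (hA : 1 ≤ A) (hV : ∀ n, V (n + A) ↔ V n)
    (s R : ℕ) (hR : 1 ≤ R) (δ : ℝ) (hδ : 0 < δ) : ∃ E' : Set ℕ, LZ E' ∧ ∀ N : ℕ, N ∉ E' →
      ‖AvC N (fun n => (ind V n : ℂ) * (b (cardFactors (n + s)) *
        (starRingEnd ℂ) (b (cardFactors (n + s + R)))))‖ ≤ ‖mB b N‖ ^ 2 * dv V A + δ := by
  set b' : ℕ → ℂ := fun l => (starRingEnd ℂ) (b l) with hb'
  have hb'1 : ∀ l, ‖b' l‖ ≤ 1 := fun l => by rw [hb']; simp only; rw [RCLike.norm_conj]; exact hb l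
  have hκ : ∀ n, (ind V (n + A) : ℂ) = (ind V n : ℂ) := fun n => by
    congr 1
    exact ind_at (hV n)
  have h1 := LZ_of_sum (fun N => ‖∑ n ∈ Icc 1 N, (ind V n : ℂ) * b' (cardFactors (n + (s + R))) *
    (b (cardFactors (n + s)) - mB b N)‖) (fun N => norm_nonneg _) (δ / 4) (by positivity) (fun ε hε => by
      obtain ⟨X₀, hX₀⟩ := pair_per s (s + R) (by omega) A hA ε hε
      exact ⟨X₀, fun X hX => hX₀ X hX (fun n => (ind V n : ℂ)) (fun n => ind_norm_le _ _) hκ b' b hb'1 hb⟩)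
  have h2 := LZ_of_sum (fun N => ‖∑ n ∈ Icc 1 N, (ind V n : ℂ) * (fun _ : ℕ => (1 : ℂ)) (cardFactors (n + s)) *
    (b' (cardFactors (n + (s + R))) - mB b' N)‖) (fun N => norm_nonneg _) (δ / 4) (by positivity) (fun ε hε => by
      obtain ⟨X₀, hX₀⟩ := pair_per (s + R) s (by omega) A hA ε hε
      exact ⟨X₀, fun X hX => hX₀ X hX (fun n => (ind V n : ℂ)) (fun n => ind_norm_le _ _) hκ (fun _ => 1) b'
        (fun _ => by simp) hb'1⟩)
  set K : ℕ := ⌈8 / δ⌉₊ + ⌈4 * A / δ⌉₊ + 1 with hK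
  refine ⟨_, LZ_union (LZ_union h1 h2) (LZ_bdd {N | N < K} K fun n hn => hn), fun N hN => ?_⟩
  have hN1 : ¬ (δ / 4 * N < ‖∑ n ∈ Icc 1 N, (ind V n : ℂ) * b' (cardFactors (n + (s + R))) *
    (b (cardFactors (n + s)) - mB b N)‖) := fun h => hN (Or.inl (Or.inl h))
  have hN2 : ¬ (δ / 4 * N < ‖∑ n ∈ Icc 1 N, (ind V n : ℂ) * (fun _ : ℕ => (1 : ℂ)) (cardFactors (n + s)) *
    (b' (cardFactors (n + (s + R))) - mB b' N)‖) := fun h => hN (Or.inl (Or.inr h))
  have hN3 : ¬ (N < K) := fun h => hN (Or.inr h)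
  have hN0 : (0 : ℝ) < N := by exact_mod_cast (by omega : 0 < N)
  have hd1 : 8 / δ ≤ N := (Nat.le_ceil _).trans (by exact_mod_cast (by omega : ⌈8 / δ⌉₊ ≤ N))
  have hd2 : 4 * A / δ ≤ N := (Nat.le_ceil _).trans (by exact_mod_cast (by omega : ⌈4 * A / δ⌉₊ ≤ N))
  rw [div_le_iff₀ hδ] at hd1 hd2
  push Not at hN1 hN2
  set ψ : ℕ → ℂ := fun n => (ind V n : ℂ) * (b (cardFactors (n + s)) *
        (starRingEnd ℂ) (b (cardFactors (n + s + R)))) with hψ
  have hψ1 : ∀ n, ‖ψ n‖ ≤ 1 := by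
    intro n
    rw [hψ]
    simp only
    rw [norm_mul, norm_mul, RCLike.norm_conj]
    calc ‖(ind V n : ℂ)‖ * (‖b (cardFactors (n + s))‖ * ‖b (cardFactors (n + s + R))‖) ≤ 1 * (1 * 1) := by
          gcongr
          · exact ind_norm_le _ _
          · exact hb _
          · exact hb _
      _ = 1 := by norm_num
  have hmB : mB b' N = (starRingEnd ℂ) (mB b N) := by
    unfold Pool.Agent.Y842.QY.mB
    rw [map_div₀, map_sum, map_natCast]
  have hdec : ∑ n ∈ Icc 1 N, ψ n = ∑ n ∈ Icc 1 N, (ind V n : ℂ) * b' (cardFactors (n + (s + R))) *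
      (b (cardFactors (n + s)) - mB b N) + mB b N * ∑ n ∈ Icc 1 N, (ind V n : ℂ) *
        (fun _ : ℕ => (1 : ℂ)) (cardFactors (n + s)) * (b' (cardFactors (n + (s + R))) - mB b' N) +
      (mB b N * mB b' N) * ∑ n ∈ Icc 1 N, (ind V n : ℂ) := by
    rw [mul_sum, mul_sum, ← sum_add_distrib, ← sum_add_distrib]
    refine sum_congr rfl fun n _ => ?_
    rw [hψ, hb']
    simp only
    rw [show n + s + R = n + (s + R) by ring]
    ring
  have hm1 : ‖mB b N‖ ≤ 1 := mB_le b 1 zero_le_one hb N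
  have h3 : ‖∑ n ∈ Icc 1 N, (ind V n : ℂ)‖ ≤ dv V A * N + A := by
    rw [← Complex.ofReal_sum, Complex.norm_real, Real.norm_eq_abs,
      abs_of_nonneg (sum_nonneg fun n _ => ind_nonneg V n)]
    exact dens_V V A hA hV N
  have h4 : ‖∑ n ∈ Icc 1 N, ψ n‖ ≤ δ / 4 * N + δ / 4 * N + ‖mB b N‖ ^ 2 * (dv V A * N + A) := by
    rw [hdec]
    refine (norm_add_le _ _).trans (add_le_add ((norm_add_le _ _).trans (add_le_add hN1 ?_)) ?_)
    · rw [norm_mul]
      calc ‖mB b N‖ * _ ≤ 1 * (δ / 4 * N) := mul_le_mul hm1 hN2 (norm_nonneg _) zero_le_one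
        _ = δ / 4 * N := one_mul _
    · rw [norm_mul, norm_mul, hmB, RCLike.norm_conj, ← pow_two]
      exact mul_le_mul_of_nonneg_left h3 (by positivity)
  have h5 : ‖AvC N ψ‖ * N ≤ ‖∑ n ∈ Icc 1 N, ψ n‖ + 2 := by
    unfold Pool.Agent.Y958.E.AvC
    rw [norm_div, Complex.norm_natCast, div_mul_cancel₀ _ hN0.ne']
    have e : ∑ n ∈ range N, ψ n = ∑ n ∈ Icc 1 N, ψ n + (ψ 0 - ψ N) := by
      have e1 := sum_range_succ ψ N
      have e2 := sum_range_succ' ψ N
      have e3 : ∑ n ∈ range N, ψ (n + 1) = ∑ n ∈ Icc 1 N, ψ n := by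
        rw [range_eq_Ico, sum_Ico_add' ψ 0 N 1]
        apply sum_congr _ (fun _ _ => rfl)
        ext n
        simp only [mem_Ico, mem_Icc]
        omega
      rw [e3] at e2
      rw [e1] at e2
      linear_combination e2
    rw [e]
    have h6 := norm_add_le (∑ n ∈ Icc 1 N, ψ n) (ψ 0 - ψ N)
    have h7 := norm_sub_le (ψ 0) (ψ N)
    have h8 := hψ1 0
    have h9 := hψ1 N
    linarith
  have h6 : ‖mB b N‖ ^ 2 * (A : ℝ) ≤ 1 * A :=
    mul_le_mul_of_nonneg_right (pow_le_one₀ (norm_nonneg _) hm1) (Nat.cast_nonneg _)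
  have h7 : ‖AvC N ψ‖ * N ≤ (‖mB b N‖ ^ 2 * dv V A + δ) * N := by
    have h8 : ‖mB b N‖ ^ 2 * (dv V A * N + A) = ‖mB b N‖ ^ 2 * dv V A * N + ‖mB b N‖ ^ 2 * A := by ring
    rw [h8] at h4
    linarith
  exact le_of_mul_le_mul_right h7 hN0

end Pool.Agent.R512.Q
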