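import Pool.Agent.R512.Q.Forms2
import Pool.Agent.R512.Q.TwoB

/-!
Library R512.Q (helper512): the main factors: functions of `Ω` with values in the roots of unity, and
completely multiplicative functions.
-/

set_option autoImplicit false

namespace Pool.Agent.R512.Q

open Finset Filter Topology
open Pool.Agent.Y872.L (CM NonPret cm_abs)
open Pool.Agent.Y958.U
open Pool.Agent.Y958.E
open Pool.Agent.Y958.TC (ind ind_nonneg)
open Pool.Agent.Y842.QY (mB mB_le mB_up mB_scale zmean)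
open ArithmeticFunction (cardFactors)

/-- the means of the shifted functions of `Ω` -/
lemma mB_shift (j : ℕ) (σ : ℝ) (hσ : 0 < σ) : ∃ N₀ : ℕ, ∀ b : ℕ → ℂ, (∀ l, ‖b l‖ ≤ 1) → ∀ N : ℕ, N₀ ≤ N →
    ‖mB (fun l => b (l - j)) N - mB b N‖ ≤ σ := by
  induction j generalizing σ with
  | zero => exact ⟨0, fun b hb N _ => by simpa using hσ.le⟩
  | succ j ih =>
    obtain ⟨N₁, h1⟩ := ih (σ / 2) (by positivity)
    obtain ⟨N₂, h2⟩ := mB_up (σ / 2) (by positivity)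
    refine ⟨N₁ + N₂, fun b hb N hN => ?_⟩
    have h3 := h1 b hb N (by omega)
    have h4 := h2 (fun l => b (l - (j + 1))) (fun l => hb _) N (by omega)
    have e : (fun l : ℕ => (fun l => b (l - (j + 1))) (l + 1)) = fun l => b (l - j) := by
      funext l
      show b (l + 1 - (j + 1)) = b (l - j)
      rw [Nat.add_sub_add_right]
    rw [e] at h4
    have h5 := norm_sub_le_norm_sub_add_norm_sub (mB (fun l => b (l - (j + 1))) N) (mB (fun l => b (l - j)) N)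
      (mB b N)
    linarith

/-- completely multiplicative functions with values in the roots of unity -/
structure CR (r : ℕ) (f : ℕ → ℂ) : Prop where
  pow : ∀ n, f n ^ r = 1
  mul : ∀ a b, a ≠ 0 → b ≠ 0 → f (a * b) = f a * f b

/-- **functions of `Ω`** with values in the roots of unity, times completely multiplicative functions -/
theorem mf_Om (m q : ℕ) (hq : q.Prime) (hm : 1 ≤ m) (hqm : q ∣ m) (b : ℕ → ℂ) (hb : ∀ l, b l ^ m = 1)
    (f₀ : ℕ → ℂ) (hf₀ : CR (m / q) f₀) (δ₁ : ℝ) (hδ₁ : 0 < δ₁) (hδ₁' : δ₁ ≤ 1) :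
    MF m (m / q) (δ₁ / 4) {N | ‖mB (fun l => b l ^ (m / q)) N‖ ≤ 1 - δ₁} (fun n => b (cardFactors n) * f₀ n) := by
  set r : ℕ := m / q with hr
  have hr1 : 1 ≤ r := Nat.div_pos (Nat.le_of_dvd hm hqm) hq.pos
  have hrq : r * q = m := Nat.div_mul_cancel hqm
  have hb1 : ∀ l, ‖b l‖ = 1 := fun l => ru_norm (by omega) (hb l)
  have hf1 : ∀ n, ‖f₀ n‖ = 1 := fun n => ru_norm (by omega) (hf₀.pow n)
  have hfm : ∀ n, f₀ n ^ m = 1 := fun n => by rw [← hrq, pow_mul, hf₀.pow, one_pow]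
  refine ⟨fun n => by rw [norm_mul, hb1, hf1, one_mul], fun t ht => ?_⟩
  refine ⟨fun n => b (cardFactors n - cardFactors t) * f₀ n,
    fun n => b (cardFactors n - cardFactors t - 1) * f₀ n, f₀ t, f₀, fun n => ?_, fun n => ?_, hf1 t,
    fun n hn => ?_, hf1, fun p n hp hn hpn => ?_, fun V A hA hV hdv s' R hR => ?_⟩
  · rw [mul_pow, hb, hfm, one_mul]
  · rw [norm_mul, hb1, hf1, one_mul]
  · show b (cardFactors (t * n) - cardFactors t) * f₀ (t * n) = f₀ t * (b (cardFactors n) * f₀ n)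
    rw [ArithmeticFunction.cardFactors_mul (by omega) hn, Nat.add_sub_cancel_left, hf₀.mul t n (by omega) hn]
    ring
  · show b (cardFactors (p * n) - cardFactors t - 1) * f₀ (p * n) = f₀ p * (b (cardFactors n - cardFactors t) * f₀ n)
    rw [ArithmeticFunction.cardFactors_mul hp.ne_zero hn, ArithmeticFunction.cardFactors_apply_prime hp,
      hf₀.mul p n hp.ne_zero hn]
    have e : 1 + cardFactors n - cardFactors t - 1 = cardFactors n - cardFactors t := by omega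
    rw [e]
    ring
  · set β : ℕ → ℂ := fun l => b l ^ r with hβ
    have hβ1 : ∀ l, ‖β l‖ ≤ 1 := fun l => by rw [hβ]; simp only; rw [norm_pow, hb1, one_pow]
    set j : ℕ := cardFactors t + 1 with hj
    obtain ⟨E', hE'Z, hE'⟩ := twoB (fun l => β (l - j)) (fun l => hβ1 _) V A hA hV s' R hR (δ₁ / 4 * dv V A)
      (by positivity)
    refine ⟨E', hE'Z, fun W => ?_⟩
    obtain ⟨N₁, h1⟩ := mB_scale (δ₁ / 8) (1 / ((W : ℝ) + 1)) (by positivity) (by positivity)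
    obtain ⟨N₂, h2⟩ := mB_shift j (δ₁ / 8) (by positivity)
    refine ⟨N₁ + N₂, fun N hNS hN M hNM hMW hME => ?_⟩
    have h3 := h1 β hβ1 M N (by omega) (by
      rw [one_div, inv_mul_le_iff₀ (by positivity)]
      have h4 : (M : ℝ) ≤ W * N := by exact_mod_cast hMW
      have h5 : (0 : ℝ) ≤ N := Nat.cast_nonneg _
      linarith) hNM
    have h4 := h2 β hβ1 M (by omega)
    have h5 : ‖mB β N‖ ≤ 1 - δ₁ := hNS
    have h6 : ‖mB (fun l => β (l - j)) M‖ ≤ 1 - δ₁ / 2 := by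
      have h7 := norm_sub_norm_le (mB (fun l => β (l - j)) M) (mB β M)
      have h8 := norm_sub_norm_le (mB β M) (mB β N)
      linarith
    have h7 := hE' M hME
    have h8 : ‖mB (fun l => β (l - j)) M‖ ^ 2 ≤ 1 - δ₁ / 2 := by
      have h9 := norm_nonneg (mB (fun l => β (l - j)) M)
      nlinarith
    have e1 : ∀ n, (b (cardFactors n - cardFactors t - 1) * f₀ n) ^ r = β (cardFactors n - j) := by
      intro n
      rw [mul_pow, hf₀.pow, mul_one, hβ, hj, Nat.sub_sub]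
    simp only [e1]
    refine h7.trans ?_
    have h9 : ‖mB (fun l => β (l - j)) M‖ ^ 2 * dv V A ≤ (1 - δ₁ / 2) * dv V A :=
      mul_le_mul_of_nonneg_right h8 hdv.le
    linarith

/-- shifts of averages -/
lemma avC_shift (M s' : ℕ) (ψ : ℕ → ℂ) (h : ∀ n, ‖ψ n‖ ≤ 1) :
    ‖AvC M (fun n => ψ (n + s'))‖ * M ≤ ‖AvC M ψ‖ * M + 2 * s' := by
  rcases Nat.eq_zero_or_pos M with hM | hM
  · rw [hM]
    simp
  have hM0 : (0 : ℝ) < M := by exact_mod_cast hM
  unfold AvC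
  rw [norm_div, norm_div, Complex.norm_natCast, div_mul_cancel₀ _ hM0.ne', div_mul_cancel₀ _ hM0.ne']
  have e : ∑ n ∈ range M, ψ (n + s') = ∑ n ∈ range M, ψ n + (∑ n ∈ range s', ψ (M + n) - ∑ n ∈ range s', ψ n) := by
    have e1 := sum_range_add ψ M s'
    have e2 := sum_range_add ψ s' M
    rw [Nat.add_comm s' M, e1] at e2
    have e3 : ∑ n ∈ range M, ψ (n + s') = ∑ n ∈ range M, ψ (s' + n) := by
      refine sum_congr rfl fun n _ => ?_
      rw [Nat.add_comm]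
    rw [e3]
    linear_combination -e2
  rw [e]
  have h1 : ‖∑ n ∈ range s', ψ (M + n)‖ ≤ s' := by
    refine (norm_sum_le _ _).trans ((sum_le_sum fun n _ => h _).trans (le_of_eq ?_))
    simp
  have h2 : ‖∑ n ∈ range s', ψ n‖ ≤ s' := by
    refine (norm_sum_le _ _).trans ((sum_le_sum fun n _ => h _).trans (le_of_eq ?_))
    simp
  have h3 := norm_add_le (∑ n ∈ range M, ψ n) (∑ n ∈ range s', ψ (M + n) - ∑ n ∈ range s', ψ n)
  have h4 := norm_sub_le (∑ n ∈ range s', ψ (M + n)) (∑ n ∈ range s', ψ n)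
  linarith

/-- **completely multiplicative functions** such that a power is real and pretends to be no real character -/
theorem mf_real (m r : ℕ) (hm : 1 ≤ m) (f : ℕ → ℂ) (hf : CR m f) (s : ℕ → ℤ) (hs : CM s) (hn : NonPret s)
    (hfs : ∀ n, n ≠ 0 → f n ^ r = ((s n : ℤ) : ℂ)) : MF m r (1 / 2) Set.univ f := by
  have hf1 : ∀ n, ‖f n‖ = 1 := fun n => ru_norm (by omega) (hf.pow n)
  refine ⟨hf1, fun t ht => ⟨f, f, f t, f, hf.pow, fun n => (hf1 n).le, hf1 t, fun n hn => hf.mul t n (by omega) hn,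
    hf1, fun p n hp hn _ => hf.mul p n hp.ne_zero hn, fun V A hA hV hdv s' R hR => ?_⟩⟩
  have hφ1 : ∀ n, ‖f n ^ r‖ = 1 := fun n => by rw [norm_pow, hf1, one_pow]
  have h1 := twoR hs hn (fun n => f n ^ r) hfs hφ1 V A hA hV R hR (dv V A / 4) (by positivity)
  set K : ℕ := ⌈8 * s' / dv V A⌉₊ + 1 with hK
  refine ⟨_, LZ_union h1 (LZ_bdd {N | N < K} K fun n hn => hn), fun W => ⟨0, fun N _ _ M _ _ hME => ?_⟩⟩
  have hM1 : M ∉ E2C (fun n => f n ^ r) V A R (dv V A / 4) := fun h => hME (Or.inl h)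
  have hM2 : ¬ (M < K) := fun h => hME (Or.inr h)
  have hM0 : (0 : ℝ) < M := by exact_mod_cast (by omega : 0 < M)
  have hMK : 8 * s' / dv V A ≤ M := (Nat.le_ceil _).trans (by exact_mod_cast (by omega : ⌈8 * s' / dv V A⌉₊ ≤ M))
  rw [div_le_iff₀ hdv] at hMK
  -- the residue
  have hA0 : 0 < A := by omega
  set a : ℕ := (A - s' % A) % A with ha
  have haA : a < A := Nat.mod_lt _ hA0
  have hdvd : A ∣ s' + a := by
    have h2 : s' % A < A := Nat.mod_lt _ hA0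
    rw [ha]
    by_cases h3 : s' % A = 0
    · rw [h3, Nat.sub_zero, Nat.mod_self, add_zero]
      exact Nat.dvd_of_mod_eq_zero h3
    · rw [Nat.mod_eq_of_lt (by omega)]
      have h4 := Nat.div_add_mod s' A
      refine ⟨s' / A + 1, ?_⟩
      rw [mul_add, mul_one]
      omega
  set ψ : ℕ → ℂ := fun n => (ind V (n + a) : ℂ) * (f n ^ r * (starRingEnd ℂ) (f (n + R) ^ r)) with hψ
  have hψ1 : ∀ n, ‖ψ n‖ ≤ 1 := by
    intro n
    rw [hψ]
    simp only
    rw [norm_mul, norm_mul, RCLike.norm_conj, hφ1, hφ1, mul_one, mul_one]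
    exact ind_norm_le _ _
  have h2 : ‖AvC M ψ‖ ≤ dv V A / 4 := by
    by_contra hcon
    exact hM1 ⟨a, mem_range.2 haA, not_le.1 hcon⟩
  have h3 := avC_shift M s' ψ hψ1
  have e : (fun n => ψ (n + s')) = fun n => (ind V n : ℂ) * (f (n + s') ^ r *
      (starRingEnd ℂ) (f (n + s' + R) ^ r)) := by
    funext n
    rw [hψ]
    simp only
    congr 2
    apply ind_at
    apply V_congr hV
    obtain ⟨k, hk⟩ := hdvd
    rw [add_assoc, hk]
    exact (Nat.modEq_iff_dvd' (by omega)).2 ⟨k, by omega⟩ |>.symm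
  rw [e] at h3
  have h4 : ‖AvC M ψ‖ * M ≤ dv V A / 4 * M := mul_le_mul_of_nonneg_right h2 hM0.le
  have h5 : ‖AvC M (fun n => (ind V n : ℂ) * (f (n + s') ^ r * (starRingEnd ℂ) (f (n + s' + R) ^ r)))‖ * M ≤
      ((1 - 1 / 2) * dv V A) * M := by
    linarith
  exact le_of_mul_le_mul_right h5 hM0

/-- finite pretentious distance from `f χ n ^ (i t)` for some Dirichlet character `χ` and real `t` -/
def PretC (f : ℕ → ℂ) (g : ℕ → ℂ) : Prop := ∃ (q : ℕ) (χ : DirichletCharacter ℂ q) (t : ℝ), 1 ≤ q ∧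
  Summable (fun p : Nat.Primes => (1 - (g p * (starRingEnd ℂ) (f p *
    χ ((p : ℕ) : ZMod q) * nit t p)).re) / ((p : ℕ) : ℝ))

lemma bm_cr {r : ℕ} (hr : r ≠ 0) {f : ℕ → ℂ} (hf : CR r f) {g : ℕ → ℂ} (hg : BM g) :
    BM (fun n => (starRingEnd ℂ) (f n) * g n) := by
  have hfn : ∀ n, ‖f n‖ = 1 := fun n => ru_norm hr (hf.pow n)
  refine ⟨fun n => ?_, fun m n hm hn hmn => ?_⟩
  · rw [norm_mul, RCLike.norm_conj, hfn, one_mul]
    exact hg.1 n
  · show (starRingEnd ℂ) (f (m * n)) * g (m * n) = (starRingEnd ℂ) (f m) * g m * ((starRingEnd ℂ) (f n) * g n)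
    rw [hg.2 m n hm hn hmn, hf.mul m n (by omega) (by omega), map_mul]
    ring

lemma ap_ofC {r : ℕ} (hr : r ≠ 0) {f : ℕ → ℂ} (hf : CR r f) {g : ℕ → ℂ} (hg : BM g) (h : PretC f g) :
    ∃ t : ℝ, AP (fun n => (starRingEnd ℂ) (f n) * (g n * (starRingEnd ℂ) (nit t n))) := by
  obtain ⟨q', χ, t, hq, hs⟩ := h
  refine ⟨t, Pool.Agent.Y681.E.Apx2.apx2 q' hq χ _ (bm_cr hr hf (bm_tw hg t)) ?_⟩
  refine hs.congr fun p => ?_
  congr 3
  rw [map_mul, map_mul]
  ring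

/-- **main factor a function of `Ω`** times a multiplicative function: at the scales `N` at which the `r`-th
power of the function of `Ω` is not nearly constant -/
theorem finOm (m q : ℕ) (hq : q.Prime) (hm0 : 1 ≤ m) (hqm : q ∣ m) (δ₁ : ℝ) (hδ₁ : 0 < δ₁) (hδ₁' : δ₁ ≤ 1) :
    ∃ c : ℕ → ℝ, (∀ k, 0 < c k) ∧ (∀ k, c k < 1) ∧
    ∀ (k : ℕ) (a b : Fin k → ℕ), (∀ i, 1 ≤ a i) →
    (∀ i j, i ≠ j → a i * b j ≠ a j * b i) → ∀ (j : Fin k) (g : Fin k → ℕ → ℂ), (∀ i, i ≠ j → OM (g i)) →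
    ∀ (β : ℕ → ℂ), (∀ l, β l ^ m = 1) → ∀ f₀ : ℕ → ℂ, CR (m / q) f₀ → ∀ h : ℕ → ℂ, BM h → PretC f₀ h →
    (∀ n, g j n = β (cardFactors n) * h n) →
    (∃ 𝓔 : Set ℕ, LZ 𝓔 ∧ ∀ ε : ℝ, 0 < ε → ∃ N₀ : ℕ, ∀ N : ℕ, N₀ ≤ N → ‖mB (fun l => β l ^ (m / q)) N‖ ≤ 1 - δ₁ →
      N ∉ 𝓔 → ‖∑ n ∈ Icc 1 N, ∏ i, g i (a i * n + b i)‖ ≤
        (1 - c k) * ∑ n ∈ Icc 1 N, ‖g j (a j * n + b j)‖ + ε * N) ∧
    (LZ {N | ‖mB (fun l => β l ^ (m / q)) N‖ ≤ 1 - δ₁}ᶜ → ∀ ε : ℝ, 0 < ε → ∃ N₀ : ℕ, ∀ N : ℕ, N₀ ≤ N →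
      ‖∑ n ∈ Icc 1 N, (∏ i, g i (a i * n + b i)) / n‖ ≤
        (1 - c k) * ∑ n ∈ Icc 1 N, ‖g j (a j * n + b j)‖ / n + ε * Real.log N) := by
  obtain ⟨c, hc0, hc1, hF⟩ := finQ m q hq hm0 hqm (δ₁ / 4) (by positivity) (by linarith)
  refine ⟨c, hc0, hc1, fun k a b ha hab j g hg β hβ f₀ hf₀ h hh hPr hgj => ?_⟩
  have hr1 : 1 ≤ m / q := Nat.div_pos (Nat.le_of_dvd hm0 hqm) hq.pos
  have hβ1 : ∀ l, ‖β l‖ = 1 := fun l => ru_norm (by omega) (hβ l)
  obtain ⟨t, ht⟩ := ap_ofC (by omega) hf₀ hh hPr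
  have hOMj : OM (g j) := by
    have h1 := sig_OM 0 (fun _ s => β s.sum) (fun _ s => (hβ1 _).le) h hh
    have e : g j = fun n => (fun (_ : ℕ) (s : Multiset ℕ) => β s.sum) (sm 0 n) (sig n) * h n := by
      funext n
      show g j n = β (sig n).sum * h n
      rw [hgj]
      congr 2
      rw [ArithmeticFunction.cardFactors_eq_sum_factorization]
      unfold sig Finsupp.sum
      rw [Nat.support_factorization]
      rfl
    rw [e]
    exact h1
  have hg' : ∀ i, OM (g i) := by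
    intro i
    by_cases hij : i = j
    · rw [hij]; exact hOMj
    · exact hg i hij
  have h1 := hF k a b ha hab g hg' j _ (fun n => β (cardFactors n) * f₀ n)
    (mf_Om m q hq hm0 hqm β hβ f₀ hf₀ δ₁ hδ₁ hδ₁') t (by
      refine (congrArg AP ?_).mpr ht
      funext n
      rw [hgj, map_mul]
      have h2 := conj_mul_one (hβ1 (cardFactors n))
      linear_combination ((starRingEnd ℂ) (f₀ n) * (h n * (starRingEnd ℂ) (nit t n))) * h2)
  exact h1

end Pool.Agent.R512.Q
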