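import Pool.Agent.R512.Q.Inst

/-!
Library R512.Q (helper512): main factors near completely multiplicative functions with values in the roots of
unity.
-/

set_option autoImplicit false

namespace Pool.Agent.R512.Q

open Finset Filter Topology
open Pool.Agent.Y872.L (CM NonPret cm_abs)
open Pool.Agent.Y958.U
open Pool.Agent.Y958.E
open Pool.Agent.Y842.QY (mB mB_le zmean)
open ArithmeticFunction (cardFactors)

/-- the two kinds of completely multiplicative functions with values in the roots of unity of order `r * q` -/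
def Kind (r q : ℕ) (f : ℕ → ℂ) : Prop := CR (r * q) f ∧
  ((∃ w : ℂ, w ^ q = 1 ∧ w ≠ 1 ∧ ∀ p : ℕ, p.Prime → f p ^ r = w) ∨
    ∃ s : ℕ → ℤ, CM s ∧ NonPret s ∧ ∀ n, n ≠ 0 → f n ^ r = ((s n : ℤ) : ℂ))

lemma cr_Om {r : ℕ} {f : ℕ → ℂ} {M : ℕ} (hM : M ≠ 0) (hf : CR M f) {w : ℂ} (hw : ∀ p : ℕ, p.Prime → f p ^ r = w) :
    ∀ n, n ≠ 0 → f n ^ r = w ^ cardFactors n := by
  intro n
  induction n using Nat.recOnMul with
  | zero => intro h; exact absurd rfl h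
  | one =>
    intro _
    have h1 := hf.mul 1 1 one_ne_zero one_ne_zero
    rw [one_mul] at h1
    have h2 : f 1 ≠ 0 := ru_ne hM (hf.pow 1)
    have h3 : f 1 = 1 := by
      have : f 1 * (f 1 - 1) = 0 := by linear_combination -h1
      rcases mul_eq_zero.1 this with h | h
      · exact absurd h h2
      · exact sub_eq_zero.1 h
    rw [h3, ArithmeticFunction.cardFactors_one]
    simp
  | prime p hp =>
    intro _
    rw [hw p hp, ArithmeticFunction.cardFactors_apply_prime hp, pow_one]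
  | mul a b ha hb =>
    intro hab
    have ha0 : a ≠ 0 := left_ne_zero_of_mul hab
    have hb0 : b ≠ 0 := right_ne_zero_of_mul hab
    rw [hf.mul a b ha0 hb0, mul_pow, ha ha0, hb hb0, ArithmeticFunction.cardFactors_mul ha0 hb0, pow_add]

lemma PretC_congr {f f' g : ℕ → ℂ} (h : ∀ n, n ≠ 0 → f n = f' n) (hg : PretC f g) : PretC f' g := by
  obtain ⟨q, χ, t, hq, hs⟩ := hg
  refine ⟨q, χ, t, hq, hs.congr fun p => ?_⟩
  rw [h _ p.2.ne_zero]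

/-- **main factor near a completely multiplicative function** -/
theorem finB (r q : ℕ) (hr : 1 ≤ r) (hq : q.Prime) :
    ∃ c : ℕ → ℝ, (∀ k, 0 < c k) ∧ (∀ k, c k < 1) ∧
    ∀ (k : ℕ) (a b : Fin k → ℕ), (∀ i, 1 ≤ a i) →
    (∀ i j, i ≠ j → a i * b j ≠ a j * b i) → ∀ (j : Fin k) (g : Fin k → ℕ → ℂ), (∀ i, i ≠ j → OM (g i)) →
    BM (g j) → ∀ f : ℕ → ℂ, Kind r q f → PretC f (g j) →
    (∃ 𝓔 : Set ℕ, LZ 𝓔 ∧ ∀ ε : ℝ, 0 < ε → ∃ N₀ : ℕ, ∀ N : ℕ, N₀ ≤ N →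
      (N ∉ 𝓔 → ‖∑ n ∈ Icc 1 N, ∏ i, g i (a i * n + b i)‖ ≤
        (1 - c k) * ∑ n ∈ Icc 1 N, ‖g j (a j * n + b j)‖ + ε * N) ∧
      ‖∑ n ∈ Icc 1 N, (∏ i, g i (a i * n + b i)) / n‖ ≤
        (1 - c k) * ∑ n ∈ Icc 1 N, ‖g j (a j * n + b j)‖ / n + ε * Real.log N) := by
  have hm0 : 1 ≤ r * q := Nat.mul_pos hr hq.pos
  have hqm : q ∣ r * q := Dvd.intro_left _ rfl
  have hdiv : r * q / q = r := Nat.mul_div_cancel _ hq.pos
  obtain ⟨c₁, hc10, hc11, hF1⟩ := finQ (r * q) q hq hm0 hqm (1 / 2 / 4) (by norm_num) (by norm_num)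
  obtain ⟨c₂, hc20, hc21, hF2⟩ := finQ (r * q) q hq hm0 hqm (1 / 2) (by norm_num) (by norm_num)
  rw [hdiv] at hF1 hF2
  refine ⟨fun k => min (c₁ k) (c₂ k), fun k => lt_min (hc10 k) (hc20 k), fun k => (min_le_left _ _).trans_lt (hc11 k),
    fun k a b ha hab j g hg hgj f hf hPr => ?_⟩
  have hg' : ∀ i, OM (g i) := by
    intro i
    by_cases hij : i = j
    · rw [hij]; exact BM_OM hgj
    · exact hg i hij
  -- the common part
  have key : ∀ c : ℝ, min (c₁ k) (c₂ k) ≤ c → ∀ S : Set ℕ, (∃ K : ℕ, ∀ N, K ≤ N → N ∈ S) →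
      ((∃ 𝓔 : Set ℕ, LZ 𝓔 ∧ ∀ ε : ℝ, 0 < ε → ∃ N₀ : ℕ, ∀ N : ℕ, N₀ ≤ N → N ∈ S → N ∉ 𝓔 →
        ‖∑ n ∈ Icc 1 N, ∏ i, g i (a i * n + b i)‖ ≤
          (1 - c) * ∑ n ∈ Icc 1 N, ‖g j (a j * n + b j)‖ + ε * N) ∧
      (LZ Sᶜ → ∀ ε : ℝ, 0 < ε → ∃ N₀ : ℕ, ∀ N : ℕ, N₀ ≤ N →
        ‖∑ n ∈ Icc 1 N, (∏ i, g i (a i * n + b i)) / n‖ ≤
          (1 - c) * ∑ n ∈ Icc 1 N, ‖g j (a j * n + b j)‖ / n + ε * Real.log N)) →
      (∃ 𝓔 : Set ℕ, LZ 𝓔 ∧ ∀ ε : ℝ, 0 < ε → ∃ N₀ : ℕ, ∀ N : ℕ, N₀ ≤ N →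
      (N ∉ 𝓔 → ‖∑ n ∈ Icc 1 N, ∏ i, g i (a i * n + b i)‖ ≤
        (1 - min (c₁ k) (c₂ k)) * ∑ n ∈ Icc 1 N, ‖g j (a j * n + b j)‖ + ε * N) ∧
      ‖∑ n ∈ Icc 1 N, (∏ i, g i (a i * n + b i)) / n‖ ≤
        (1 - min (c₁ k) (c₂ k)) * ∑ n ∈ Icc 1 N, ‖g j (a j * n + b j)‖ / n + ε * Real.log N) := by
    intro c hc S hS h
    obtain ⟨K, hK⟩ := hS
    obtain ⟨⟨𝓔, h𝓔, h1⟩, h2⟩ := h
    refine ⟨𝓔, h𝓔, fun ε hε => ?_⟩
    obtain ⟨N₁, hN₁⟩ := h1 ε hε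
    obtain ⟨N₂, hN₂⟩ := h2 (LZ_bdd _ K fun n hn => by
      by_contra hcon
      exact hn (hK n (not_lt.1 hcon))) ε hε
    refine ⟨N₁ + N₂ + K, fun N hN => ⟨fun hNE => ?_, ?_⟩⟩
    · refine (hN₁ N (by omega) (hK N (by omega)) hNE).trans (add_le_add ?_ le_rfl)
      exact mul_le_mul_of_nonneg_right (by linarith) (sum_nonneg fun n _ => norm_nonneg _)
    · refine (hN₂ N (by omega)).trans (add_le_add ?_ le_rfl)
      exact mul_le_mul_of_nonneg_right (by linarith) (sum_nonneg fun n _ => by positivity)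
  obtain ⟨hfC, hf | hf⟩ := hf
  · obtain ⟨w, hwq, hw1, hw⟩ := hf
    obtain ⟨w₀, hw₀⟩ := IsAlgClosed.exists_pow_nat_eq w (show 0 < r by omega)
    have hw₀m : w₀ ^ (r * q) = 1 := by rw [pow_mul, hw₀, hwq]
    have hw₀1 : ‖w₀‖ = 1 := ru_norm (by omega) hw₀m
    have hfw := cr_Om (by omega) hfC hw
    set f₀ : ℕ → ℂ := fun n => if n = 0 then 1 else f n * (starRingEnd ℂ) (w₀ ^ cardFactors n) with hf₀
    have hpw : ∀ l : ℕ, ‖w₀ ^ l‖ = 1 := fun l => by rw [norm_pow, hw₀1, one_pow]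
    have hf₀C : CR r f₀ := by
      refine ⟨fun n => ?_, fun a b ha hb => ?_⟩
      · simp only [hf₀]
        split_ifs with hn
        · exact one_pow _
        · rw [mul_pow, hfw n hn, ← map_pow, ← pow_mul, mul_comm (cardFactors n) r, pow_mul, hw₀]
          apply conj_mul_one
          rw [norm_pow, ru_norm hq.ne_zero hwq, one_pow]
      · simp only [hf₀]
        rw [if_neg (Nat.mul_ne_zero ha hb), if_neg ha, if_neg hb, hfC.mul a b ha hb,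
          ArithmeticFunction.cardFactors_mul ha hb, pow_add, map_mul]
        ring
    set f' : ℕ → ℂ := fun n => w₀ ^ cardFactors n * f₀ n with hf'
    have hff' : ∀ n, n ≠ 0 → f n = f' n := by
      intro n hn
      simp only [hf', hf₀]
      rw [if_neg hn]
      have h1 := conj_mul_one (hpw (cardFactors n))
      linear_combination (-f n) * h1
    have hf'C : CR (r * q) f' := by
      refine ⟨fun n => ?_, fun a b ha hb => ?_⟩
      · simp only [hf']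
        rw [mul_pow, ← pow_mul, mul_comm (cardFactors n) (r * q), pow_mul, hw₀m, one_pow, one_mul, pow_mul,
          hf₀C.pow, one_pow]
      · rw [← hff' _ (Nat.mul_ne_zero ha hb), ← hff' _ ha, ← hff' _ hb, hfC.mul a b ha hb]
    obtain ⟨t, ht⟩ := ap_ofC (by omega) hf'C hgj (PretC_congr hff' hPr)
    have hMF := mf_Om (r * q) q hq hm0 hqm (fun l => w₀ ^ l)
      (fun l => by rw [← pow_mul, mul_comm l, pow_mul, hw₀m, one_pow]) f₀ (by rw [hdiv]; exact hf₀C) (1 / 2)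
      (by norm_num) (by norm_num)
    rw [hdiv] at hMF
    refine key (c₁ k) (min_le_left _ _) _ ?_ (hF1 k a b ha hab g hg' j _ _ hMF t ht)
    obtain ⟨K, hK⟩ := zmean ‖w - 1‖ (1 / 2) (norm_pos_iff.2 (sub_ne_zero.2 hw1)) (by norm_num)
    refine ⟨K, fun N hN => ?_⟩
    have h1 := hK w (ru_norm hq.ne_zero hwq).le le_rfl N hN
    show ‖mB (fun l => (w₀ ^ l) ^ r) N‖ ≤ 1 - 1 / 2
    have e : (fun l : ℕ => (w₀ ^ l) ^ r) = fun l => w ^ l := by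
      funext l
      rw [← pow_mul, mul_comm l r, pow_mul, hw₀]
    rw [e]
    linarith
  · obtain ⟨s, hs, hsn, hfs⟩ := hf
    obtain ⟨t, ht⟩ := ap_ofC (by omega) hfC hgj hPr
    refine key (c₂ k) (min_le_right _ _) Set.univ ⟨0, fun N _ => trivial⟩
      (hF2 k a b ha hab g hg' j Set.univ f (mf_real (r * q) r hm0 f hfC s hs hsn hfs) t ht)

end Pool.Agent.R512.Q
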