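import Pool.Agent.R512.Q.Alg
import Pool.Agent.Y958.U.Pol
import Pool.Agent.Y958.U.Aux1
import Pool.Agent.Y958.E.Fixed

/-!
Library R512.Q (helper512): relations for means attached to Laurent polynomials over `ZMod q`, functions with
values in the roots of unity of order `q` (after `Pool.Agent.Y958.U.Pol`, the case `q = 2`).
-/

set_option autoImplicit false

namespace Pool.Agent.R512.Q

open Finset Filter Topology
open Pool.Agent.TH112.BL (Bd)
open Pool.Agent.Y958.TC (NM ind Bd_ind ind_nonneg m_class m_sum m_shift Av um um_tendsto)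
open Pool.Agent.Y958.U (ind_at m_ind_mono m_ind_or V_congr LZ)
open Pool.Agent.Y958.E (AvC)

/-- values in the roots of unity of order `q` -/
def RU (q : ℕ) (φ : ℤ → ℂ) : Prop := ∀ n, φ n ^ q = 1

lemma ru_norm {q : ℕ} (hq : q ≠ 0) {z : ℂ} (h : z ^ q = 1) : ‖z‖ = 1 := by
  have h1 : ‖z‖ ^ q = 1 := by rw [← norm_pow, h, norm_one]
  exact (pow_eq_one_iff_of_nonneg (norm_nonneg z) hq).1 h1

lemma ru_ne {q : ℕ} (hq : q ≠ 0) {z : ℂ} (h : z ^ q = 1) : z ≠ 0 := by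
  rintro rfl
  rw [zero_pow hq] at h
  exact zero_ne_one h

lemma ru_conj {q : ℕ} (hq : q ≠ 0) {z : ℂ} (h : z ^ q = 1) : z⁻¹ = (starRingEnd ℂ) z := by
  rw [Complex.inv_def, Complex.normSq_eq_norm_sq, ru_norm hq h]
  simp

/-- product of the values of `φ (n + y)` with the exponents given by the coefficients -/
noncomputable def Ph {q : ℕ} (φ : ℤ → ℂ) (g : LP q) (n : ℤ) : ℂ :=
  g.coeff.prod (fun y c => φ (n + y) ^ c.val)

section
variable {q : ℕ} [hq : Fact q.Prime] {φ : ℤ → ℂ} (hφ : RU q φ)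

include hφ in
lemma Ph_add (g g' : LP q) (n : ℤ) : Ph φ (g + g') n = Ph φ g n * Ph φ g' n := by
  unfold Ph
  rw [AddMonoidAlgebra.coeff_add]
  apply Finsupp.prod_add_index'
  · intro y
    rw [ZMod.val_zero, pow_zero]
  · intro y b c
    rw [← pow_add, ZMod.val_add, ← pow_eq_pow_mod _ (hφ (n + y))]

lemma Ph_zero (n : ℤ) : Ph φ (0 : LP q) n = 1 := by
  unfold Ph
  exact Finsupp.prod_zero_index

include hφ in
lemma Ph_pow (g : LP q) (n : ℤ) : Ph φ g n ^ q = 1 := by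
  unfold Ph Finsupp.prod
  rw [← prod_pow]
  apply prod_eq_one
  intro y _
  rw [← pow_mul, mul_comm, pow_mul, hφ, one_pow]

include hφ in
lemma Ph_neg (g : LP q) (n : ℤ) : Ph φ (-g) n = (Ph φ g n)⁻¹ := by
  have h1 := Ph_add hφ (-g) g n
  rw [neg_add_cancel, Ph_zero] at h1
  exact eq_inv_of_mul_eq_one_left h1.symm

lemma Ph_single (y n : ℤ) : Ph φ (LaurentPolynomial.T y : LP q) n = φ (n + y) := by
  unfold Ph
  have e : (LaurentPolynomial.T y : LP q).coeff = Finsupp.single y 1 := rfl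
  rw [e, Finsupp.prod_single_index (by rw [ZMod.val_zero, pow_zero])]
  haveI : Fact (1 < q) := ⟨hq.out.one_lt⟩
  rw [ZMod.val_one, pow_one]

lemma coeff_T_mul (t : ℤ) (g : LP q) (y : ℤ) : (TT q t * g).coeff y = g.coeff (y - t) := by
  unfold TT LaurentPolynomial.T
  rw [AddMonoidAlgebra.coeff_single_mul_eq_mul_coeff (y - t), one_mul]
  intro m _
  constructor
  · intro h; omega
  · intro h; omega

lemma supp_T_mul (t : ℤ) (g : LP q) :
    (TT q t * g).coeff.support = g.coeff.support.map (addLeftEmbedding t) := by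
  ext y
  rw [Finsupp.mem_support_iff, Finset.mem_map, coeff_T_mul]
  constructor
  · intro h1
    exact ⟨y - t, Finsupp.mem_support_iff.2 h1, by simp [addLeftEmbedding]⟩
  · rintro ⟨z, hz, rfl⟩
    rw [Finsupp.mem_support_iff] at hz
    simpa [addLeftEmbedding] using hz

lemma Ph_T (t : ℤ) (g : LP q) (n : ℤ) : Ph φ (TT q t * g) n = Ph φ g (n + t) := by
  unfold Ph Finsupp.prod
  rw [supp_T_mul, prod_map]
  apply prod_congr rfl
  intro y _
  rw [coeff_T_mul]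
  simp only [addLeftEmbedding, Function.Embedding.coeFn_mk]
  rw [show t + y - t = y by ring, show n + (t + y) = n + t + y by ring]

end

section H

variable {q : ℕ} [hq : Fact q.Prime] (μ : NM) (φ : ℤ → ℂ) (V : ℕ → Prop) (ρ : ℝ)

/-- the relation attached to `g` holds up to an exceptional set of mean `a ρ` -/
def HH (g : LP q) (a : ℕ) : Prop :=
  ∃ σ : ℂ, σ ^ q = 1 ∧ μ.m (ind (fun n => V n ∧ Ph φ g n ≠ σ)) ≤ a * ρ

lemma HH_mono (hρ : 0 ≤ ρ) (g : LP q) (a a' : ℕ) (h : a ≤ a')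
    (h1 : HH μ φ V ρ g a) : HH μ φ V ρ g a' := by
  obtain ⟨σ, hσ, h2⟩ := h1
  refine ⟨σ, hσ, h2.trans ?_⟩
  apply mul_le_mul_of_nonneg_right _ hρ
  exact_mod_cast h

lemma HH_add (hφ : RU q φ) (g g' : LP q) (a a' : ℕ)
    (h : HH μ φ V ρ g a) (h' : HH μ φ V ρ g' a') : HH μ φ V ρ (g + g') (a + a') := by
  obtain ⟨σ, hσ, h2⟩ := h
  obtain ⟨σ', hσ', h2'⟩ := h'
  refine ⟨σ * σ', by rw [mul_pow, hσ, hσ', one_mul], ?_⟩
  push_cast
  rw [add_mul]
  refine le_trans (m_ind_or μ (P := fun n => V n ∧ Ph φ g n ≠ σ)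
    (Q := fun n => V n ∧ Ph φ g' n ≠ σ') ?_) (add_le_add h2 h2')
  rintro n ⟨hV, hn⟩
  by_contra hcon
  push Not at hcon
  apply hn
  rw [Ph_add hφ g g' n, hcon.1 hV, hcon.2 hV]

lemma HH_neg (hφ : RU q φ) (g : LP q) (a : ℕ)
    (h : HH μ φ V ρ g a) : HH μ φ V ρ (-g) a := by
  obtain ⟨σ, hσ, h2⟩ := h
  refine ⟨σ⁻¹, by rw [inv_pow, hσ, inv_one], le_trans (m_ind_mono μ ?_) h2⟩
  rintro n ⟨hV, hn⟩
  refine ⟨hV, fun h => hn ?_⟩
  rw [Ph_neg hφ, h]

lemma HH_T (A : ℕ) (hV : ∀ n, V (n + A) ↔ V n) (g : LP q) (a : ℕ) (t : ℤ)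
    (ht : (A : ℤ) ∣ t) (h : HH μ φ V ρ g a) : HH μ φ V ρ (TT q t * g) a := by
  obtain ⟨σ, hσ, h2⟩ := h
  refine ⟨σ, hσ, le_trans (le_of_eq ?_) h2⟩
  have hVk : ∀ k n, V (n + A * k) ↔ V n := by
    intro k
    induction k with
    | zero => intro n; simp
    | succ k ih =>
      intro n
      rw [mul_add, mul_one, ← add_assoc, hV, ih]
  obtain ⟨k, hk⟩ := ht
  rcases le_total 0 k with hk0 | hk0
  · obtain ⟨m, rfl⟩ := Int.eq_ofNat_of_zero_le hk0
    rw [← m_shift μ (ind (fun n => V n ∧ Ph φ g n ≠ σ)) (Bd_ind _) (A * m)]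
    congr 1
    funext n
    apply ind_at
    rw [Ph_T, hVk m n, hk]
    push_cast
    rfl
  · obtain ⟨m, hm⟩ := Int.eq_ofNat_of_zero_le (by omega : 0 ≤ -k)
    have hk' : k = -(m : ℤ) := by omega
    rw [← m_shift μ (ind (fun n => V n ∧ Ph φ (TT q t * g) n ≠ σ)) (Bd_ind _) (A * m)]
    congr 1
    funext n
    apply ind_at
    rw [Ph_T, hVk m n]
    have : ((n + A * m : ℕ) : ℤ) + t = n := by
      rw [hk, hk']
      push_cast
      ring
    rw [this]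

lemma re_le1 {z : ℂ} (h : ‖z‖ ≤ 1) : |z.re| ≤ 1 := (Complex.abs_re_le_norm z).trans h

/-- the two term relation -/
lemma HH_two (hφ : RU q φ) (y : ℤ) (R : ℕ) (a : ℕ)
    (h : HH μ φ V ρ (TT q y * (1 - TT q (R : ℤ))) a) :
    ∃ σ : ℂ, ‖σ‖ = 1 ∧ μ.m (ind V) - 2 * (a * ρ) ≤
      μ.m (fun n => (σ * ((ind V n : ℂ) * (φ (n + y) * (starRingEnd ℂ) (φ (n + y + R))))).re) := by
  have hq0 : q ≠ 0 := hq.out.ne_zero
  obtain ⟨σ, hσ, h2⟩ := h
  have hs : ∀ n : ℤ, Ph φ (TT q y * (1 - TT q (R : ℤ))) n = φ (n + y) * (starRingEnd ℂ) (φ (n + y + R)) := by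
    intro n
    rw [Ph_T, sub_eq_add_neg, Ph_add hφ, Ph_neg hφ, Ph_single, ru_conj hq0 (hφ _),
      ← LaurentPolynomial.T_zero, Ph_single, add_zero]
  simp only [hs] at h2
  have hσ1 : ‖σ‖ = 1 := ru_norm hq0 hσ
  have hcσ : (starRingEnd ℂ) σ * σ = 1 := by
    rw [← ru_conj hq0 hσ, inv_mul_cancel₀ (ru_ne hq0 hσ)]
  refine ⟨(starRingEnd ℂ) σ, by rw [RCLike.norm_conj, hσ1], ?_⟩
  have hn1 : ∀ n : ℤ, ‖φ n‖ = 1 := fun n => ru_norm hq0 (hφ n)
  have hP1 : ∀ n : ℤ, ‖φ (n + y) * (starRingEnd ℂ) (φ (n + y + R))‖ ≤ 1 := by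
    intro n
    rw [norm_mul, RCLike.norm_conj, hn1, hn1, one_mul]
  have hi1 : ∀ n, ‖(ind V n : ℂ)‖ ≤ 1 := by
    intro n
    unfold Pool.Agent.Y958.TC.ind
    split_ifs <;> simp
  have hT1 : ∀ n : ℕ, |((starRingEnd ℂ) σ * ((ind V n : ℂ) * (φ (n + y) * (starRingEnd ℂ) (φ (n + y + R))))).re| ≤ 1 := by
    intro n
    apply re_le1
    rw [norm_mul, norm_mul, RCLike.norm_conj, hσ1, one_mul]
    calc ‖(ind V n : ℂ)‖ * ‖φ ((n : ℤ) + y) * (starRingEnd ℂ) (φ ((n : ℤ) + y + R))‖ ≤ 1 * 1 :=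
          mul_le_mul (hi1 n) (hP1 n) (norm_nonneg _) zero_le_one
      _ = 1 := one_mul 1
  have hB1 : Bd (fun n : ℕ => ((starRingEnd ℂ) σ * ((ind V n : ℂ) * (φ (n + y) * (starRingEnd ℂ) (φ (n + y + R))))).re) :=
    ⟨1, hT1⟩
  have h3 : μ.m (ind V) ≤ μ.m (fun n => ((starRingEnd ℂ) σ * ((ind V n : ℂ) *
      (φ (n + y) * (starRingEnd ℂ) (φ (n + y + R))))).re) +
      2 * μ.m (ind (fun n : ℕ => V n ∧ φ (n + y) * (starRingEnd ℂ) (φ (n + y + R)) ≠ σ)) := by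
    rw [← μ.smul _ _ (Bd_ind _), ← μ.add _ _ hB1 ((Bd_ind _).cmul _)]
    apply μ.mono (Bd_ind V) (hB1.add ((Bd_ind _).cmul _))
    intro n
    by_cases hV : V n
    · have e1 : ind V n = 1 := by unfold Pool.Agent.Y958.TC.ind; rw [if_pos hV]
      by_cases h4 : φ (n + y) * (starRingEnd ℂ) (φ (n + y + R)) = σ
      · have e2 : ind (fun n : ℕ => V n ∧ φ (n + y) * (starRingEnd ℂ) (φ (n + y + R)) ≠ σ) n = 0 := by
          unfold Pool.Agent.Y958.TC.ind; rw [if_neg]; exact fun h => h.2 h4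
        rw [e2, e1, h4, Complex.ofReal_one, one_mul, hcσ, Complex.one_re]
        norm_num
      · have e2 : ind (fun n : ℕ => V n ∧ φ (n + y) * (starRingEnd ℂ) (φ (n + y + R)) ≠ σ) n = 1 := by
          unfold Pool.Agent.Y958.TC.ind; rw [if_pos ⟨hV, h4⟩]
        have h5 := (abs_le.1 (hT1 n)).1
        rw [e2, e1] at *
        linarith
    · have e1 : ind V n = 0 := by unfold Pool.Agent.Y958.TC.ind; rw [if_neg hV]
      rw [e1, Complex.ofReal_zero, zero_mul, mul_zero, Complex.zero_re]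
      have := ind_nonneg (fun n : ℕ => V n ∧ φ (n + y) * (starRingEnd ℂ) (φ (n + y + R)) ≠ σ) n
      linarith
  linarith

end H

/-! ### The two point input along an ultrafilter -/

/-- the exceptional scales of the two point theorem -/
def E2C (φ : ℕ → ℂ) (V : ℕ → Prop) (A R : ℕ) (δ : ℝ) : Set ℕ :=
  {N | ∃ a ∈ range A, N ∈ {N | δ < ‖AvC N (fun n => (ind V (n + a) : ℂ) * (φ n * (starRingEnd ℂ) (φ (n + R))))‖}}

lemma two_shiftC (μ : NM) (σ : ℂ) (hσ : ‖σ‖ = 1) (φ : ℕ → ℂ) (hb : ∀ n, ‖φ n‖ ≤ 1) (V : ℕ → Prop) (A R : ℕ) (hA1 : 1 ≤ A)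
    (hV : ∀ n, V (n + A) ↔ V n) (y : ℤ) : ∃ a ∈ range A,
      μ.m (fun n => (σ * ((ind V n : ℂ) * (φ (((n : ℤ) + y).toNat) *
        (starRingEnd ℂ) (φ (((n : ℤ) + y + R).toNat))))).re) =
      μ.m (fun n => (σ * ((ind V (n + a) : ℂ) * (φ n * (starRingEnd ℂ) (φ (n + R))))).re) := by
  have hi : ∀ n, ‖(ind V n : ℂ)‖ ≤ 1 := by
    intro n; unfold Pool.Agent.Y958.TC.ind; split_ifs <;> simp
  have hA0 : (0 : ℤ) < A := by exact_mod_cast hA1
  set a : ℕ := ((-y) % (A : ℤ)).toNat with ha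
  have ha0 : ((a : ℕ) : ℤ) = (-y) % A := Int.toNat_of_nonneg (Int.emod_nonneg _ hA0.ne')
  have haA : a < A := by
    have := Int.emod_lt_of_pos (-y) hA0
    omega
  have hdvd : (A : ℤ) ∣ y + a := by
    rw [ha0]
    refine ⟨-((-y) / A), ?_⟩
    have := Int.emod_add_mul_ediv (-y) A
    linear_combination this
  refine ⟨a, mem_range.2 haA, ?_⟩
  have hgen : ∀ (u : ℝ) (z w : ℂ), ‖(u : ℂ)‖ ≤ 1 → ‖z‖ ≤ 1 → ‖w‖ ≤ 1 →
      |(σ * ((u : ℂ) * (z * (starRingEnd ℂ) w))).re| ≤ 1 := by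
    intro u z w hu hz hw
    apply re_le1
    rw [norm_mul, norm_mul, norm_mul, RCLike.norm_conj, hσ, one_mul]
    calc ‖(u : ℂ)‖ * (‖z‖ * ‖w‖) ≤ 1 * (1 * 1) := by gcongr
      _ = 1 := by norm_num
  set Θ : ℕ → ℝ := fun n => (σ * ((ind V (n + a) : ℂ) * (φ n * (starRingEnd ℂ) (φ (n + R))))).re with hΘ
  set F : ℕ → ℝ := fun n => (σ * ((ind V n : ℂ) * (φ (((n : ℤ) + y).toNat) *
        (starRingEnd ℂ) (φ (((n : ℤ) + y + R).toNat))))).re with hF
  have hBΘ : Bd Θ := ⟨1, fun n => hgen _ _ _ (hi _) (hb _) (hb _)⟩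
  have hBF : Bd F := ⟨1, fun n => hgen _ _ _ (hi _) (hb _) (hb _)⟩
  rcases le_total 0 y with hy | hy
  · obtain ⟨m, hm⟩ := Int.eq_ofNat_of_zero_le hy
    rw [← m_shift μ Θ hBΘ m]
    congr 1
    funext n
    rw [hF, hΘ]
    simp only
    have e1 : ((n : ℤ) + y).toNat = n + m := by rw [hm]; omega
    have e2 : ((n : ℤ) + y + R).toNat = n + m + R := by rw [hm]; omega
    rw [e1, e2]
    have e3 : ind V (n + m + a) = ind V n := by
      apply ind_at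
      apply V_congr hV
      have h1 : (A : ℤ) ∣ ((m + a : ℕ) : ℤ) := by
        push_cast
        rw [← hm]
        exact hdvd
      have h2 : A ∣ m + a := by exact_mod_cast h1
      rw [add_assoc]
      obtain ⟨z, hz⟩ := h2
      rw [hz]
      exact (Nat.modEq_iff_dvd' (by omega)).2 ⟨z, by omega⟩ |>.symm
    rw [e3]
  · obtain ⟨m, hm⟩ := Int.eq_ofNat_of_zero_le (by omega : 0 ≤ -y)
    rw [← m_shift μ F hBF m]
    congr 1
    funext n
    rw [hF, hΘ]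
    simp only
    have e1 : (((n + m : ℕ) : ℤ) + y).toNat = n := by omega
    have e2 : (((n + m : ℕ) : ℤ) + y + R).toNat = n + R := by omega
    rw [e1, e2]
    have e3 : ind V (n + m) = ind V (n + a) := by
      apply ind_at
      apply V_congr hV
      have h1 : (A : ℤ) ∣ (a : ℤ) - m := by
        have : (a : ℤ) - m = y + a := by omega
        rw [this]; exact hdvd
      rw [← Int.natCast_modEq_iff]
      push_cast
      apply Int.ModEq.add_left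
      exact (Int.modEq_iff_dvd).2 h1
    rw [e3]

lemma two_boundC (𝓤 : Ultrafilter ℕ) (hU : (𝓤 : Filter ℕ) ≤ atTop) (σ : ℂ) (hσ : ‖σ‖ = 1)
    (φ : ℕ → ℂ) (hb : ∀ n, ‖φ n‖ ≤ 1)
    (V : ℕ → Prop) (A R : ℕ) (hA1 : 1 ≤ A) (hV : ∀ n, V (n + A) ↔ V n) (δ : ℝ)
    (hmem : (E2C φ V A R δ)ᶜ ∈ (𝓤 : Filter ℕ)) (y : ℤ) :
    (um 𝓤 hU).m (fun n => (σ * ((ind V n : ℂ) * (φ (((n : ℤ) + y).toNat) *
        (starRingEnd ℂ) (φ (((n : ℤ) + y + R).toNat))))).re) ≤ δ := by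
  obtain ⟨a, ha, h1⟩ := two_shiftC (um 𝓤 hU) σ hσ φ hb V A R hA1 hV y
  rw [h1]
  have hi : ∀ n, ‖(ind V n : ℂ)‖ ≤ 1 := by
    intro n; unfold Pool.Agent.Y958.TC.ind; split_ifs <;> simp
  have hB : Bd (fun n => (σ * ((ind V (n + a) : ℂ) * (φ n * (starRingEnd ℂ) (φ (n + R))))).re) := by
    refine ⟨1, fun n => ?_⟩
    apply re_le1
    rw [norm_mul, norm_mul, norm_mul, RCLike.norm_conj, hσ, one_mul]
    calc ‖(ind V (n + a) : ℂ)‖ * (‖φ n‖ * ‖φ (n + R)‖) ≤ 1 * (1 * 1) := by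
          gcongr
          · exact hi _
          · exact hb _
          · exact hb _
      _ = 1 := by norm_num
  apply le_of_tendsto (um_tendsto 𝓤 hU hB)
  filter_upwards [hmem] with M hM
  have h2 : ‖AvC M (fun n => (ind V (n + a) : ℂ) * (φ n * (starRingEnd ℂ) (φ (n + R))))‖ ≤ δ := by
    by_contra hcon
    apply hM
    exact ⟨a, ha, not_le.1 hcon⟩
  have h3 : Av M (fun n => (σ * ((ind V (n + a) : ℂ) * (φ n * (starRingEnd ℂ) (φ (n + R))))).re) =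
      (σ * AvC M (fun n => (ind V (n + a) : ℂ) * (φ n * (starRingEnd ℂ) (φ (n + R))))).re := by
    unfold Pool.Agent.Y958.TC.Av Pool.Agent.Y958.E.AvC
    rw [← Complex.re_sum, ← mul_sum, mul_div_assoc', Complex.div_natCast_re]
  rw [h3]
  refine (Complex.re_le_norm _).trans ?_
  rw [norm_mul, hσ, one_mul]
  exact h2

end Pool.Agent.R512.Q
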