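import Pool.Agent.R512.Q.Cr
import Pool.Agent.Y958.E.Rel

/-!
Library R512.Q (helper512): the relation attached to a prime from a large mean, for a factor with values in
the roots of unity (after `Pool.Agent.Y958.E.Rel`).
-/

set_option autoImplicit false

namespace Pool.Agent.R512.Q

open Finset
open Pool.Agent.TH112.BL (Bd)
open Pool.Agent.Y958.TC (NM ind Bd_ind ind_nonneg)
open Pool.Agent.Y958.E (sg sg_norm sg_mul sg_prod sg_near norm_ind_le norm_prod_F re_le)

/-- the function at the scale `1` -/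
noncomputable def psC (f : ℕ → ℂ) (V : ℕ → Prop) {d : ℕ} (F : Fin d → ℕ → ℂ) (x : Fin (d + 1) → ℕ)
    (n : ℕ) : ℂ := (ind V n : ℂ) * f (n + x 0) * ∏ i : Fin d, F i (n + x i.succ)

/-- the function attached to `p` -/
noncomputable def GcC (f : ℕ → ℂ) (V : ℕ → Prop) {d : ℕ} (F : Fin d → ℕ → ℂ) (x : Fin (d + 1) → ℕ)
    (p n : ℕ) : ℂ := (ind V n : ℂ) * f (n + p * x 0) * ∏ i : Fin d, F i (n + p * x i.succ)

section rel

variable (μ : NM) (f : ℕ → ℂ) (hb : ∀ n, ‖f n‖ = 1) (V : ℕ → Prop) {d : ℕ} (F : Fin d → ℕ → ℂ)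
  (hF : ∀ i n, ‖F i n‖ ≤ 1) (x : Fin (d + 1) → ℕ)

include hb hF in
lemma GcC_le (p n : ℕ) : ‖GcC f V F x p n‖ ≤ 1 := by
  unfold GcC
  rw [norm_mul, norm_mul]
  have h1 := norm_ind_le V n
  have h2 := (hb (n + p * x 0)).le
  have h3 := norm_prod_F F hF (fun i => n + p * x i.succ)
  calc ‖(ind V n : ℂ)‖ * ‖f (n + p * x 0)‖ * ‖∏ i : Fin d, F i (n + p * x i.succ)‖ ≤
      1 * 1 * 1 := by gcongr
    _ = 1 := by norm_num

include hF in
lemma psC_le (hb1 : ∀ n, ‖f n‖ ≤ 1) (n : ℕ) : ‖psC f V F x n‖ ≤ 1 := by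
  unfold psC
  rw [norm_mul, norm_mul]
  have h1 := norm_ind_le V n
  have h2 := hb1 (n + x 0)
  have h3 := norm_prod_F F hF (fun i => n + x i.succ)
  calc ‖(ind V n : ℂ)‖ * ‖f (n + x 0)‖ * ‖∏ i : Fin d, F i (n + x i.succ)‖ ≤
      1 * 1 * 1 := by gcongr
    _ = 1 := by norm_num

include hb hF in
/-- a relation from a large mean -/
lemma rel_ofC (ζ : ℂ) (hζ : ‖ζ‖ = 1) (p : ℕ) (θ ρ₀ : ℝ) (hθ : 0 < θ) (hθ1 : θ < 1)
    (h : μ.m (ind V) - μ.m (fun n => (ζ * GcC f V F x p n).re) ≤ ρ₀) :
    RelC μ V (fun z => f z.toNat) (fun i z => sg (F i z.toNat)) (fun j => (x j : ℤ)) (2 * θ)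
      (2 * ρ₀ / θ ^ 2) (p : ℤ) := by
  set σ : ℂ := (starRingEnd ℂ) ζ with hσ
  have hσ1 : ‖σ‖ = 1 := by rw [hσ, RCLike.norm_conj, hζ]
  refine ⟨σ, hσ1, ?_⟩
  have hBG : Bd (fun n => (ζ * GcC f V F x p n).re) :=
    ⟨1, fun n => re_le hζ.le (GcC_le f hb V F hF x p n)⟩
  set P : ℕ → Prop := fun n : ℕ => V n ∧ 2 * θ < ‖(fun z : ℤ => f z.toNat) (n + p * (x 0 : ℕ)) *
    ∏ i : Fin d, (fun (i : Fin d) (z : ℤ) => sg (F i z.toNat)) i (n + p * ((x i.succ : ℕ) : ℤ)) - σ‖ with hP
  have key : θ ^ 2 / 2 * μ.m (ind P) ≤ ρ₀ := by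
    refine le_trans ?_ h
    rw [← μ.smul _ _ (Bd_ind P), ← μ.sub (Bd_ind V) hBG]
    apply μ.mono ((Bd_ind P).cmul _)
    · have := (Bd_ind V).add (hBG.cmul (-1))
      refine (congrArg Bd ?_).mp this
      funext n
      ring
    · intro n
      have hz1 := GcC_le f hb V F hF x p n
      by_cases hV : V n
      · have e1 : ind V n = 1 := by unfold ind; rw [if_pos hV]
        rw [e1]
        set z : ℂ := f (n + p * x 0) * ∏ i : Fin d, F i (n + p * x i.succ) with hz
        have hGz : GcC f V F x p n = z := by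
          unfold GcC
          rw [e1, hz]
          push_cast
          ring
        rw [hGz] at hz1 ⊢
        have hsq : ‖z - σ‖ ^ 2 ≤ 2 - 2 * (ζ * z).re := by
          have h3 : ‖z - σ‖ ^ 2 = ‖z‖ ^ 2 + ‖σ‖ ^ 2 - 2 * (z * (starRingEnd ℂ) σ).re := by
            rw [← Complex.normSq_eq_norm_sq, ← Complex.normSq_eq_norm_sq, ← Complex.normSq_eq_norm_sq,
              Complex.normSq_sub]
          rw [h3, hσ1, hσ, Complex.conj_conj, mul_comm z ζ]
          have h4 : ‖z‖ ^ 2 ≤ 1 := by
            have := norm_nonneg z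
            nlinarith
          linarith
        by_cases hn : P n
        · have e2 : ind P n = 1 := by unfold ind; rw [if_pos hn]
          rw [e2, mul_one]
          have h5 : θ < ‖z - σ‖ := by
            by_contra hcon
            push Not at hcon
            obtain ⟨hz0, hz2⟩ := sg_near hσ1 hz1 hcon hθ1
            apply absurd hn.2
            push Not
            refine le_trans (le_of_eq ?_) hz2
            congr 2
            have hf0 : f (n + p * x 0) ≠ 0 := left_ne_zero_of_mul hz0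
            have hF0 : ∏ i : Fin d, F i (n + p * x i.succ) ≠ 0 := right_ne_zero_of_mul hz0
            have hsf : sg (f (n + p * x 0)) = f (n + p * x 0) := by
              unfold sg
              rw [if_neg hf0, hb]
              simp
            have hsz : sg z = f (n + p * x 0) * ∏ i : Fin d, sg (F i (n + p * x i.succ)) := by
              rw [← sg_prod _ _ hF0, hz]
              have hmul : sg (f (n + p * x 0) * ∏ i : Fin d, F i (n + p * x i.succ)) =
                  sg (f (n + p * x 0)) * sg (∏ i : Fin d, F i (n + p * x i.succ)) := by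
                have h8 := sg_prod (univ : Finset (Fin 2))
                  ![f (n + p * x 0), ∏ i : Fin d, F i (n + p * x i.succ)] (by
                    rw [Fin.prod_univ_two]
                    simpa using ⟨by simpa using hf0, hF0⟩)
                rw [Fin.prod_univ_two, Fin.prod_univ_two] at h8
                simpa using h8
              rw [hmul, hsf]
            rw [hsz]
            have e3 : ((n : ℤ) + (p : ℤ) * ((x 0 : ℕ) : ℤ)).toNat = n + p * x 0 := by
              have : ((n : ℤ) + (p : ℤ) * ((x 0 : ℕ) : ℤ)) = ((n + p * x 0 : ℕ) : ℤ) := by push_cast; ring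
              rw [this, Int.toNat_natCast]
            have e4 : ∀ i : Fin d, ((n : ℤ) + (p : ℤ) * ((x i.succ : ℕ) : ℤ)).toNat = n + p * x i.succ := by
              intro i
              have : ((n : ℤ) + (p : ℤ) * ((x i.succ : ℕ) : ℤ)) = ((n + p * x i.succ : ℕ) : ℤ) := by
                push_cast; ring
              rw [this, Int.toNat_natCast]
            simp only [e3, e4]
          have h6 : θ ^ 2 ≤ ‖z - σ‖ ^ 2 := by
            apply pow_le_pow_left₀ hθ.le h5.le
          linarith
        · have e2 : ind P n = 0 := by unfold ind; rw [if_neg hn]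
          rw [e2, mul_zero]
          have := re_le hζ.le hz1
          have := abs_le.1 this
          linarith
      · have e1 : ind V n = 0 := by unfold ind; rw [if_neg hV]
        have e2 : ind P n = 0 := by unfold ind; rw [if_neg (fun h => hV h.1)]
        rw [e2, e1]
        unfold GcC
        rw [e1]
        simp
  rw [le_div_iff₀ (by positivity)]
  have : μ.m (ind P) * θ ^ 2 ≤ 2 * ρ₀ := by linarith
  exact this

end rel

/-- the code of a function with values in the roots of unity -/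
noncomputable def cd (m : ℕ) (hm : 0 < m) (f : ℕ → ℂ) (hf : ∀ n, f n ^ m = 1) (n : ℕ) :
    {z // z ∈ Polynomial.nthRootsFinset m (1 : ℂ)} :=
  ⟨f n, (Polynomial.mem_nthRootsFinset hm (1 : ℂ)).2 (hf n)⟩

lemma cd_f {m : ℕ} {hm : 0 < m} {f : ℕ → ℂ} {hf : ∀ n, f n ^ m = 1} {n n' : ℕ}
    (h : cd m hm f hf n = cd m hm f hf n') : f n = f n' := congrArg Subtype.val h

end Pool.Agent.R512.Q
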