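import Pool.Agent.R512.Q.Inst

/-!
Library R512.Q (helper512): if the product of a function of `Ω` at one point, with values in the roots of unity
of order `m`, and of arbitrary functions of the prime signatures at other points is nearly constant, then the
function of `Ω` is nearly constant.
-/

set_option autoImplicit false

namespace Pool.Agent.R512.Q

open Finset Filter Topology
open Pool.Agent.Y958.U
open Pool.Agent.Y958.E
open Pool.Agent.Y842.QY (mB mB_le)
open ArithmeticFunction (cardFactors)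

open Classical in
/-- concentration of functions with values in the roots of unity and with large mean -/
lemma conc (q : ℕ) (hq : q ≠ 0) (η : ℝ) (hη : 0 < η) (hη1 : η < 1) : ∃ δ₁ : ℝ, 0 < δ₁ ∧ δ₁ ≤ 1 ∧
    ∀ X : ℕ → ℂ, (∀ l, X l ^ q = 1) → ∀ N : ℕ, 1 ≤ N → 1 - δ₁ < ‖mB X N‖ →
      ∃ w : ℂ, w ^ q = 1 ∧ (((Icc 1 N).filter (fun n => X (cardFactors n) ≠ w)).card : ℝ) ≤ η * N := by
  obtain ⟨γ, hγ0, hγ1, hγ⟩ := sep q hq
  refine ⟨η * γ ^ 2 / 8, by positivity, ?_, fun X hX N hN hm => ?_⟩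
  · have h1 : γ ^ 2 ≤ 1 := pow_le_one₀ hγ0.le hγ1
    have h2 : η * γ ^ 2 ≤ 1 * 1 := mul_le_mul hη1.le h1 (by positivity) zero_le_one
    linarith
  have hN0 : (0 : ℝ) < N := by exact_mod_cast hN
  have hX1 : ∀ l, ‖X l‖ = 1 := fun l => ru_norm hq (hX l)
  set a : ℂ := mB X N with ha
  have hδ1 : η * γ ^ 2 / 8 < 1 := by
    have h1 : γ ^ 2 ≤ 1 := pow_le_one₀ hγ0.le hγ1
    have h2 : η * γ ^ 2 ≤ 1 * 1 := mul_le_mul hη1.le h1 (by positivity) zero_le_one
    linarith
  have ha0 : a ≠ 0 := by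
    intro h
    rw [h, norm_zero] at hm
    linarith
  have hna : (‖a‖ : ℂ) ≠ 0 := by exact_mod_cast norm_ne_zero_iff.2 ha0
  set u : ℂ := sg a with hu
  have hu1 : ‖u‖ = 1 := sg_norm a
  -- the mean of the real parts
  have hre : ∑ n ∈ Icc 1 N, ((starRingEnd ℂ) u * X (cardFactors n)).re = ‖a‖ * N := by
    rw [← Complex.re_sum, ← mul_sum]
    have h1 : ∑ n ∈ Icc 1 N, X (cardFactors n) = a * N := by
      rw [ha]
      unfold Pool.Agent.Y842.QY.mB
      rw [div_mul_cancel₀]
      exact_mod_cast hN0.ne'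
    rw [h1]
    have h2 : (starRingEnd ℂ) u * (a * N) = ((‖a‖ * N : ℝ) : ℂ) := by
      have h3 : a = u * (‖a‖ : ℂ) := (sg_mul a).symm
      have h4 := conj_mul_one hu1
      push_cast
      calc (starRingEnd ℂ) u * (a * N) = (starRingEnd ℂ) u * ((u * (‖a‖ : ℂ)) * N) := by rw [← h3]
        _ = (u * (starRingEnd ℂ) u) * ((‖a‖ : ℂ) * N) := by ring
        _ = (‖a‖ : ℂ) * N := by rw [h4, one_mul]
    rw [h2, Complex.ofReal_re]
  set B : Finset ℕ := (Icc 1 N).filter (fun n => γ / 2 ≤ ‖X (cardFactors n) - u‖) with hB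
  have hsq : ∀ n, ‖X (cardFactors n) - u‖ ^ 2 = 2 - 2 * ((starRingEnd ℂ) u * X (cardFactors n)).re := by
    intro n
    rw [← Complex.normSq_eq_norm_sq, Complex.normSq_sub, Complex.normSq_eq_norm_sq, Complex.normSq_eq_norm_sq,
      hX1, hu1, mul_comm (X (cardFactors n))]
    ring
  have hBc : γ ^ 2 / 8 * (B.card : ℝ) ≤ η * γ ^ 2 / 8 * N := by
    have h1 : ∑ n ∈ Icc 1 N, (1 - ((starRingEnd ℂ) u * X (cardFactors n)).re) ≤ η * γ ^ 2 / 8 * N := by
      rw [sum_sub_distrib, hre, sum_const, Nat.card_Icc, Nat.add_sub_cancel, nsmul_eq_mul, mul_one]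
      have h2 : (1 - η * γ ^ 2 / 8) * N ≤ ‖a‖ * N := mul_le_mul_of_nonneg_right hm.le hN0.le
      linarith
    refine le_trans ?_ h1
    have h3 : ∑ n ∈ B, (γ ^ 2 / 8 : ℝ) ≤ ∑ n ∈ B, (1 - ((starRingEnd ℂ) u * X (cardFactors n)).re) := by
      apply sum_le_sum
      intro n hn
      rw [hB, mem_filter] at hn
      have h4 : (γ / 2) ^ 2 ≤ ‖X (cardFactors n) - u‖ ^ 2 := pow_le_pow_left₀ (by positivity) hn.2 2
      rw [hsq] at h4
      linarith
    rw [sum_const, nsmul_eq_mul, mul_comm] at h3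
    refine h3.trans ?_
    apply sum_le_sum_of_subset_of_nonneg (filter_subset _ _)
    intro n _ _
    have h4 : 0 ≤ ‖X (cardFactors n) - u‖ ^ 2 := by positivity
    rw [hsq] at h4
    linarith
  have hBc' : (B.card : ℝ) ≤ η * N := by
    have h1 : (0 : ℝ) < γ ^ 2 / 8 := by positivity
    have h2 : γ ^ 2 / 8 * (B.card : ℝ) ≤ γ ^ 2 / 8 * (η * N) := by
      refine hBc.trans (le_of_eq ?_)
      ring
    exact le_of_mul_le_mul_left h2 h1
  -- a point outside of `B`
  obtain ⟨n₀, hn₀, hn₀B⟩ : ∃ n ∈ Icc 1 N, n ∉ B := by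
    by_contra hcon
    push Not at hcon
    have h1 := card_le_card (show Icc 1 N ⊆ B from hcon)
    rw [Nat.card_Icc, Nat.add_sub_cancel] at h1
    have h2 : (N : ℝ) ≤ B.card := by exact_mod_cast h1
    nlinarith
  refine ⟨X (cardFactors n₀), hX _, le_trans ?_ hBc'⟩
  have h1 : (Icc 1 N).filter (fun n => X (cardFactors n) ≠ X (cardFactors n₀)) ⊆ B := by
    intro n hn
    rw [mem_filter] at hn
    rw [hB, mem_filter]
    refine ⟨hn.1, ?_⟩
    by_contra hcon
    push Not at hcon
    apply hn.2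
    apply hγ _ _ (hX _) (hX _)
    have h2 : ‖X (cardFactors n₀) - u‖ < γ / 2 := by
      by_contra hcon2
      exact hn₀B (by
        rw [hB, mem_filter]
        exact ⟨hn₀, not_lt.1 hcon2⟩)
    have h3 := norm_sub_le_norm_sub_add_norm_sub (X (cardFactors n)) u (X (cardFactors n₀))
    rw [norm_sub_rev u] at h3
    linarith
  exact_mod_cast card_le_card h1

open Classical in
/-- the number of exceptions at the shifted points -/
lemma card_shift (P : ℕ → Prop) (N h : ℕ) : (((Icc 1 N).filter (fun n => P (n + h))).card : ℝ) ≤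
    ((Icc 1 N).filter P).card + h := by
  have h1 : ((Icc 1 N).filter (fun n => P (n + h))).card ≤ ((Icc 1 (N + h)).filter P).card := by
    apply card_le_card_of_injOn (fun n => n + h)
    · intro n hn
      simp only [coe_filter, mem_Icc, Set.mem_setOf_eq] at hn ⊢
      exact ⟨⟨by omega, by omega⟩, hn.2⟩
    · intro n _ m _ hnm
      exact Nat.add_right_cancel hnm
  have h2 : (Icc 1 (N + h)).filter P ⊆ (Icc 1 N).filter P ∪ Ioc N (N + h) := by
    intro n hn
    rw [mem_filter, mem_Icc] at hn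
    rw [mem_union, mem_filter, mem_Icc, mem_Ioc]
    by_cases hnN : n ≤ N
    · exact Or.inl ⟨⟨hn.1.1, hnN⟩, hn.2⟩
    · exact Or.inr ⟨by omega, hn.1.2⟩
  have h3 := (card_le_card h2).trans (card_union_le _ _)
  rw [Nat.card_Ioc, Nat.add_sub_cancel_left] at h3
  exact_mod_cast h1.trans h3

open Classical in
/-- **rigidity** -/
theorem rigid (k : ℕ) : ∀ m : ℕ, 1 ≤ m → ∀ δ : ℝ, 0 < δ → δ ≤ 1 → ∃ c : ℝ, 0 < c ∧ c < 1 ∧
    ∀ (h : Fin k → ℕ), Function.Injective h → ∀ (j : Fin k) (g : Fin k → ℕ → ℂ), (∀ i, i ≠ j → OM (g i)) →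
    ∀ β : ℕ → ℂ, (∀ l, β l ^ m = 1) → (∀ n, g j n = β (cardFactors n)) →
    LZ {N : ℕ | ‖mB β N‖ ≤ 1 - δ ∧ (1 - c) * N < ‖∑ n ∈ Icc 1 N, ∏ i, g i (n + h i)‖} := by
  intro m
  induction m using Nat.strong_induction_on with
  | _ m ih =>
  intro hm δ hδ hδ1
  by_cases hm1 : m = 1
  · subst hm1
    refine ⟨1 / 2, by norm_num, by norm_num, fun h hh j g hg β hβ hgj => ?_⟩
    apply LZ_bdd _ 1
    intro N hN
    by_contra hcon
    have hN0 : (0 : ℝ) < N := by exact_mod_cast (by omega : 0 < N)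
    have h1 : mB β N = 1 := by
      unfold Pool.Agent.Y842.QY.mB
      have h2 : ∀ n ∈ Icc 1 N, β (cardFactors n) = 1 := fun n _ => by
        have := hβ (cardFactors n)
        rwa [pow_one] at this
      rw [sum_congr rfl h2, sum_const, Nat.card_Icc, Nat.add_sub_cancel, nsmul_eq_mul, mul_one]
      exact div_self (by exact_mod_cast hN0.ne')
    have h2 := hN.1
    rw [h1, norm_one] at h2
    linarith
  set q : ℕ := m.minFac with hq
  have hqp : q.Prime := Nat.minFac_prime hm1
  have hqm : q ∣ m := Nat.minFac_dvd m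
  set r : ℕ := m / q with hr
  have hr1 : 1 ≤ r := Nat.div_pos (Nat.le_of_dvd hm hqm) hqp.pos
  have hrm : r < m := Nat.div_lt_self hm hqp.one_lt
  have hrq : r * q = m := Nat.div_mul_cancel hqm
  obtain ⟨c₂, hc₂, hc₂1, hIH⟩ := ih r hrm hr1 (δ / 2) (by positivity) (by linarith)
  set η : ℝ := min (δ / 4) (c₂ / 8) with hη
  have hη0 : 0 < η := lt_min (by positivity) (by positivity)
  have hη1 : η ≤ δ / 4 := min_le_left _ _
  have hη2 : η ≤ c₂ / 8 := min_le_right _ _
  obtain ⟨δ₁, hδ₁, hδ₁1, hconc⟩ := conc q hqp.ne_zero η hη0 (by linarith)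
  obtain ⟨c₁, hc₁, hc₁1, hF⟩ := finOm m q hqp hm hqm δ₁ hδ₁ hδ₁1
  set c : ℝ := min (c₁ k / 2) (c₂ / 2) with hc
  have hc0 : 0 < c := lt_min (by have := hc₁ k; positivity) (by positivity)
  have hcc1 : c ≤ c₁ k / 2 := min_le_left _ _
  have hcc2 : c ≤ c₂ / 2 := min_le_right _ _
  refine ⟨c, hc0, by linarith, fun h hh j g hg β hβ hgj => ?_⟩
  have hβ1 : ∀ l, ‖β l‖ = 1 := fun l => ru_norm (by omega) (hβ l)
  have hgn : ∀ i n, ‖g i n‖ ≤ 1 := by
    intro i n
    by_cases hij : i = j
    · rw [hij, hgj]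
      exact (hβ1 _).le
    · exact OM_norm (hg i hij) n
  -- first case: the power is not nearly constant
  have h1 := (hF k (fun _ => 1) h (fun _ => le_rfl) (fun i i' hii => by
    rw [one_mul, one_mul]
    exact fun hb => hii (hh hb.symm)) j g hg β hβ (fun _ => 1) ⟨fun _ => one_pow _, fun _ _ _ _ => (one_mul _).symm⟩
    (fun _ => 1) ⟨fun _ => by simp, fun _ _ _ _ _ => (one_mul _).symm⟩ ⟨1, 1, 0, le_rfl, by
      have e : (fun p : Nat.Primes => (1 - ((1 : ℂ) * (starRingEnd ℂ) (1 *
        (1 : DirichletCharacter ℂ 1) ((p : ℕ) : ZMod 1) * nit 0 p)).re) / ((p : ℕ) : ℝ)) = fun _ => 0 := by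
        funext p
        have e1 : ((1 : DirichletCharacter ℂ 1) ((p : ℕ) : ZMod 1)) = 1 := by
          rw [MulChar.one_apply]
          exact isUnit_of_subsingleton _
        have e2 : nit 0 ((p : ℕ)) = 1 := by
          unfold nit
          simp
        rw [e1, e2]
        simp
      rw [e]
      exact summable_zero⟩ (fun n => by rw [hgj, mul_one])).1
  obtain ⟨𝓔, h𝓔, hN⟩ := h1
  obtain ⟨N₀, hN₀⟩ := hN (c₁ k / 2) (by have := hc₁ k; positivity)
  -- second case: reduction to the order `r`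
  have hv : ∀ w : ℂ, ∃ v : ℂ, ‖v‖ = 1 ∧ ∀ l, β l ^ r = w → v ^ r = w := by
    intro w
    by_cases hex : ∃ l, β l ^ r = w
    · obtain ⟨l, hl⟩ := hex
      exact ⟨β l, hβ1 l, fun _ _ => hl⟩
    · exact ⟨1, norm_one, fun l hl => absurd ⟨l, hl⟩ hex⟩
  choose v hv1 hvr using hv
  set β' : ℂ → ℕ → ℂ := fun w l => if β l ^ r = w then β l * (starRingEnd ℂ) (v w) else 1 with hβ'
  have hβ'r : ∀ w l, β' w l ^ r = 1 := by
    intro w l
    simp only [hβ']
    split_ifs with hl
    · rw [mul_pow, hl, ← map_pow, hvr w l hl]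
      apply conj_mul_one
      rw [← hl, norm_pow, hβ1, one_pow]
    · exact one_pow _
  set g' : ℂ → Fin k → ℕ → ℂ := fun w i => if i = j then fun n => β' w (cardFactors n) else g i with hg'
  have hE2 : ∀ w : ℂ, LZ {N : ℕ | ‖mB (β' w) N‖ ≤ 1 - δ / 2 ∧
      (1 - c₂) * N < ‖∑ n ∈ Icc 1 N, ∏ i, g' w i (n + h i)‖} := by
    intro w
    apply hIH h hh j (g' w) (fun i hi => by
      simp only [hg']
      rw [if_neg hi]
      exact hg i hi) (β' w) (hβ'r w) (fun n => by
      simp only [hg']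
      rw [if_pos trivial])
  have hE3 := LZ_fin (Polynomial.nthRootsFinset q (1 : ℂ)) _ (fun w _ => hE2 w)
  set N₁ : ℕ := ⌈8 * (h j) / c₂⌉₊ + N₀ + 1 with hN₁
  refine LZ_sub ?_ (LZ_union (LZ_union h𝓔 hE3) (LZ_bdd {N | N < N₁} N₁ fun n hn => hn))
  intro N hNN
  obtain ⟨hNm, hNs⟩ := hNN
  by_cases hNK : N < N₁
  · exact Or.inr hNK
  left
  have hN0 : (0 : ℝ) < N := by exact_mod_cast (by omega : 0 < N)
  by_cases hcase : ‖mB (fun l => β l ^ r) N‖ ≤ 1 - δ₁
  · left
    by_contra hNE
    have h2 := hN₀ N (by omega) hcase hNE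
    have h3 : ∑ n ∈ Icc 1 N, ‖g j ((fun _ => 1) j * n + h j)‖ = N := by
      have h4 : ∀ n ∈ Icc 1 N, ‖g j ((fun _ => 1) j * n + h j)‖ = 1 := fun n _ => by rw [hgj, hβ1]
      rw [sum_congr rfl h4, sum_const, Nat.card_Icc, Nat.add_sub_cancel, nsmul_eq_mul, mul_one]
    rw [h3] at h2
    have h5 : ∑ n ∈ Icc 1 N, ∏ i, g i ((fun _ => 1) i * n + h i) = ∑ n ∈ Icc 1 N, ∏ i, g i (n + h i) := by
      refine sum_congr rfl fun n _ => prod_congr rfl fun i _ => ?_
      simp only [one_mul]
    rw [h5] at h2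
    nlinarith
  · right
    push Not at hcase
    obtain ⟨w, hwq, hcard⟩ := hconc (fun l => β l ^ r) (fun l => by rw [← pow_mul, hrq, hβ]) N (by omega) hcase
    refine ⟨w, (Polynomial.mem_nthRootsFinset hqp.pos (1 : ℂ)).2 hwq, ?_, ?_⟩
    · -- the mean of `β'`
      have hdiff : ‖mB β N - v w * mB (β' w) N‖ ≤ 2 * η := by
        have e1 : mB β N - v w * mB (β' w) N =
            (∑ n ∈ Icc 1 N, (β (cardFactors n) - v w * β' w (cardFactors n))) / N := by
          unfold Pool.Agent.Y842.QY.mB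
          rw [sum_sub_distrib, ← mul_sum]
          ring
        rw [e1, norm_div, Complex.norm_natCast, div_le_iff₀ hN0]
        have h2 : ∀ n ∈ Icc 1 N, ‖β (cardFactors n) - v w * β' w (cardFactors n)‖ ≤
            if β (cardFactors n) ^ r ≠ w then 2 else 0 := by
          intro n _
          simp only [hβ']
          by_cases hl : β (cardFactors n) ^ r = w
          · rw [if_pos hl, if_neg (not_not.2 hl)]
            have h3 := conj_mul_one (hv1 w)
            have h4 : β (cardFactors n) - v w * (β (cardFactors n) * (starRingEnd ℂ) (v w)) = 0 := by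
              linear_combination (-β (cardFactors n)) * h3
            rw [h4, norm_zero]
          · rw [if_neg hl, if_pos hl, mul_one]
            refine (norm_sub_le _ _).trans ?_
            rw [hβ1, hv1]
            norm_num
        refine (norm_sum_le _ _).trans ((sum_le_sum h2).trans ?_)
        rw [← sum_filter, sum_const, nsmul_eq_mul]
        linarith
      have h2 : ‖mB (β' w) N‖ = ‖v w * mB (β' w) N‖ := by rw [norm_mul, hv1, one_mul]
      have h3 := norm_sub_norm_le (v w * mB (β' w) N) (mB β N)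
      rw [norm_sub_rev] at h3
      rw [h2]
      linarith
    · -- the sum
      have hdiff : ‖∑ n ∈ Icc 1 N, ∏ i, g i (n + h i) - v w * ∑ n ∈ Icc 1 N, ∏ i, g' w i (n + h i)‖ ≤
          2 * (η * N + h j) := by
        rw [mul_sum, ← sum_sub_distrib]
        have h2 : ∀ n ∈ Icc 1 N, ‖∏ i, g i (n + h i) - v w * ∏ i, g' w i (n + h i)‖ ≤
            if β (cardFactors (n + h j)) ^ r ≠ w then 2 else 0 := by
          intro n _
          rw [← mul_prod_erase univ (fun i => g i (n + h i)) (mem_univ j),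
            ← mul_prod_erase univ (fun i => g' w i (n + h i)) (mem_univ j)]
          have h3 : ∏ i ∈ univ.erase j, g' w i (n + h i) = ∏ i ∈ univ.erase j, g i (n + h i) := by
            refine prod_congr rfl fun i hi => ?_
            simp only [hg']
            rw [if_neg (ne_of_mem_erase hi)]
          rw [h3]
          have h4 : g' w j (n + h j) = β' w (cardFactors (n + h j)) := by
            simp only [hg']
            rw [if_pos trivial]
          rw [h4, hgj]
          have h5 : ‖∏ i ∈ univ.erase j, g i (n + h i)‖ ≤ 1 := by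
            rw [norm_prod]
            exact prod_le_one (fun _ _ => norm_nonneg _) fun i _ => hgn i _
          have h6 : β (cardFactors (n + h j)) * ∏ i ∈ univ.erase j, g i (n + h i) -
              v w * (β' w (cardFactors (n + h j)) * ∏ i ∈ univ.erase j, g i (n + h i)) =
              (β (cardFactors (n + h j)) - v w * β' w (cardFactors (n + h j))) *
                ∏ i ∈ univ.erase j, g i (n + h i) := by ring
          rw [h6, norm_mul]
          refine (mul_le_of_le_one_right (norm_nonneg _) h5).trans ?_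
          simp only [hβ']
          by_cases hl : β (cardFactors (n + h j)) ^ r = w
          · rw [if_pos hl, if_neg (not_not.2 hl)]
            have h7 := conj_mul_one (hv1 w)
            have h8 : β (cardFactors (n + h j)) - v w * (β (cardFactors (n + h j)) * (starRingEnd ℂ) (v w)) = 0 := by
              linear_combination (-β (cardFactors (n + h j))) * h7
            rw [h8, norm_zero]
          · rw [if_neg hl, if_pos hl, mul_one]
            refine (norm_sub_le _ _).trans ?_
            rw [hβ1, hv1]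
            norm_num
        refine (norm_sum_le _ _).trans ((sum_le_sum h2).trans ?_)
        rw [← sum_filter, sum_const, nsmul_eq_mul]
        have h3 := card_shift (fun n => β (cardFactors n) ^ r ≠ w) N (h j)
        have h4 : (((Icc 1 N).filter (fun n => β (cardFactors (n + h j)) ^ r ≠ w)).card : ℝ) ≤
            (((Icc 1 N).filter (fun n => β (cardFactors n) ^ r ≠ w)).card : ℝ) + h j := by
          convert h3
        have h5 : (((Icc 1 N).filter (fun n => β (cardFactors n) ^ r ≠ w)).card : ℝ) ≤ η * N := by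
          convert hcard
        linarith
      have h2 : ‖v w * ∑ n ∈ Icc 1 N, ∏ i, g' w i (n + h i)‖ = ‖∑ n ∈ Icc 1 N, ∏ i, g' w i (n + h i)‖ := by
        rw [norm_mul, hv1, one_mul]
      have h3 := norm_sub_norm_le (∑ n ∈ Icc 1 N, ∏ i, g i (n + h i))
        (v w * ∑ n ∈ Icc 1 N, ∏ i, g' w i (n + h i))
      rw [h2] at h3
      have h4 : 8 * (h j : ℝ) / c₂ ≤ N := (Nat.le_ceil _).trans
        (by exact_mod_cast (by omega : ⌈8 * (h j : ℝ) / c₂⌉₊ ≤ N))
      rw [div_le_iff₀ hc₂] at h4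
      have h5 : η * N ≤ c₂ / 8 * N := mul_le_mul_of_nonneg_right hη2 hN0.le
      have h6 : c * N ≤ c₂ / 2 * N := mul_le_mul_of_nonneg_right hcc2 hN0.le
      linarith

end Pool.Agent.R512.Q
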